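import Mathlib

set_option autoImplicit false

namespace Pool.Agent.Helper766.Rad

/-- Pairs `{A, B}` of subsets of `S` which are Radon partitions (of their union). -/
def RadonIn {d : ℕ} (S : Finset (Fin d → ℝ)) (p : Sym2 (Finset (Fin d → ℝ))) : Prop :=
  ∃ A B : Finset (Fin d → ℝ), p = s(A, B) ∧ A ⊆ S ∧ B ⊆ S ∧ Disjoint A B ∧
    (convexHull ℝ (A : Set (Fin d → ℝ)) ∩ convexHull ℝ (B : Set (Fin d → ℝ))).Nonempty

/-- `p = {A, B}` extends `q = {A', B'}` if `A' ⊆ A` and `B' ⊆ B` for suitable labellings. -/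
def Extends {d : ℕ} (p q : Sym2 (Finset (Fin d → ℝ))) : Prop :=
  ∃ A B A' B' : Finset (Fin d → ℝ), p = s(A, B) ∧ q = s(A', B') ∧ A' ⊆ A ∧ B' ⊆ B

/-- Primitive Radon partitions in `S`. -/
def Primitive {d : ℕ} (S : Finset (Fin d → ℝ)) (p : Sym2 (Finset (Fin d → ℝ))) : Prop :=
  RadonIn S p ∧ ∀ q, RadonIn S q → Extends p q → q = p

/-- The number of primitive Radon partitions in `S`. -/
noncomputable def numPrimitive {d : ℕ} (S : Finset (Fin d → ℝ)) : ℕ :=
  {p | Primitive S p}.ncard

/-- Minimal affinely dependent sets. -/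
def AffCirc {d : ℕ} (C : Finset (Fin d → ℝ)) : Prop :=
  ¬ AffineIndependent ℝ ((↑) : C → (Fin d → ℝ)) ∧
    ∀ e ∈ C, ∀ D : Finset (Fin d → ℝ), D ⊆ C → e ∉ D → AffineIndependent ℝ ((↑) : D → (Fin d → ℝ))

open Classical in
/-- Minimal affinely dependent subsets of `S`. -/
noncomputable def affCircs {d : ℕ} (S : Finset (Fin d → ℝ)) : Finset (Finset (Fin d → ℝ)) :=
  S.powerset.filter AffCirc

open Classical in
/-- Minimal linearly dependent sub-families of a finite family of vectors. -/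
noncomputable def linCircs {κ V : Type} [Fintype κ] [AddCommGroup V] [Module ℝ V] (v : κ → V) :
    Finset (Finset κ) :=
  Finset.univ.filter (fun C => ¬ LinearIndepOn ℝ v (C : Set κ) ∧
    ∀ e ∈ C, LinearIndepOn ℝ v ((C : Set κ) \ {e}))

/-- There are `n` distinct vectors with at most `c` circuits in a real vector space of dimension
`D`, all of them on the affine hyperplane `f = 1` of a linear functional `f`. -/
def Real' (D n c : ℕ) : Prop :=
  ∃ (V : Type) (_ : AddCommGroup V) (_ : Module ℝ V), Module.finrank ℝ V = D ∧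
    ∃ (v : Fin n → V) (f : V →ₗ[ℝ] ℝ), Function.Injective v ∧ (∀ i, f (v i) = 1) ∧
      (linCircs v).card ≤ c

/-- A rank function of a matroid on finite subsets of `ι`. -/
structure RankFn (ι : Type) [DecidableEq ι] where
  r : Finset ι → ℕ
  empty : r ∅ = 0
  mono : ∀ A B : Finset ι, A ⊆ B → r A ≤ r B
  insert_le : ∀ (A : Finset ι) (x : ι), r (insert x A) ≤ r A + 1
  submod : ∀ A B : Finset ι, r (A ∪ B) + r (A ∩ B) ≤ r A + r B

variable {ι : Type} [DecidableEq ι]

/-- Circuits: minimal dependent sets. -/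
def IsCirc (M : RankFn ι) (C : Finset ι) : Prop :=
  M.r C < C.card ∧ ∀ e ∈ C, M.r (C.erase e) = (C.erase e).card

open Classical in
/-- The circuits contained in `E`. -/
noncomputable def circs (M : RankFn ι) (E : Finset ι) : Finset (Finset ι) :=
  E.powerset.filter (IsCirc M)

/-- `E` is simple: no loops and no parallel elements. -/
def Simple (M : RankFn ι) (E : Finset ι) : Prop :=
  (∀ a ∈ E, M.r {a} = 1) ∧ ∀ a ∈ E, ∀ b ∈ E, a ≠ b → M.r {a, b} = 2

end Pool.Agent.Helper766.Rad
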