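import Mathlib
import Pool.Agent.Helper766.Rad.Defs

set_option autoImplicit false

namespace Pool.Agent.Helper766.Rad.AffRank

open Pool.Agent.Helper766.Rad

section Aff

variable {d : ℕ}

/-- lift of a point to the hyperplane `x₀ = 1` -/
def lft (p : Fin d → ℝ) : ℝ × (Fin d → ℝ) := (1, p)

/-- rank of a set of points -/
noncomputable def rkA (A : Finset (Fin d → ℝ)) : ℕ :=
  Module.finrank ℝ (Submodule.span ℝ (lft '' (A : Set (Fin d → ℝ))))

theorem rkA_eq_card_iff (A : Finset (Fin d → ℝ)) :
    rkA A = A.card ↔ AffineIndependent ℝ ((↑) : A → (Fin d → ℝ)) := by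
  have h1 : AffineIndependent ℝ ((↑) : A → (Fin d → ℝ)) ↔
      LinearIndependent ℝ (fun p : A => lft (p : Fin d → ℝ)) := by
    rw [affineIndependent_iff, linearIndependent_iff']
    constructor
    · intro h s w hw
      have h2 : ∑ i ∈ s, w i • lft (i : Fin d → ℝ) = (∑ i ∈ s, w i, ∑ i ∈ s, w i • (i : Fin d → ℝ)) := by
        ext <;> simp [lft, Prod.fst_sum, Prod.snd_sum]
      rw [h2, Prod.mk_eq_zero] at hw
      exact h s w hw.1 hw.2
    · intro h s w hw1 hw2
      have h2 : ∑ i ∈ s, w i • lft (i : Fin d → ℝ) = (∑ i ∈ s, w i, ∑ i ∈ s, w i • (i : Fin d → ℝ)) := by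
        ext <;> simp [lft, Prod.fst_sum, Prod.snd_sum]
      apply h s w
      rw [h2, hw1, hw2]
      rfl
  rw [h1, linearIndependent_iff_card_eq_finrank_span]
  have h2 : Set.range (fun p : A => lft (p : Fin d → ℝ)) = lft '' (A : Set (Fin d → ℝ)) := by
    ext x
    constructor
    · rintro ⟨p, rfl⟩
      exact ⟨p, p.2, rfl⟩
    · rintro ⟨p, hp, rfl⟩
      exact ⟨⟨p, hp⟩, rfl⟩
  rw [h2, Fintype.card_coe, Set.finrank]
  unfold rkA
  exact eq_comm

theorem rkA_le_card (A : Finset (Fin d → ℝ)) : rkA A ≤ A.card := by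
  classical
  unfold rkA
  have h : (lft '' (A : Set (Fin d → ℝ))) = ((A.image lft : Finset _) : Set (ℝ × (Fin d → ℝ))) := by
    rw [Finset.coe_image]
  rw [h]
  exact (finrank_span_finset_le_card _).trans Finset.card_image_le

theorem rkA_mono {A B : Finset (Fin d → ℝ)} (h : A ⊆ B) : rkA A ≤ rkA B :=
  Submodule.finrank_mono (Submodule.span_mono (Set.image_mono (Finset.coe_subset.2 h)))

theorem rkA_submod (A B : Finset (Fin d → ℝ)) : rkA (A ∪ B) + rkA (A ∩ B) ≤ rkA A + rkA B := by
  unfold rkA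
  rw [Finset.coe_union, Finset.coe_inter, Set.image_union, Submodule.span_union]
  have h1 : Submodule.span ℝ (lft '' ((A : Set (Fin d → ℝ)) ∩ B)) ≤
      Submodule.span ℝ (lft '' (A : Set (Fin d → ℝ))) ⊓
      Submodule.span ℝ (lft '' (B : Set (Fin d → ℝ))) :=
    le_inf (Submodule.span_mono (Set.image_mono Set.inter_subset_left))
      (Submodule.span_mono (Set.image_mono Set.inter_subset_right))
  have h2 := Submodule.finrank_mono h1
  have h3 := Submodule.finrank_sup_add_finrank_inf_eq
    (Submodule.span ℝ (lft '' (A : Set (Fin d → ℝ)))) (Submodule.span ℝ (lft '' (B : Set (Fin d → ℝ))))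
  omega

theorem rkA_empty : rkA (∅ : Finset (Fin d → ℝ)) = 0 := by
  have := rkA_le_card (∅ : Finset (Fin d → ℝ))
  rw [Finset.card_empty] at this
  omega

theorem rkA_insert (A : Finset (Fin d → ℝ)) (x : Fin d → ℝ) : rkA (insert x A) ≤ rkA A + 1 := by
  have h1 := rkA_submod {x} A
  have h2 := rkA_le_card ({x} : Finset (Fin d → ℝ))
  rw [Finset.card_singleton] at h2
  rw [← Finset.insert_eq] at h1
  omega

theorem lft_indep {a b : Fin d → ℝ} (hab : a ≠ b) : LinearIndependent ℝ ![lft a, lft b] := by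
  rw [LinearIndependent.pair_iff]
  intro s t h
  unfold lft at h
  rw [Prod.smul_mk, Prod.smul_mk, Prod.mk_add_mk, Prod.mk_eq_zero] at h
  obtain ⟨h1, h2⟩ := h
  have h3 : t = -s := by
    simp only [smul_eq_mul, mul_one] at h1
    linarith
  subst h3
  have h4 : s • (a - b) = 0 := by
    rw [smul_sub, ← h2, neg_smul, sub_eq_add_neg]
  rcases smul_eq_zero.1 h4 with h5 | h5
  · subst h5
    simp
  · exact absurd (sub_eq_zero.1 h5) hab

theorem finrank_pair {a b : Fin d → ℝ} (hab : a ≠ b) :
    Module.finrank ℝ (Submodule.span ℝ {lft a, lft b}) = 2 := by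
  have h := finrank_span_eq_card (lft_indep hab)
  rw [Fintype.card_fin, Matrix.range_cons, Matrix.range_cons, Matrix.range_empty] at h
  have e : ({lft a} ∪ ({lft b} ∪ ∅) : Set (ℝ × (Fin d → ℝ))) = {lft a, lft b} := by
    ext x
    simp [or_comm]
  rw [e] at h
  exact h

theorem rkA_le (S : Finset (Fin d → ℝ)) : rkA S ≤ d + 1 := by
  unfold rkA
  have h := Submodule.finrank_le (Submodule.span ℝ (lft '' (S : Set (Fin d → ℝ))))
  rw [Module.finrank_prod, Module.finrank_self, Module.finrank_fin_fun] at h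
  omega

theorem rkA_two_iff (S : Finset (Fin d → ℝ)) :
    rkA S ≤ 2 ↔ Collinear ℝ (S : Set (Fin d → ℝ)) := by
  classical
  constructor
  · intro h
    by_cases hs : (S : Set (Fin d → ℝ)).Subsingleton
    · rcases hs.eq_empty_or_singleton with h0 | ⟨x, h0⟩
      · rw [h0]; exact collinear_empty ℝ _
      · rw [h0]; exact collinear_singleton ℝ x
    · rw [Set.not_subsingleton_iff] at hs
      obtain ⟨a, ha, b, hb, hab⟩ := hs
      have h1 : Submodule.span ℝ {lft a, lft b} ≤
          Submodule.span ℝ (lft '' (S : Set (Fin d → ℝ))) := by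
        apply Submodule.span_mono
        rintro x (rfl | rfl)
        · exact ⟨a, ha, rfl⟩
        · exact ⟨b, hb, rfl⟩
      have h2 : Submodule.span ℝ {lft a, lft b} =
          Submodule.span ℝ (lft '' (S : Set (Fin d → ℝ))) := by
        apply Submodule.eq_of_le_of_finrank_le h1
        rw [finrank_pair hab]
        exact h
      rw [collinear_iff_of_mem (Finset.mem_coe.2 ha : a ∈ (S : Set (Fin d → ℝ)))]
      refine ⟨b - a, ?_⟩
      intro p hp
      have h3 : lft p ∈ Submodule.span ℝ {lft a, lft b} := by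
        rw [h2]
        exact Submodule.subset_span ⟨p, hp, rfl⟩
      rw [Submodule.mem_span_pair] at h3
      obtain ⟨x, y, hxy⟩ := h3
      unfold lft at hxy
      rw [Prod.smul_mk, Prod.smul_mk, Prod.mk_add_mk, Prod.mk.injEq] at hxy
      obtain ⟨e1, e2⟩ := hxy
      refine ⟨y, ?_⟩
      have e3 : x = 1 - y := by
        simp only [smul_eq_mul, mul_one] at e1
        linarith
      rw [← e2, e3, vadd_eq_add, smul_sub, sub_smul, one_smul]
      abel
  · intro h
    rw [collinear_iff_exists_forall_eq_smul_vadd] at h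
    obtain ⟨p0, v, hv⟩ := h
    have h1 : Submodule.span ℝ (lft '' (S : Set (Fin d → ℝ))) ≤
        Submodule.span ℝ (({(1, p0), (0, v)} : Finset (ℝ × (Fin d → ℝ))) : Set (ℝ × (Fin d → ℝ))) := by
      rw [Submodule.span_le]
      rintro x ⟨p, hp, rfl⟩
      obtain ⟨t, ht⟩ := hv p hp
      rw [Finset.coe_pair, SetLike.mem_coe, Submodule.mem_span_pair]
      refine ⟨1, t, ?_⟩
      rw [ht, vadd_eq_add, lft]
      ext <;> simp [add_comm]
    have h2 := Submodule.finrank_mono h1
    have h3 := finrank_span_finset_le_card (R := ℝ)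
      ({(1, p0), (0, v)} : Finset (ℝ × (Fin d → ℝ)))
    have h4 : ({(1, p0), (0, v)} : Finset (ℝ × (Fin d → ℝ))).card ≤ 2 := Finset.card_le_two
    unfold rkA
    unfold Set.finrank at h3
    omega

end Aff

/-- TARGET: the affine matroid of `ℝ^d`: `r A = finrank (span (1, p), p ∈ A)`. -/
theorem exists_affRank (d : ℕ) : ∃ M : RankFn (Fin d → ℝ),
    (∀ C, IsCirc M C ↔ AffCirc C) ∧ (∀ S, Simple M S) ∧ (∀ S, M.r S ≤ d + 1) ∧
    (∀ S : Finset (Fin d → ℝ), M.r S ≤ 2 ↔ Collinear ℝ (S : Set (Fin d → ℝ))) := by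
  refine ⟨⟨rkA, rkA_empty, fun A B h => rkA_mono h, rkA_insert, rkA_submod⟩, ?_, ?_, rkA_le,
    rkA_two_iff⟩
  · intro C
    unfold IsCirc AffCirc
    show (rkA C < C.card ∧ ∀ e ∈ C, rkA (C.erase e) = (C.erase e).card) ↔ _
    have hC : rkA C < C.card ↔ ¬ AffineIndependent ℝ ((↑) : C → (Fin d → ℝ)) := by
      rw [← rkA_eq_card_iff]
      have := rkA_le_card C
      omega
    rw [hC]
    refine and_congr_right fun _ => ?_
    constructor
    · intro h e he D hDC heD
      have h1 := (rkA_eq_card_iff _).1 (h e he)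
      have h2 : (D : Set (Fin d → ℝ)) ⊆ ((C.erase e : Finset _) : Set (Fin d → ℝ)) := by
        intro x hx
        rw [Finset.mem_coe, Finset.mem_erase]
        exact ⟨fun hxe => heD (hxe ▸ hx), hDC hx⟩
      exact AffineIndependent.mono h1 h2
    · intro h e he
      rw [rkA_eq_card_iff]
      exact h e he _ (Finset.erase_subset _ _) (Finset.notMem_erase _ _)
  · intro S
    refine ⟨fun a _ => ?_, fun a _ b _ hab => ?_⟩
    · show rkA {a} = 1
      have h0 : rkA ({a} : Finset (Fin d → ℝ)) = ({a} : Finset (Fin d → ℝ)).card := by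
        rw [rkA_eq_card_iff]
        have : Subsingleton (({a} : Finset (Fin d → ℝ)) : Type) := by
          constructor
          rintro ⟨x, hx⟩ ⟨y, hy⟩
          rw [Finset.mem_singleton] at hx hy
          subst hx; subst hy; rfl
        exact affineIndependent_of_subsingleton ℝ _
      rw [h0, Finset.card_singleton]
    · show rkA {a, b} = 2
      unfold rkA
      rw [Finset.coe_pair, Set.image_pair]
      exact finrank_pair hab

end Pool.Agent.Helper766.Rad.AffRank
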