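import Mathlib
import Pool.Agent.Helper766.Rad.Defs

set_option autoImplicit false

namespace Pool.Agent.Helper766.Rad

variable {ι : Type} [DecidableEq ι]

theorem RankFn.mono' (M : RankFn ι) {A B : Finset ι} (h : A ⊆ B) : M.r A ≤ M.r B := M.mono A B h

theorem r_union_le (M : RankFn ι) (A B : Finset ι) : M.r (A ∪ B) ≤ M.r A + M.r B := by
  have := M.submod A B
  omega

theorem r_singleton_le (M : RankFn ι) (x : ι) : M.r {x} ≤ 1 := by
  have := M.insert_le ∅ x
  rw [M.empty] at this
  simpa using this

theorem r_le_card (M : RankFn ι) (A : Finset ι) : M.r A ≤ A.card := by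
  induction A using Finset.induction_on with
  | empty => simp [M.empty]
  | insert a A ha ih =>
    rw [Finset.card_insert_of_notMem ha]
    have := M.insert_le A a
    omega

theorem indep_subset (M : RankFn ι) {A B : Finset ι} (h : M.r A = A.card) (hB : B ⊆ A) :
    M.r B = B.card := by
  have h1 := r_union_le M B (A \ B)
  rw [Finset.union_sdiff_of_subset hB] at h1
  have h2 := r_le_card M (A \ B)
  have h3 := Finset.card_sdiff_add_card_eq_card hB
  have h4 := r_le_card M B
  omega

/-- If `x` is in the closure of `A` it is in the closure of every larger set. -/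
theorem cl_mono (M : RankFn ι) {A B : Finset ι} {x : ι} (h : M.r (insert x A) = M.r A)
    (hAB : A ⊆ B) : M.r (insert x B) = M.r B := by
  apply le_antisymm _ (M.mono' (Finset.subset_insert x B))
  have h1 := M.submod (insert x A) B
  have h2 : insert x A ∪ B = insert x B := by
    ext z; simp only [Finset.mem_union, Finset.mem_insert]
    constructor
    · rintro ((h | h) | h)
      · exact Or.inl h
      · exact Or.inr (hAB h)
      · exact Or.inr h
    · rintro (h | h)
      · exact Or.inl (Or.inl h)
      · exact Or.inr h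
  rw [h2] at h1
  have h3 : M.r A ≤ M.r (insert x A ∩ B) := M.mono' (by
    intro z hz
    simp only [Finset.mem_inter, Finset.mem_insert]
    exact ⟨Or.inr hz, hAB hz⟩)
  omega

/-- Adding a set of elements of the closure does not change the rank. -/
theorem cl_union (M : RankFn ι) {A T : Finset ι} (h : ∀ x ∈ T, M.r (insert x A) = M.r A) :
    M.r (A ∪ T) = M.r A := by
  induction T using Finset.induction_on with
  | empty => simp
  | insert a T ha ih =>
    have h1 : A ∪ insert a T = insert a (A ∪ T) := by
      ext z; simp only [Finset.mem_union, Finset.mem_insert]; tauto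
    rw [h1]
    rw [cl_mono M (h a (Finset.mem_insert_self a T)) Finset.subset_union_left]
    exact ih (fun x hx => h x (Finset.mem_insert_of_mem hx))

theorem IsCirc.nonempty {M : RankFn ι} {C : Finset ι} (h : IsCirc M C) : C.Nonempty := by
  rcases C.eq_empty_or_nonempty with rfl | h'
  · have := h.1
    simp at this
  · exact h'

theorem IsCirc.r_add_one {M : RankFn ι} {C : Finset ι} (h : IsCirc M C) : M.r C + 1 = C.card := by
  obtain ⟨e, he⟩ := h.nonempty
  have h1 := h.2 e he
  have h2 := M.mono' (Finset.erase_subset e C)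
  have h3 := Finset.card_erase_add_one he
  have := h.1
  omega

theorem IsCirc.indep_of_ssubset {M : RankFn ι} {C D : Finset ι} (h : IsCirc M C) (hD : D ⊂ C) :
    M.r D = D.card := by
  obtain ⟨e, he, heD⟩ := Finset.exists_of_ssubset hD
  exact indep_subset M (h.2 e he) (fun z hz => Finset.mem_erase.mpr
    ⟨fun h => heD (h ▸ hz), hD.subset hz⟩)

theorem IsCirc.eq_of_subset {M : RankFn ι} {C D : Finset ι} (h : IsCirc M C) (hD : IsCirc M D)
    (hDC : D ⊆ C) : D = C := by
  by_contra hne
  have := h.indep_of_ssubset (Finset.ssubset_iff_subset_ne.mpr ⟨hDC, hne⟩)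
  have := hD.1
  omega

/-- An element of a circuit is in the closure of the rest. -/
theorem IsCirc.cl {M : RankFn ι} {C : Finset ι} (h : IsCirc M C) {e : ι} (he : e ∈ C) :
    M.r (insert e (C.erase e)) = M.r (C.erase e) := by
  rw [Finset.insert_erase he, h.2 e he]
  have := h.r_add_one
  have := Finset.card_erase_add_one he
  omega

/-- Existence of circuits through an element of the closure. -/
theorem exists_circ (M : RankFn ι) {A : Finset ι} {x : ι} (hx : x ∉ A)
    (h : M.r (insert x A) = M.r A) : ∃ C, IsCirc M C ∧ x ∈ C ∧ C ⊆ insert x A := by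
  -- minimal subset `D` of `A` with `x` in its closure
  obtain ⟨D, hD⟩ : ∃ D, Minimal (fun D => D ⊆ A ∧ M.r (insert x D) = M.r D) D := by
    have hfin : {D : Finset ι | D ⊆ A ∧ M.r (insert x D) = M.r D}.Finite := by
      apply Set.Finite.subset (A.powerset.finite_toSet)
      intro D hD
      simpa using hD.1
    exact hfin.exists_minimal ⟨A, Finset.Subset.refl A, h⟩
  have hxD : x ∉ D := fun hh => hx (hD.prop.1 hh)
  have hmin : ∀ g ∈ D, M.r (insert x (D.erase g)) ≠ M.r (D.erase g) := by
    intro g hg heq
    have := hD.le_of_le ⟨(Finset.erase_subset g D).trans hD.prop.1, heq⟩ (Finset.erase_subset g D)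
    exact (Finset.notMem_erase g D) (this hg)
  have hind : M.r D = D.card := by
    by_contra hne
    -- `D` dependent: some `g` with `r (D - g) = r D`
    have : ∃ g ∈ D, M.r (D.erase g) = M.r D := by
      by_contra hcon
      push Not at hcon
      apply hne
      -- every subset obtained by removing one element drops the rank: independence
      have key : ∀ T ⊆ D, M.r (D \ T) + T.card ≤ M.r D := by
        intro T
        induction T using Finset.induction_on with
        | empty => intro _; simp
        | insert g T hg ih =>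
          intro hT
          have hgD : g ∈ D := hT (Finset.mem_insert_self g T)
          have hTD : T ⊆ D := (Finset.subset_insert g T).trans hT
          have h1 := ih hTD
          rw [Finset.card_insert_of_notMem hg]
          have h2 : M.r (D \ insert g T) + 1 ≤ M.r (D \ T) := by
            by_contra hlt
            have h3 : M.r (insert g (D \ insert g T)) = M.r (D \ insert g T) := by
              have h4 : insert g (D \ insert g T) = D \ T := by
                ext z
                simp only [Finset.mem_insert, Finset.mem_sdiff]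
                constructor
                · rintro (rfl | ⟨h1, h2⟩)
                  · exact ⟨hgD, hg⟩
                  · exact ⟨h1, fun hh => h2 (Or.inr hh)⟩
                · rintro ⟨h1, h2⟩
                  by_cases hz : z = g
                  · exact Or.inl hz
                  · exact Or.inr ⟨h1, by rintro (hh | hh); exacts [hz hh, h2 hh]⟩
              have h5 := M.mono' (Finset.subset_insert g (D \ insert g T))
              rw [h4] at h5 ⊢
              omega
            have h6 := cl_mono M h3 (B := D.erase g) (by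
              intro z hz
              simp only [Finset.mem_sdiff, Finset.mem_insert, not_or, Finset.mem_erase] at hz ⊢
              exact ⟨hz.2.1, hz.1⟩)
            rw [Finset.insert_erase hgD] at h6
            exact hcon g hgD h6.symm
          omega
      have := key D (Finset.Subset.refl D)
      rw [Finset.sdiff_self, M.empty] at this
      have := r_le_card M D
      omega
    obtain ⟨g, hg, hgr⟩ := this
    apply hmin g hg
    have h1 := M.mono' (Finset.insert_subset_insert x (Finset.erase_subset g D))
    rw [hD.prop.2] at h1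
    have h2 := M.mono' (Finset.subset_insert x (D.erase g))
    omega
  refine ⟨insert x D, ⟨?_, ?_⟩, Finset.mem_insert_self x D,
    Finset.insert_subset_insert x hD.prop.1⟩
  · rw [hD.prop.2, Finset.card_insert_of_notMem hxD]
    omega
  · intro e he
    rcases Finset.mem_insert.mp he with rfl | heD
    · rw [Finset.erase_insert hxD, hind]
    · have hne : x ≠ e := fun hh => hxD (hh ▸ heD)
      rw [Finset.erase_insert_of_ne hne,
        Finset.card_insert_of_notMem (fun hh => hxD (Finset.mem_of_mem_erase hh))]
      have h1 := hmin e heD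
      have h2 := M.insert_le (D.erase e) x
      have h3 := M.mono' (Finset.subset_insert x (D.erase e))
      have h4 := indep_subset M hind (Finset.erase_subset e D)
      omega

/-- Contraction of an element. -/
def con (M : RankFn ι) (y : ι) : RankFn ι where
  r A := M.r (insert y A) - M.r {y}
  empty := by simp
  mono A B h := Nat.sub_le_sub_right (M.mono' (Finset.insert_subset_insert y h)) _
  insert_le A x := by
    have h1 := M.insert_le (insert y A) x
    rw [Finset.insert_comm] at h1
    have h2 : M.r {y} ≤ M.r (insert y A) := M.mono' (by simp)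
    omega
  submod A B := by
    have h1 := M.submod (insert y A) (insert y B)
    rw [← Finset.insert_union_distrib, ← Finset.insert_inter_distrib] at h1
    have h2 : M.r {y} ≤ M.r (insert y A) := M.mono' (by simp)
    have h3 : M.r {y} ≤ M.r (insert y B) := M.mono' (by simp)
    have h4 : M.r {y} ≤ M.r (insert y (A ∩ B)) := M.mono' (by simp)
    have h5 : M.r {y} ≤ M.r (insert y (A ∪ B)) := M.mono' (by simp)
    omega

theorem con_r (M : RankFn ι) {y : ι} (hy : M.r {y} = 1) (A : Finset ι) :
    (con M y).r A + 1 = M.r (insert y A) := by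
  have h2 : M.r {y} ≤ M.r (insert y A) := M.mono' (by simp)
  change M.r (insert y A) - M.r {y} + 1 = _
  omega

/-- Circuits of a contraction come from circuits. -/
theorem circ_of_con (M : RankFn ι) {y : ι} (hy : M.r {y} = 1) {D : Finset ι} (hD : y ∉ D)
    (h : IsCirc (con M y) D) : IsCirc M D ∨ IsCirc M (insert y D) := by
  have h1 := h.r_add_one
  have h2 := con_r M hy D
  have h3 := M.insert_le D y
  have h4 := M.mono' (Finset.subset_insert y D)
  have h5 : ∀ e ∈ D, M.r (insert y (D.erase e)) = D.card := by
    intro e he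
    have h6 := h.2 e he
    have h7 := con_r M hy (D.erase e)
    have h8 := Finset.card_erase_add_one he
    omega
  rcases Nat.lt_or_ge (M.r D) D.card with hlt | hge
  · left
    refine ⟨hlt, fun e he => ?_⟩
    have h6 := h5 e he
    have h7 := M.insert_le (D.erase e) y
    have h8 := Finset.card_erase_add_one he
    have h9 := r_le_card M (D.erase e)
    omega
  · right
    have h10 := r_le_card M D
    refine ⟨?_, ?_⟩
    · rw [Finset.card_insert_of_notMem hD]
      omega
    · intro e he
      rcases Finset.mem_insert.mp he with rfl | heD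
      · rw [Finset.erase_insert hD]
        omega
      · have hne : y ≠ e := fun hh => hD (hh ▸ heD)
        rw [Finset.erase_insert_of_ne hne,
          Finset.card_insert_of_notMem (fun hh => hD (Finset.mem_of_mem_erase hh)), h5 e heD,
          Finset.card_erase_add_one heD]

/-- Connected sets. -/
def Conn (M : RankFn ι) (E : Finset ι) : Prop :=
  ∀ A ⊆ E, A.Nonempty → A ≠ E → M.r E < M.r A + M.r (E \ A)

theorem Conn.nl {M : RankFn ι} {E : Finset ι} (h : Conn M E) (h2 : 2 ≤ E.card) {x : ι}
    (hx : x ∈ E) : M.r {x} = 1 ∧ M.r (E.erase x) = M.r E := by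
  have h1 := h {x} (by simpa using hx) (by simp) (by
    rintro rfl
    simp at h2)
  have h3 := r_singleton_le M x
  rw [← Finset.erase_eq] at h1
  have h4 := M.mono' (Finset.erase_subset x E)
  constructor <;> omega

theorem compl_aux {E A B A' B' : Finset ι} {z : ι} (hz : z ∈ E) (h1 : A ∪ B = E.erase z)
    (h1d : Disjoint A B) (h2 : A' ∪ B' = E.erase z) (h2d : Disjoint A' B') :
    E \ (A ∩ A') = B ∪ insert z B' := by
  ext w
  rw [Finset.mem_sdiff, Finset.mem_inter, Finset.mem_union, Finset.mem_insert]
  have a1 : w ∈ A ∨ w ∈ B ↔ w ≠ z ∧ w ∈ E := by rw [← Finset.mem_union, h1, Finset.mem_erase]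
  have a2 : w ∈ A' ∨ w ∈ B' ↔ w ≠ z ∧ w ∈ E := by rw [← Finset.mem_union, h2, Finset.mem_erase]
  have d1 : w ∈ A → w ∉ B := fun h => Finset.disjoint_left.mp h1d h
  have d2 : w ∈ A' → w ∉ B' := fun h => Finset.disjoint_left.mp h2d h
  clear h1 h2 h1d h2d
  constructor
  · rintro ⟨hE, hn⟩
    by_cases hwz : w = z
    · exact Or.inr (Or.inl hwz)
    · by_cases hA : w ∈ A
      · have : w ∉ A' := fun hh => hn ⟨hA, hh⟩
        rcases a2.mpr ⟨hwz, hE⟩ with h | h
        · exact absurd h this
        · exact Or.inr (Or.inr h)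
      · rcases a1.mpr ⟨hwz, hE⟩ with h | h
        · exact absurd h hA
        · exact Or.inl h
  · rintro (h | h | h)
    · exact ⟨(a1.mp (Or.inr h)).2, fun hh => d1 hh.1 h⟩
    · subst h
      exact ⟨hz, fun hh => (a1.mp (Or.inl hh.1)).1 rfl⟩
    · exact ⟨(a2.mp (Or.inr h)).2, fun hh => d2 hh.2 h⟩

/-- Tutte: deleting or contracting an element of a connected matroid leaves it connected. -/
theorem Conn.del_or_con {M : RankFn ι} {E : Finset ι} (h : Conn M E) (h2 : 2 ≤ E.card) {z : ι}
    (hz : z ∈ E) : Conn M (E.erase z) ∨ Conn (con M z) (E.erase z) := by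
  by_contra hcon
  push Not at hcon
  obtain ⟨hd, hc⟩ := hcon
  obtain ⟨hz1, hz2⟩ := h.nl h2 hz
  unfold Conn at hd hc
  push Not at hd hc
  obtain ⟨P, hPE, hPn, hPne, hP⟩ := hd
  obtain ⟨S, hSE, hSn, hSne, hS⟩ := hc
  set Q := E.erase z \ P with hQ
  set T := E.erase z \ S with hT
  have hQn : Q.Nonempty := by
    rw [hQ, Finset.sdiff_nonempty]
    intro hh
    exact hPne (Finset.Subset.antisymm hPE hh)
  have hTn : T.Nonempty := by
    rw [hT, Finset.sdiff_nonempty]
    intro hh
    exact hSne (Finset.Subset.antisymm hSE hh)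
  have e1 := con_r M hz1 (E.erase z)
  have e2 := con_r M hz1 S
  have e3 := con_r M hz1 T
  rw [Finset.insert_erase hz] at e1
  -- general crossing inequality
  have key : ∀ A B A' B' : Finset ι, A ∪ B = E.erase z → Disjoint A B → A' ∪ B' = E.erase z →
      Disjoint A' B' → A.Nonempty → B.Nonempty →
      M.r A + M.r B ≤ M.r E → M.r (insert z A') + M.r (insert z B') ≤ M.r E + 1 →
      (A ∩ A').Nonempty → (B ∩ B').Nonempty → False := by
    intro A B A' B' h1 h1d h2 h2d hAn hBn h3 h4 h5 h6
    have s1 := M.submod A (insert z A')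
    have s2 := M.submod B (insert z B')
    have m1 : M.r (A ∩ A') ≤ M.r (A ∩ insert z A') :=
      M.mono' (Finset.inter_subset_inter_left (Finset.subset_insert z A'))
    have m2 : M.r (B ∩ B') ≤ M.r (B ∩ insert z B') :=
      M.mono' (Finset.inter_subset_inter_left (Finset.subset_insert z B'))
    have hA : A ⊆ E.erase z := h1 ▸ Finset.subset_union_left
    have hB : B ⊆ E.erase z := h1 ▸ Finset.subset_union_right
    have hA' : A' ⊆ E.erase z := h2 ▸ Finset.subset_union_left
    have hB' : B' ⊆ E.erase z := h2 ▸ Finset.subset_union_right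
    have hmem : ∀ w, w ∈ E.erase z ↔ (w ∈ A ∨ w ∈ B) := by
      intro w; rw [← h1, Finset.mem_union]
    have hmem' : ∀ w, w ∈ E.erase z ↔ (w ∈ A' ∨ w ∈ B') := by
      intro w; rw [← h2, Finset.mem_union]
    have c1 : E \ (A ∩ A') = B ∪ insert z B' := compl_aux hz h1 h1d h2 h2d
    have c2 : E \ (B ∩ B') = A ∪ insert z A' := compl_aux hz (by rw [Finset.union_comm]; exact h1)
      h1d.symm (by rw [Finset.union_comm]; exact h2) h2d.symm
    have k1 := h (A ∩ A') ((Finset.inter_subset_left.trans hA).trans (Finset.erase_subset z E)) h5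
      (by
        intro hh
        have : z ∈ A ∩ A' := hh ▸ hz
        exact (Finset.mem_erase.mp (hA (Finset.mem_inter.mp this).1)).1 rfl)
    have k2 := h (B ∩ B') ((Finset.inter_subset_left.trans hB).trans (Finset.erase_subset z E)) h6
      (by
        intro hh
        have : z ∈ B ∩ B' := hh ▸ hz
        exact (Finset.mem_erase.mp (hB (Finset.mem_inter.mp this).1)).1 rfl)
    rw [c1] at k1
    rw [c2] at k2
    omega
  have uPQ : P ∪ Q = E.erase z := Finset.union_sdiff_of_subset hPE
  have uST : S ∪ T = E.erase z := Finset.union_sdiff_of_subset hSE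
  have dPQ : Disjoint P Q := Finset.disjoint_sdiff
  have dST : Disjoint S T := Finset.disjoint_sdiff
  have b1 : M.r P + M.r Q ≤ M.r E := by rw [hz2] at hP; exact hP
  have b2 : M.r (insert z S) + M.r (insert z T) ≤ M.r E + 1 := by omega
  have q1 : ¬ ((P ∩ S).Nonempty ∧ (Q ∩ T).Nonempty) := fun hh =>
    key P Q S T uPQ dPQ uST dST hPn hQn b1 b2 hh.1 hh.2
  have q2 : ¬ ((P ∩ T).Nonempty ∧ (Q ∩ S).Nonempty) := fun hh =>
    key P Q T S uPQ dPQ (by rw [Finset.union_comm]; exact uST) dST.symm hPn hQn b1
      (by omega) hh.1 hh.2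
  obtain ⟨p, hp⟩ := hPn
  obtain ⟨q, hq⟩ := hQn
  obtain ⟨s, hs⟩ := hSn
  obtain ⟨t, ht⟩ := hTn
  have mp : p ∈ S ∨ p ∈ T := by rw [← Finset.mem_union, uST, ← uPQ]; exact Finset.mem_union_left _ hp
  have mq : q ∈ S ∨ q ∈ T := by rw [← Finset.mem_union, uST, ← uPQ]; exact Finset.mem_union_right _ hq
  have ms : s ∈ P ∨ s ∈ Q := by rw [← Finset.mem_union, uPQ, ← uST]; exact Finset.mem_union_left _ hs
  have mt : t ∈ P ∨ t ∈ Q := by rw [← Finset.mem_union, uPQ, ← uST]; exact Finset.mem_union_right _ ht
  have nPS : (p ∈ S ∨ s ∈ P) → (P ∩ S).Nonempty := by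
    rintro (h | h)
    · exact ⟨p, Finset.mem_inter.mpr ⟨hp, h⟩⟩
    · exact ⟨s, Finset.mem_inter.mpr ⟨h, hs⟩⟩
  have nPT : (p ∈ T ∨ t ∈ P) → (P ∩ T).Nonempty := by
    rintro (h | h)
    · exact ⟨p, Finset.mem_inter.mpr ⟨hp, h⟩⟩
    · exact ⟨t, Finset.mem_inter.mpr ⟨h, ht⟩⟩
  have nQS : (q ∈ S ∨ s ∈ Q) → (Q ∩ S).Nonempty := by
    rintro (h | h)
    · exact ⟨q, Finset.mem_inter.mpr ⟨hq, h⟩⟩
    · exact ⟨s, Finset.mem_inter.mpr ⟨h, hs⟩⟩
  have nQT : (q ∈ T ∨ t ∈ Q) → (Q ∩ T).Nonempty := by
    rintro (h | h)
    · exact ⟨q, Finset.mem_inter.mpr ⟨hq, h⟩⟩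
    · exact ⟨t, Finset.mem_inter.mpr ⟨h, ht⟩⟩
  by_cases hPS : (P ∩ S).Nonempty
  · have h1 : ¬ (Q ∩ T).Nonempty := fun hh => q1 ⟨hPS, hh⟩
    have h2 : q ∈ S := mq.resolve_right (fun hh => h1 (nQT (Or.inl hh)))
    have h3 : ¬ (P ∩ T).Nonempty := fun hh => q2 ⟨hh, nQS (Or.inl h2)⟩
    have h4 : t ∈ Q := mt.resolve_left (fun hh => h3 (nPT (Or.inr hh)))
    exact h1 (nQT (Or.inr h4))
  · have h1 : p ∈ T := mp.resolve_left (fun hh => hPS (nPS (Or.inl hh)))
    have h2 : ¬ (Q ∩ S).Nonempty := fun hh => q2 ⟨nPT (Or.inl h1), hh⟩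
    have h3 : s ∈ P := ms.resolve_right (fun hh => h2 (nQS (Or.inr hh)))
    exact hPS (nPS (Or.inr h3))

end Pool.Agent.Helper766.Rad
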