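import Mathlib
import Pool.Agent.Helper766.Rad.Defs

set_option autoImplicit false

namespace Pool.Agent.Helper766.Rad.Config

open Pool.Agent.Helper766.Rad

theorem circ_eq {κ V : Type} [Fintype κ] [AddCommGroup V] [Module ℝ V] (v : κ → V)
    (C T : Finset κ) (hC : C ∈ linCircs v) (hTC : T ⊆ C)
    (hT : ¬ LinearIndepOn ℝ v (T : Set κ)) : C = T := by
  classical
  unfold linCircs at hC
  rw [Finset.mem_filter] at hC
  obtain ⟨-, -, hmin⟩ := hC
  by_contra hne
  have hss : ∃ e ∈ C, e ∉ T := by
    by_contra hcon
    push Not at hcon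
    exact hne (Finset.Subset.antisymm hcon hTC)
  obtain ⟨e, he, heT⟩ := hss
  apply hT
  apply (hmin e he).mono
  intro x hx
  refine ⟨hTC hx, ?_⟩
  rintro rfl
  exact heT hx

theorem circ_dep {κ V : Type} [Fintype κ] [AddCommGroup V] [Module ℝ V] (v : κ → V)
    (C T : Finset κ) (hC : C ∈ linCircs v) (hTC : C ⊆ T)
    (hT : LinearIndepOn ℝ v (T : Set κ)) : False := by
  classical
  unfold linCircs at hC
  rw [Finset.mem_filter] at hC
  obtain ⟨-, hd, -⟩ := hC
  exact hd (hT.mono (by exact_mod_cast hTC))

/-- planar points lifted to height one -/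
def lift {κ : Type} (x y : κ → ℝ) : κ → (Fin 3 → ℝ) := fun i => ![1, x i, y i]

theorem indep3 {κ : Type} [DecidableEq κ] (x y : κ → ℝ) (a b c : κ) (hab : a ≠ b) (hac : a ≠ c) (hbc : b ≠ c)
    (h : (x b - x a) * (y c - y a) - (x c - x a) * (y b - y a) ≠ 0) :
    LinearIndepOn ℝ (lift x y) (({a, b, c} : Finset κ) : Set κ) := by
  rw [linearIndepOn_finset_iff]
  intro f hf
  rw [Finset.sum_insert (by simp [hab, hac]), Finset.sum_insert (by simp [hbc]),
    Finset.sum_singleton] at hf
  have h0 := congrFun hf 0
  have h1 := congrFun hf 1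
  have h2 := congrFun hf 2
  simp only [lift, Pi.add_apply, Pi.smul_apply, Pi.zero_apply, smul_eq_mul, Matrix.cons_val_zero,
    Matrix.cons_val_one, Matrix.cons_val, mul_one] at h0 h1 h2
  have ea : f a * ((x b - x a) * (y c - y a) - (x c - x a) * (y b - y a)) = 0 := by
    linear_combination (x b * y c - x c * y b) * h0 + (y b - y c) * h1 - (x b - x c) * h2
  have eb : f b * ((x b - x a) * (y c - y a) - (x c - x a) * (y b - y a)) = 0 := by
    linear_combination (x c * y a - x a * y c) * h0 + (y c - y a) * h1 - (x c - x a) * h2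
  have ec : f c * ((x b - x a) * (y c - y a) - (x c - x a) * (y b - y a)) = 0 := by
    linear_combination (x a * y b - x b * y a) * h0 + (y a - y b) * h1 - (x a - x b) * h2
  intro i hi
  simp only [Finset.mem_insert, Finset.mem_singleton] at hi
  rcases hi with rfl | rfl | rfl
  · exact (mul_eq_zero.mp ea).resolve_right h
  · exact (mul_eq_zero.mp eb).resolve_right h
  · exact (mul_eq_zero.mp ec).resolve_right h

theorem dep3 {κ : Type} [DecidableEq κ] (x y : κ → ℝ) (a b c : κ) (hab : a ≠ b) (hac : a ≠ c) (hbc : b ≠ c)
    (h : (x b - x a) * (y c - y a) - (x c - x a) * (y b - y a) = 0) :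
    ¬ LinearIndepOn ℝ (lift x y) (({a, b, c} : Finset κ) : Set κ) := by
  rw [linearIndepOn_finset_iff]
  push Not
  have key : ∀ p q r : ℝ, p + q + r = 0 → p * x a + q * x b + r * x c = 0 →
      p * y a + q * y b + r * y c = 0 → (p ≠ 0 ∨ q ≠ 0) →
      ∃ f : κ → ℝ, ∑ i ∈ ({a, b, c} : Finset κ), f i • lift x y i = 0 ∧
        ∃ i ∈ ({a, b, c} : Finset κ), f i ≠ 0 := by
    intro p q r h0 h1 h2 hp
    refine ⟨fun i => if i = a then p else if i = b then q else r, ?_, ?_⟩
    · rw [Finset.sum_insert (by simp [hab, hac]), Finset.sum_insert (by simp [hbc]),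
        Finset.sum_singleton]
      simp only [if_true, if_neg hab.symm, if_neg hac.symm, if_neg hbc.symm]
      ext i
      fin_cases i
      · simp [lift]; linarith
      · simp [lift]; linarith
      · simp [lift]; linarith
    · rcases hp with hp | hp
      · exact ⟨a, by simp, by simpa using hp⟩
      · exact ⟨b, by simp, by simpa [hab.symm] using hp⟩
  by_cases hx : x b - x c ≠ 0 ∨ x c - x a ≠ 0
  · exact key (x b - x c) (x c - x a) (x a - x b) (by ring) (by ring) (by linear_combination -h) hx
  · push Not at hx
    by_cases hy : y b - y c ≠ 0 ∨ y c - y a ≠ 0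
    · refine key (y b - y c) (y c - y a) (y a - y b) (by ring) ?_ (by ring) hy
      have h1 : x b = x c := by linarith [hx.1]
      have h2 : x a = x c := by linarith [hx.2]
      rw [h1, h2]; ring
    · push Not at hy
      refine key 1 (-1) 0 (by ring) ?_ ?_ (Or.inl one_ne_zero)
      · linarith [hx.1, hx.2]
      · linarith [hy.1, hy.2]

theorem dep4 {κ : Type} (v : κ → (Fin 3 → ℝ)) (F : Finset κ) (hF : 3 < F.card) :
    ¬ LinearIndepOn ℝ v (F : Set κ) := by
  intro h
  have h1 := LinearIndependent.fintype_card_le_finrank h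
  simp at h1
  omega

/-- TARGET 1: `l ≥ 2` points `(1,t,0)` (`t < l`) on a line and two further points `(1,0,1)`,
`(1,0,2)` collinear with the point `t = 0`. -/
theorem real'_plane (l : ℕ) (hl : 2 ≤ l) :
    Real' 3 (l + 2) (l.choose 3 + 1 + (l - 1).choose 2) := by
  classical
  refine ⟨Fin 3 → ℝ, inferInstance, inferInstance, by simp, ?_⟩
  let x : Fin (l + 2) → ℝ := fun i => if (i : ℕ) < l then ((i : ℕ) : ℝ) else 0
  let y : Fin (l + 2) → ℝ := fun i => if (i : ℕ) < l then 0 else ((i : ℕ) : ℝ) - l + 1
  have xl : ∀ i : Fin (l + 2), (i : ℕ) < l → x i = ((i : ℕ) : ℝ) := fun i hi => if_pos hi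
  have yl : ∀ i : Fin (l + 2), (i : ℕ) < l → y i = 0 := fun i hi => if_pos hi
  have xp : ∀ i : Fin (l + 2), ¬ (i : ℕ) < l → x i = 0 := fun i hi => if_neg hi
  have yp : ∀ i : Fin (l + 2), ¬ (i : ℕ) < l → y i = ((i : ℕ) : ℝ) - l + 1 := fun i hi => if_neg hi
  have cne : ∀ i j : Fin (l + 2), i ≠ j → ((i : ℕ) : ℝ) ≠ ((j : ℕ) : ℝ) := by
    intro i j hij h
    exact hij (Fin.ext (by exact_mod_cast h))
  let p : Fin (l + 2) := ⟨l, by omega⟩
  let q : Fin (l + 2) := ⟨l + 1, by omega⟩
  have hp : ¬ ((p : ℕ) < l) := by simp [p]
  have hq : ¬ ((q : ℕ) < l) := by simp [q]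
  have yP : y p = 1 := by rw [yp p hp]; simp [p]
  have yQ : y q = 2 := by rw [yp q hq]; simp [q]; ring
  have hpq : p ≠ q := by intro h; have := congrArg Fin.val h; simp [p, q] at this
  have cases3 : ∀ i : Fin (l + 2), (i : ℕ) < l ∨ i = p ∨ i = q := by
    intro i
    by_cases hi : (i : ℕ) < l
    · exact Or.inl hi
    · right
      have := i.2
      by_cases h : (i : ℕ) = l
      · left; exact Fin.ext h
      · right; exact Fin.ext (by show (i : ℕ) = l + 1; omega)
  refine ⟨lift x y, LinearMap.proj 0, ?_, ?_, ?_⟩
  · intro i j hij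
    have h1 : x i = x j := by simpa [lift] using congrFun hij 1
    have h2 : y i = y j := by simpa [lift] using congrFun hij 2
    by_contra hne
    rcases cases3 i with hi | rfl | rfl <;> rcases cases3 j with hj | rfl | rfl
    · rw [xl i hi, xl j hj] at h1; exact cne i j hne h1
    · rw [yl i hi, yP] at h2; norm_num at h2
    · rw [yl i hi, yQ] at h2; norm_num at h2
    · rw [yl j hj, yP] at h2; norm_num at h2
    · exact hne rfl
    · rw [yP, yQ] at h2; norm_num at h2
    · rw [yl j hj, yQ] at h2; norm_num at h2
    · rw [yP, yQ] at h2; norm_num at h2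
    · exact hne rfl
  · intro i; simp [lift]
  · let L : Finset (Fin (l + 2)) := Finset.univ.filter (fun i => (i : ℕ) < l)
    have memL : ∀ i, i ∈ L ↔ (i : ℕ) < l := by intro i; simp [L]
    let z : Fin (l + 2) := ⟨0, by omega⟩
    let o : Fin (l + 2) := ⟨1, by omega⟩
    have zL : z ∈ L := by rw [memL]; show 0 < l; omega
    have oL : o ∈ L := by rw [memL]; show 1 < l; omega
    have zo : z ≠ o := by intro h; have := congrArg Fin.val h; simp [z, o] at this
    have cardL : L.card = l := by
      have : L = (Finset.univ : Finset (Fin l)).map (Fin.castLEEmb (show l ≤ l + 2 by omega)) := by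
        ext i
        rw [memL]
        simp only [Finset.mem_map, Finset.mem_univ, true_and]
        constructor
        · intro hi; exact ⟨⟨i, hi⟩, by ext; rfl⟩
        · rintro ⟨j, rfl⟩; exact j.2
      rw [this]; simp
    -- independence facts
    have I1 : ∀ a b r : Fin (l + 2), a ∈ L → b ∈ L → a ≠ b → (r = p ∨ r = q) →
        LinearIndepOn ℝ (lift x y) (({a, b, r} : Finset (Fin (l + 2))) : Set (Fin (l + 2))) := by
      intro a b r ha hb hab hr
      rw [memL] at ha hb
      have hrl : ¬ (r : ℕ) < l := by rcases hr with rfl | rfl <;> assumption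
      have hyr : y r ≠ 0 := by
        rcases hr with rfl | rfl
        · rw [yP]; norm_num
        · rw [yQ]; norm_num
      apply indep3 x y a b r hab (by rintro rfl; exact hrl ha) (by rintro rfl; exact hrl hb)
      rw [xl a ha, xl b hb, yl a ha, yl b hb]
      have := cne b a (Ne.symm hab)
      have h2 : ((b : ℕ) : ℝ) - ((a : ℕ) : ℝ) ≠ 0 := sub_ne_zero.mpr this
      simpa using ⟨h2, hyr⟩
    have I2 : ∀ a : Fin (l + 2), a ∈ L → a ≠ z →
        LinearIndepOn ℝ (lift x y) (({a, p, q} : Finset (Fin (l + 2))) : Set (Fin (l + 2))) := by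
      intro a ha haz
      rw [memL] at ha
      apply indep3 x y a p q (by rintro rfl; exact hp ha) (by rintro rfl; exact hq ha) hpq
      rw [xl a ha, yl a ha, xp p hp, xp q hq, yP, yQ]
      have := cne a z haz
      simp only [z, Nat.cast_zero] at this
      ring_nf
      simpa using this
    have D1 : ∀ a b c : Fin (l + 2), a ∈ L → b ∈ L → c ∈ L → a ≠ b → a ≠ c → b ≠ c →
        ¬ LinearIndepOn ℝ (lift x y) (({a, b, c} : Finset (Fin (l + 2))) : Set (Fin (l + 2))) := by
      intro a b c ha hb hc hab hac hbc
      rw [memL] at ha hb hc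
      apply dep3 x y a b c hab hac hbc
      rw [yl a ha, yl b hb, yl c hc]; ring
    have D2 : ¬ LinearIndepOn ℝ (lift x y) (({z, p, q} : Finset (Fin (l + 2))) : Set (Fin (l + 2))) := by
      have hz := zL
      rw [memL] at hz
      apply dep3 x y z p q (by rintro h; rw [h] at hz; exact hp hz) (by rintro h; rw [h] at hz; exact hq hz) hpq
      rw [xl z hz, xp p hp, xp q hq]; simp [z]
    have hsub : linCircs (lift x y) ⊆ (Finset.powersetCard 3 L ∪ {{z, p, q}}) ∪
        (Finset.powersetCard 2 (L.erase z)).image (fun s => insert p (insert q s)) := by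
      intro C hC
      rw [Finset.mem_union, Finset.mem_union, Finset.mem_singleton, Finset.mem_image]
      by_cases h3 : 3 ≤ (C ∩ L).card
      · -- three elements on the line
        obtain ⟨T, hT, hTc⟩ := Finset.exists_subset_card_eq h3
        obtain ⟨a, b, c, hab, hac, hbc, rfl⟩ := Finset.card_eq_three.mp hTc
        have hsubC : ({a, b, c} : Finset (Fin (l + 2))) ⊆ C := hT.trans Finset.inter_subset_left
        have hsubL : ({a, b, c} : Finset (Fin (l + 2))) ⊆ L := hT.trans Finset.inter_subset_right
        have hCe := circ_eq _ C _ hC hsubC (D1 a b c (hsubL (by simp)) (hsubL (by simp))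
          (hsubL (by simp)) hab hac hbc)
        left; left
        rw [Finset.mem_powersetCard]
        rw [hCe]
        exact ⟨hsubL, hTc⟩
      · by_cases h0 : z ∈ C ∧ p ∈ C ∧ q ∈ C
        · left; right
          apply circ_eq _ C _ hC _ D2
          intro i hi
          simp only [Finset.mem_insert, Finset.mem_singleton] at hi
          rcases hi with rfl | rfl | rfl
          · exact h0.1
          · exact h0.2.1
          · exact h0.2.2
        · -- at most two elements on the line
          by_cases hpqC : p ∈ C ∧ q ∈ C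
          · have hzC : z ∉ C := fun h => h0 ⟨h, hpqC.1, hpqC.2⟩
            by_cases h2 : (C ∩ L).card = 2
            · right
              refine ⟨C ∩ L, ?_, ?_⟩
              · rw [Finset.mem_powersetCard]
                refine ⟨?_, h2⟩
                intro i hi
                rw [Finset.mem_inter] at hi
                rw [Finset.mem_erase]
                exact ⟨by rintro rfl; exact hzC hi.1, hi.2⟩
              · ext i
                simp only [Finset.mem_insert, Finset.mem_inter, memL]
                constructor
                · rintro (rfl | rfl | h)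
                  · exact hpqC.1
                  · exact hpqC.2
                  · exact h.1
                · intro hi
                  rcases cases3 i with h | h | h
                  · exact Or.inr (Or.inr ⟨hi, h⟩)
                  · exact Or.inl h
                  · exact Or.inr (Or.inl h)
            · exfalso
              have h1 : (C ∩ L).card ≤ 1 := by omega
              have : ∃ a, a ∈ L ∧ a ≠ z ∧ C ∩ L ⊆ {a} := by
                rcases Nat.eq_zero_or_pos (C ∩ L).card with hz0 | hpos
                · refine ⟨o, oL, zo.symm, ?_⟩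
                  rw [Finset.card_eq_zero.mp hz0]; simp
                · obtain ⟨a, ha⟩ := Finset.card_eq_one.mp (le_antisymm h1 hpos)
                  have haC : a ∈ C ∩ L := by rw [ha]; simp
                  rw [Finset.mem_inter] at haC
                  refine ⟨a, haC.2, by rintro rfl; exact hzC haC.1, by rw [ha]⟩
              obtain ⟨a, haL, haz, hCa⟩ := this
              apply circ_dep _ C _ hC _ (I2 a haL haz)
              intro i hi
              simp only [Finset.mem_insert, Finset.mem_singleton]
              rcases cases3 i with h | h | h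
              · left
                have : i ∈ C ∩ L := by rw [Finset.mem_inter, memL]; exact ⟨hi, h⟩
                simpa using hCa this
              · exact Or.inr (Or.inl h)
              · exact Or.inr (Or.inr h)
          · exfalso
            -- C has at most one of p q
            have hr : ∃ r, (r = p ∨ r = q) ∧ ∀ i ∈ C, (i : ℕ) < l ∨ i = r := by
              by_cases hpC : p ∈ C
              · refine ⟨p, Or.inl rfl, ?_⟩
                intro i hi
                rcases cases3 i with h | h | h
                · exact Or.inl h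
                · exact Or.inr h
                · exact absurd ⟨hpC, h ▸ hi⟩ hpqC
              · refine ⟨q, Or.inr rfl, ?_⟩
                intro i hi
                rcases cases3 i with h | h | h
                · exact Or.inl h
                · exact absurd (h ▸ hi) hpC
                · exact Or.inr h
            obtain ⟨r, hr, hCr⟩ := hr
            have h2 : (C ∩ L).card ≤ 2 := by omega
            have : ∃ a b, a ∈ L ∧ b ∈ L ∧ a ≠ b ∧ C ∩ L ⊆ {a, b} := by
              obtain ⟨T, hT1, hT2, hT3⟩ := Finset.exists_subsuperset_card_eq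
                (Finset.inter_subset_right : C ∩ L ⊆ L) h2 (by rw [cardL]; exact hl)
              obtain ⟨a, b, hab, rfl⟩ := Finset.card_eq_two.mp hT3
              exact ⟨a, b, hT2 (by simp), hT2 (by simp), hab, hT1⟩
            obtain ⟨a, b, haL, hbL, hab, hCab⟩ := this
            apply circ_dep _ C _ hC _ (I1 a b r haL hbL hab hr)
            intro i hi
            simp only [Finset.mem_insert, Finset.mem_singleton]
            rcases hCr i hi with h | h
            · have : i ∈ C ∩ L := by rw [Finset.mem_inter, memL]; exact ⟨hi, h⟩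
              have := hCab this
              simp only [Finset.mem_insert, Finset.mem_singleton] at this
              rcases this with h | h
              · exact Or.inl h
              · exact Or.inr (Or.inl h)
            · exact Or.inr (Or.inr h)
    refine (Finset.card_le_card hsub).trans ?_
    refine (Finset.card_union_le _ _).trans ?_
    refine Nat.add_le_add ((Finset.card_union_le _ _).trans ?_) (Finset.card_image_le.trans ?_)
    · rw [Finset.card_powersetCard, cardL, Finset.card_singleton]
    · rw [Finset.card_powersetCard, Finset.card_erase_of_mem zL, cardL]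

/-- TARGET 2: the six intersection points of four lines in general position in the plane,
7 circuits: 4 collinear triples, 3 quadruples. -/
theorem real'_K4 : Real' 3 6 7 := by
  classical
  refine ⟨Fin 3 → ℝ, inferInstance, inferInstance, by simp, ?_⟩
  let x : Fin 6 → ℝ := ![0, 1, 2, 0, 0, 3]
  let y : Fin 6 → ℝ := ![0, 0, 0, 1, 4, -2]
  refine ⟨lift x y, LinearMap.proj 0, ?_, ?_, ?_⟩
  · intro i j hij
    have h1 : x i = x j := by simpa [lift] using congrFun hij 1
    have h2 : y i = y j := by simpa [lift] using congrFun hij 2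
    fin_cases i <;> fin_cases j <;> simp [x, y] at h1 h2 ⊢ <;> norm_num at h1 h2
  · intro i; simp [lift]
  · have key : ∀ C : Finset (Fin 6),
        (({0, 1, 2} : Finset (Fin 6)) ⊆ C ∨ ({0, 3, 4} : Finset (Fin 6)) ⊆ C ∨
          ({2, 4, 5} : Finset (Fin 6)) ⊆ C ∨ ({1, 3, 5} : Finset (Fin 6)) ⊆ C) ∨
        (∃ a b c : Fin 6, a < b ∧ b < c ∧ C ⊆ {a, b, c} ∧
          ({a, b, c} : Finset (Fin 6)) ≠ {0, 1, 2} ∧ ({a, b, c} : Finset (Fin 6)) ≠ {0, 3, 4} ∧
          ({a, b, c} : Finset (Fin 6)) ≠ {2, 4, 5} ∧ ({a, b, c} : Finset (Fin 6)) ≠ {1, 3, 5}) ∨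
        (({0, 1, 4, 5} : Finset (Fin 6)) ⊆ C ∨ ({0, 2, 3, 5} : Finset (Fin 6)) ⊆ C ∨
          ({1, 2, 3, 4} : Finset (Fin 6)) ⊆ C) := by
      decide +kernel
    have hI : ∀ a b c : Fin 6, a < b → b < c →
          ({a, b, c} : Finset (Fin 6)) ≠ {0, 1, 2} → ({a, b, c} : Finset (Fin 6)) ≠ {0, 3, 4} →
          ({a, b, c} : Finset (Fin 6)) ≠ {2, 4, 5} → ({a, b, c} : Finset (Fin 6)) ≠ {1, 3, 5} →
          LinearIndepOn ℝ (lift x y) (({a, b, c} : Finset (Fin 6)) : Set (Fin 6)) := by
      intro a b c hab hbc h1 h2 h3 h4
      apply indep3 x y a b c hab.ne (hab.trans hbc).ne hbc.ne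
      fin_cases a <;> fin_cases b <;> first | (exact absurd hab (by decide)) | skip
      all_goals fin_cases c <;> first | (exact absurd hbc (by decide)) | (exact absurd rfl h1) | (exact absurd rfl h2) | (exact absurd rfl h3) | (exact absurd rfl h4) | (simp [x, y]; try norm_num)
    have hsub : linCircs (lift x y) ⊆ ({{0, 1, 2}, {0, 3, 4}, {2, 4, 5}, {1, 3, 5},
        {0, 1, 4, 5}, {0, 2, 3, 5}, {1, 2, 3, 4}} : Finset (Finset (Fin 6))) := by
      intro C hC
      simp only [Finset.mem_insert, Finset.mem_singleton]
      rcases key C with (h | h | h | h) | ⟨a, b, c, hab, hbc, hC', h1, h2, h3, h4⟩ | (h | h | h)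
      · left
        exact circ_eq _ C _ hC h (dep3 x y 0 1 2 (by decide) (by decide) (by decide) (by simp [x, y]))
      · right; left
        exact circ_eq _ C _ hC h (dep3 x y 0 3 4 (by decide) (by decide) (by decide) (by simp [x, y]))
      · right; right; left
        exact circ_eq _ C _ hC h (dep3 x y 2 4 5 (by decide) (by decide) (by decide)
          (by simp [x, y]; norm_num))
      · right; right; right; left
        exact circ_eq _ C _ hC h (dep3 x y 1 3 5 (by decide) (by decide) (by decide)
          (by simp [x, y]; norm_num))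
      · exact (circ_dep _ C _ hC hC' (hI a b c hab hbc h1 h2 h3 h4)).elim
      · right; right; right; right; left
        exact circ_eq _ C _ hC h (dep4 _ _ (by decide))
      · right; right; right; right; right; left
        exact circ_eq _ C _ hC h (dep4 _ _ (by decide))
      · right; right; right; right; right; right
        exact circ_eq _ C _ hC h (dep4 _ _ (by decide))
    exact (Finset.card_le_card hsub).trans (by decide +kernel)

end Pool.Agent.Helper766.Rad.Config
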