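import Mathlib
import Pool.Agent.Helper766.Rad.Basic

set_option autoImplicit false

namespace Pool.Agent.Helper766.Rad

variable {ι : Type} [DecidableEq ι]

theorem mem_circs {M : RankFn ι} {E C : Finset ι} : C ∈ circs M E ↔ C ⊆ E ∧ IsCirc M C := by
  classical
  unfold circs
  rw [Finset.mem_filter, Finset.mem_powerset]

/-- Number of circuits in `E` through `x`. -/
noncomputable def cx (M : RankFn ι) (E : Finset ι) (x : ι) : ℕ :=
  ((circs M E).filter (fun C => x ∈ C)).card

/-- Number of circuits in `E` through `x` and `y`. -/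
noncomputable def cxy (M : RankFn ι) (E : Finset ι) (x y : ι) : ℕ :=
  ((circs M E).filter (fun C => x ∈ C ∧ y ∈ C)).card

theorem cx_del (M : RankFn ι) (E : Finset ι) (x z : ι) :
    cx M E x = cx M (E.erase z) x + cxy M E x z := by
  unfold cx cxy
  rw [← Finset.card_union_of_disjoint]
  · congr 1
    ext C
    simp only [Finset.mem_filter, Finset.mem_union, mem_circs, Finset.subset_erase]
    tauto
  · rw [Finset.disjoint_left]
    intro C hC hC'
    simp only [Finset.mem_filter, mem_circs, Finset.subset_erase] at hC hC'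
    tauto

theorem card_circs_del (M : RankFn ι) (E : Finset ι) (x : ι) :
    (circs M E).card = (circs M (E.erase x)).card + cx M E x := by
  unfold cx
  rw [← Finset.card_union_of_disjoint]
  · congr 1
    ext C
    simp only [Finset.mem_filter, Finset.mem_union, mem_circs, Finset.subset_erase]
    tauto
  · rw [Finset.disjoint_left]
    intro C hC hC'
    simp only [Finset.mem_filter, mem_circs, Finset.subset_erase] at hC hC'
    tauto

theorem cx_mono (M : RankFn ι) {E F : Finset ι} (h : E ⊆ F) (x : ι) : cx M E x ≤ cx M F x := by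
  unfold cx
  apply Finset.card_le_card
  intro C hC
  simp only [Finset.mem_filter, mem_circs] at hC ⊢
  exact ⟨⟨hC.1.1.trans h, hC.1.2⟩, hC.2⟩

theorem Conn.exists_circ {M : RankFn ι} {E : Finset ι} (h : Conn M E) {x y : ι} (hx : x ∈ E)
    (hy : y ∈ E) (hxy : x ≠ y) : ∃ C, IsCirc M C ∧ C ⊆ E ∧ x ∈ C ∧ y ∈ C := by
  generalize hn : E.card = n
  induction n using Nat.strong_induction_on generalizing M E with
  | _ n ih =>
  have hc : 2 ≤ E.card := by
    have : ({x, y} : Finset ι) ⊆ E := by
      intro z hz
      simp only [Finset.mem_insert, Finset.mem_singleton] at hz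
      rcases hz with rfl | rfl <;> assumption
    have h1 := Finset.card_le_card this
    rwa [Finset.card_pair hxy] at h1
  by_cases hE : E = {x, y}
  · refine ⟨E, ⟨?_, ?_⟩, Finset.Subset.refl E, hx, hy⟩
    · have h1 := h {x} (by simpa using hx) (by simp) (by
        intro hh
        rw [← hh] at hc
        simp at hc)
      have h2 : E \ {x} = {y} := by
        rw [hE]
        ext z
        simp only [Finset.mem_sdiff, Finset.mem_insert, Finset.mem_singleton]
        constructor
        · rintro ⟨h1 | h1, h2⟩
          · exact absurd h1 h2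
          · exact h1
        · rintro rfl
          exact ⟨Or.inr rfl, fun hh => hxy hh.symm⟩
      rw [h2, (h.nl hc hx).1, (h.nl hc hy).1] at h1
      omega
    · intro e he
      have h3 := (h.nl hc he)
      rw [hE] at he ⊢
      have h4 : (({x, y} : Finset ι).erase e).card = 1 := by
        rw [Finset.card_erase_of_mem he, Finset.card_pair hxy]
      obtain ⟨w, hw⟩ := Finset.card_eq_one.mp h4
      rw [hw, Finset.card_singleton]
      have hwE : w ∈ E := by
        have : w ∈ ({x, y} : Finset ι).erase e := by rw [hw]; simp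
        rw [hE]
        exact Finset.mem_of_mem_erase this
      exact (h.nl hc hwE).1
  · obtain ⟨z, hz, hzx, hzy⟩ : ∃ z ∈ E, z ≠ x ∧ z ≠ y := by
      by_contra hcon
      push Not at hcon
      apply hE
      ext z
      simp only [Finset.mem_insert, Finset.mem_singleton]
      constructor
      · intro hz
        by_cases hzx : z = x
        · exact Or.inl hzx
        · exact Or.inr (hcon z hz hzx)
      · rintro (rfl | rfl) <;> assumption
    have hcard := Finset.card_erase_lt_of_mem hz
    rcases h.del_or_con hc hz with hd | hd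
    · obtain ⟨C, h1, h2, h3, h4⟩ := ih _ (hn ▸ hcard) hd (Finset.mem_erase.mpr ⟨hzx.symm, hx⟩)
        (Finset.mem_erase.mpr ⟨hzy.symm, hy⟩) rfl
      exact ⟨C, h1, h2.trans (Finset.erase_subset z E), h3, h4⟩
    · obtain ⟨C, h1, h2, h3, h4⟩ := ih _ (hn ▸ hcard) hd (Finset.mem_erase.mpr ⟨hzx.symm, hx⟩)
        (Finset.mem_erase.mpr ⟨hzy.symm, hy⟩) rfl
      have hzC : z ∉ C := fun hh => (Finset.mem_erase.mp (h2 hh)).1 rfl
      have hCE := h2.trans (Finset.erase_subset z E)
      rcases circ_of_con M (h.nl hc hz).1 hzC h1 with h5 | h5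
      · exact ⟨C, h5, hCE, h3, h4⟩
      · exact ⟨insert z C, h5, Finset.insert_subset hz hCE, Finset.mem_insert_of_mem h3,
          Finset.mem_insert_of_mem h4⟩

/-- Parallel connection pieces are connected. -/
theorem Conn.piece {M : RankFn ι} {E : Finset ι} (h : Conn M E) (h2 : 2 ≤ E.card) {y : ι}
    (hy : y ∈ E) {A B : Finset ι} (hAB : A ∪ B = E.erase y) (hd : Disjoint A B)
    (hB : B.Nonempty) (hr : M.r (insert y A) + M.r (insert y B) ≤ M.r E + 1) :
    Conn M (insert y A) := by
  have hAE : A ⊆ E.erase y := hAB ▸ Finset.subset_union_left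
  have hBE : B ⊆ E.erase y := hAB ▸ Finset.subset_union_right
  have hyA : y ∉ A := fun hh => (Finset.mem_erase.mp (hAE hh)).1 rfl
  have hyB : y ∉ B := fun hh => (Finset.mem_erase.mp (hBE hh)).1 rfl
  have hy1 := (h.nl h2 hy).1
  -- main step
  have key : ∀ P Q : Finset ι, P ∪ Q = insert y A → Disjoint P Q → y ∈ P → Q.Nonempty →
      M.r (insert y A) < M.r P + M.r Q := by
    intro P Q hPQ hPQd hyP hQn
    by_contra hcon
    push Not at hcon
    have hyQ : y ∉ Q := fun hh => Finset.disjoint_left.mp hPQd hyP hh
    have hQA : Q ⊆ A := by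
      intro w hw
      have : w ∈ insert y A := hPQ ▸ Finset.mem_union_right _ hw
      rcases Finset.mem_insert.mp this with rfl | h
      · exact absurd hw hyQ
      · exact h
    have h3 := h Q ((hQA.trans hAE).trans (Finset.erase_subset y E)) hQn
      (fun hh => hyQ (hh ▸ hy))
    have h4 : E \ Q = P ∪ insert y B := by
      ext w
      rw [Finset.mem_sdiff, Finset.mem_union, Finset.mem_insert]
      have a1 : w ∈ A ∨ w ∈ B ↔ w ≠ y ∧ w ∈ E := by
        rw [← Finset.mem_union, hAB, Finset.mem_erase]
      have a2 : w ∈ P ∨ w ∈ Q ↔ w = y ∨ w ∈ A := by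
        rw [← Finset.mem_union, hPQ, Finset.mem_insert]
      have d1 : w ∈ A → w ∉ B := fun h => Finset.disjoint_left.mp hd h
      have d2 : w ∈ P → w ∉ Q := fun h => Finset.disjoint_left.mp hPQd h
      constructor
      · rintro ⟨hE, hn⟩
        by_cases hwy : w = y
        · exact Or.inr (Or.inl hwy)
        · rcases a1.mpr ⟨hwy, hE⟩ with h | h
          · rcases a2.mpr (Or.inr h) with h' | h'
            · exact Or.inl h'
            · exact absurd h' hn
          · exact Or.inr (Or.inr h)
      · rintro (h | h | h)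
        · refine ⟨?_, d2 h⟩
          rcases a2.mp (Or.inl h) with h' | h'
          · rw [h']; exact hy
          · exact (a1.mp (Or.inl h')).2
        · subst h
          exact ⟨hy, hyQ⟩
        · exact ⟨(a1.mp (Or.inr h)).2, fun hh => d1 (hQA hh) h⟩
    rw [h4] at h3
    have h5 := M.submod P (insert y B)
    have h6 : M.r {y} ≤ M.r (P ∩ insert y B) := M.mono' (by
      intro w hw
      rw [Finset.mem_singleton] at hw
      subst hw
      exact Finset.mem_inter.mpr ⟨hyP, Finset.mem_insert_self _ _⟩)
    omega
  intro P hP hPn hPne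
  have hQn : (insert y A \ P).Nonempty := by
    rw [Finset.sdiff_nonempty]
    intro hh
    exact hPne (Finset.Subset.antisymm hP hh)
  by_cases hyP : y ∈ P
  · exact key P _ (Finset.union_sdiff_of_subset hP) Finset.disjoint_sdiff hyP hQn
  · have := key (insert y A \ P) P (by rw [Finset.union_comm]; exact Finset.union_sdiff_of_subset hP)
      Finset.disjoint_sdiff.symm (Finset.mem_sdiff.mpr ⟨Finset.mem_insert_self _ _, hyP⟩) hPn
    omega

theorem mod_sub (M : RankFn ι) {X Y A : Finset ι} {k : ℕ} (h : M.r X + M.r Y ≤ M.r (X ∪ Y) + k)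
    (hA : A ⊆ X) : M.r A + M.r Y ≤ M.r (A ∪ Y) + k := by
  have h1 := M.submod X (A ∪ Y)
  have h2 : M.r (X ∪ Y) ≤ M.r (X ∪ (A ∪ Y)) := M.mono' (by
    intro w hw
    simp only [Finset.mem_union] at hw ⊢
    tauto)
  have h3 : M.r A ≤ M.r (X ∩ (A ∪ Y)) := M.mono' (by
    intro w hw
    simp only [Finset.mem_union, Finset.mem_inter]
    exact ⟨hA hw, Or.inl hw⟩)
  omega

theorem mod_sub2 (M : RankFn ι) {X Y A B : Finset ι} {k : ℕ}
    (h : M.r X + M.r Y ≤ M.r (X ∪ Y) + k) (hA : A ⊆ X) (hB : B ⊆ Y) :
    M.r A + M.r B ≤ M.r (A ∪ B) + k := by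
  have h1 := mod_sub M h hA
  rw [Finset.union_comm, add_comm (M.r A)] at h1
  have h2 := mod_sub M h1 hB
  rw [Finset.union_comm, add_comm (M.r A)]
  exact h2

/-- Gluing circuits along `y`. -/
theorem glue_circ {M : RankFn ι} {X Y : Finset ι} {y : ι} (hXY : X ∩ Y = {y})
    (hr : M.r X + M.r Y ≤ M.r (X ∪ Y) + 1) (hy1 : M.r {y} = 1) {C D : Finset ι}
    (hC : IsCirc M C) (hD : IsCirc M D) (hCX : C ⊆ X) (hDY : D ⊆ Y) (hyC : y ∈ C) (hyD : y ∈ D) :
    IsCirc M ((C ∪ D).erase y) := by
  have hyCD : y ∈ C ∪ D := Finset.mem_union_left _ hyC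
  have hint : C ∩ D = {y} := by
    apply Finset.Subset.antisymm
    · rw [← hXY]
      exact Finset.inter_subset_inter hCX hDY
    · intro w hw
      rw [Finset.mem_singleton] at hw
      subst hw
      exact Finset.mem_inter.mpr ⟨hyC, hyD⟩
  have hcard : (C ∪ D).card + 1 = C.card + D.card := by
    have := Finset.card_union_add_card_inter C D
    rw [hint, Finset.card_singleton] at this
    exact this
  have hS := Finset.card_erase_add_one hyCD
  have c1 := hC.r_add_one
  have c2 := hD.r_add_one
  have hsub := M.submod C D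
  rw [hint, hy1] at hsub
  refine ⟨?_, ?_⟩
  · have := M.mono' (Finset.erase_subset y (C ∪ D))
    omega
  · -- symmetric step
    have key : ∀ C D X Y : Finset ι, IsCirc M C → IsCirc M D → C ⊆ X → D ⊆ Y → y ∈ C → y ∈ D →
        M.r X + M.r Y ≤ M.r (X ∪ Y) + 1 → C ∩ D = {y} → ∀ e ∈ C, e ≠ y →
        (((C ∪ D).erase y).erase e).card ≤ M.r (((C ∪ D).erase y).erase e) := by
      intro C D X Y hC hD hCX hDY hyC hyD hr hint e heC hey
      have heD : e ∉ D := by
        intro hh
        have : e ∈ C ∩ D := Finset.mem_inter.mpr ⟨heC, hh⟩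
        rw [hint, Finset.mem_singleton] at this
        exact hey this
      have h1 : D.erase y ⊆ ((C ∪ D).erase y).erase e := by
        intro w hw
        rw [Finset.mem_erase] at hw
        rw [Finset.mem_erase, Finset.mem_erase]
        exact ⟨fun hh => heD (hh ▸ hw.2), hw.1, Finset.mem_union_right _ hw.2⟩
      have h2 := cl_mono M (hD.cl hyD) h1
      have h3 : insert y (((C ∪ D).erase y).erase e) = C.erase e ∪ D := by
        ext w
        simp only [Finset.mem_insert, Finset.mem_erase, Finset.mem_union]
        constructor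
        · rintro (rfl | ⟨h1, h2, h3⟩)
          · exact Or.inr hyD
          · rcases h3 with h3 | h3
            · exact Or.inl ⟨h1, h3⟩
            · exact Or.inr h3
        · intro hh
          by_cases hwy : w = y
          · exact Or.inl hwy
          · rcases hh with h | h
            · exact Or.inr ⟨h.1, hwy, Or.inl h.2⟩
            · exact Or.inr ⟨fun hh => heD (hh ▸ h), hwy, Or.inr h⟩
      rw [h3] at h2
      have h4 := mod_sub2 M hr ((Finset.erase_subset e C).trans hCX) hDY
      have h5 := hC.2 e heC
      have h6 := hD.r_add_one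
      have h7 := Finset.card_erase_add_one heC
      have hcard : (C ∪ D).card + 1 = C.card + D.card := by
        have := Finset.card_union_add_card_inter C D
        rw [hint, Finset.card_singleton] at this
        exact this
      have hyCD : y ∈ C ∪ D := Finset.mem_union_left _ hyC
      have hS := Finset.card_erase_add_one hyCD
      have he : e ∈ (C ∪ D).erase y := Finset.mem_erase.mpr ⟨hey, Finset.mem_union_left _ heC⟩
      have hS2 := Finset.card_erase_add_one he
      omega
    intro e he
    rw [Finset.mem_erase, Finset.mem_union] at he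
    apply le_antisymm (r_le_card M _)
    rcases he.2 with h | h
    · exact key C D X Y hC hD hCX hDY hyC hyD hr hint e h he.1
    · have := key D C Y X hD hC hDY hCX hyD hyC (by rw [Finset.union_comm, add_comm]; exact hr)
        (by rw [Finset.inter_comm]; exact hint) e h he.1
      rwa [Finset.union_comm D C] at this

theorem cx_split_self {M : RankFn ι} {E : Finset ι} {y : ι} (hy : y ∈ E) (hy1 : M.r {y} = 1)
    {A B : Finset ι} (hAB : A ∪ B = E.erase y) (hd : Disjoint A B) :
    cx M (insert y A) y + cx M (insert y B) y ≤ cx M E y := by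
  unfold cx
  rw [← Finset.card_union_of_disjoint]
  · apply Finset.card_le_card
    have hA : insert y A ⊆ E := Finset.insert_subset hy
      ((hAB ▸ Finset.subset_union_left : A ⊆ E.erase y).trans (Finset.erase_subset y E))
    have hB : insert y B ⊆ E := Finset.insert_subset hy
      ((hAB ▸ Finset.subset_union_right : B ⊆ E.erase y).trans (Finset.erase_subset y E))
    intro C hC
    simp only [Finset.mem_union, Finset.mem_filter, mem_circs] at hC ⊢
    rcases hC with h | h
    · exact ⟨⟨h.1.1.trans hA, h.1.2⟩, h.2⟩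
    · exact ⟨⟨h.1.1.trans hB, h.1.2⟩, h.2⟩
  · rw [Finset.disjoint_left]
    intro C hC hC'
    simp only [Finset.mem_filter, mem_circs] at hC hC'
    have : C ⊆ {y} := by
      intro w hw
      rw [Finset.mem_singleton]
      by_contra hwy
      have h1 := (Finset.mem_insert.mp (hC.1.1 hw)).resolve_left hwy
      have h2 := (Finset.mem_insert.mp (hC'.1.1 hw)).resolve_left hwy
      exact Finset.disjoint_left.mp hd h1 h2
    have h3 := hC.1.2.1
    have h4 : C = {y} := Finset.Subset.antisymm this (by simpa using hC.2)
    rw [h4, hy1] at h3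
    simp at h3

theorem cx_split {M : RankFn ι} {E : Finset ι} (h : Conn M E) (h2 : 2 ≤ E.card) {y : ι}
    (hy : y ∈ E) {A B : Finset ι} (hAB : A ∪ B = E.erase y) (hd : Disjoint A B)
    (hB : B.Nonempty) (hr : M.r (insert y A) + M.r (insert y B) ≤ M.r E + 1)
    {x : ι} (hx : x ∈ A) :
    cx M (insert y A) x + cx M (insert y B) y ≤ cx M E x := by
  have hAE : A ⊆ E.erase y := hAB ▸ Finset.subset_union_left
  have hBE : B ⊆ E.erase y := hAB ▸ Finset.subset_union_right
  have hyA : y ∉ A := fun hh => (Finset.mem_erase.mp (hAE hh)).1 rfl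
  have hyB : y ∉ B := fun hh => (Finset.mem_erase.mp (hBE hh)).1 rfl
  have hy1 := (h.nl h2 hy).1
  have hcA := h.piece h2 hy hAB hd hB hr
  have hxy : x ≠ y := fun hh => hyA (hh ▸ hx)
  obtain ⟨C, hC, hCA, hxC, hyC⟩ := hcA.exists_circ (Finset.mem_insert_of_mem hx)
    (Finset.mem_insert_self y A) hxy
  have hXY : insert y A ∩ insert y B = {y} := by
    ext w
    simp only [Finset.mem_inter, Finset.mem_insert, Finset.mem_singleton]
    constructor
    · rintro ⟨h1 | h1, h2 | h2⟩
      · exact h1
      · exact h1
      · exact h2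
      · exact absurd h2 (Finset.disjoint_left.mp hd h1)
    · intro h
      exact ⟨Or.inl h, Or.inl h⟩
  have hU : insert y A ∪ insert y B = E := by
    rw [← Finset.insert_union_distrib, hAB, Finset.insert_erase hy]
  have hr' : M.r (insert y A) + M.r (insert y B) ≤ M.r (insert y A ∪ insert y B) + 1 := by
    rw [hU]; exact hr
  have hA' : insert y A ⊆ E := by rw [← hU]; exact Finset.subset_union_left
  have hB' : insert y B ⊆ E := by rw [← hU]; exact Finset.subset_union_right
  set F1 := (circs M (insert y A)).filter (fun C => x ∈ C)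
  set F2 := (circs M (insert y B)).filter (fun C => y ∈ C)
  set F := (circs M E).filter (fun C => x ∈ C)
  change F1.card + F2.card ≤ F.card
  set g : Finset ι → Finset ι := fun D => (C ∪ D).erase y
  have hginj : ∀ D ∈ F2, ∀ D' ∈ F2, g D = g D' → D = D' := by
    have hrec : ∀ D ∈ F2, D = insert y (g D ∩ B) := by
      intro D hD
      simp only [F2, Finset.mem_filter, mem_circs] at hD
      ext w
      simp only [g, Finset.mem_insert, Finset.mem_inter, Finset.mem_erase, Finset.mem_union]
      constructor
      · intro hw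
        by_cases hwy : w = y
        · exact Or.inl hwy
        · exact Or.inr ⟨⟨hwy, Or.inr hw⟩, (Finset.mem_insert.mp (hD.1.1 hw)).resolve_left hwy⟩
      · rintro (rfl | ⟨⟨h1, h2⟩, h3⟩)
        · exact hD.2
        · rcases h2 with h2 | h2
          · have := (Finset.mem_insert.mp (hCA h2)).resolve_left h1
            exact absurd h3 (Finset.disjoint_left.mp hd this)
          · exact h2
    intro D hD D' hD' heq
    rw [hrec D hD, hrec D' hD', heq]
  rw [← Finset.card_image_of_injOn (s := F2) (f := g) (by
    intro D hD D' hD' heq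
    exact hginj D hD D' hD' heq)]
  rw [← Finset.card_union_of_disjoint]
  · apply Finset.card_le_card
    intro D hD
    rw [Finset.mem_union, Finset.mem_image] at hD
    rcases hD with hD | ⟨D', hD', rfl⟩
    · simp only [F1, F, Finset.mem_filter, mem_circs] at hD ⊢
      exact ⟨⟨hD.1.1.trans hA', hD.1.2⟩, hD.2⟩
    · simp only [F2, F, Finset.mem_filter, mem_circs] at hD' ⊢
      refine ⟨⟨?_, glue_circ hXY hr' hy1 hC hD'.1.2 hCA hD'.1.1 hyC hD'.2⟩, ?_⟩
      · exact (Finset.erase_subset _ _).trans
          (Finset.union_subset (hCA.trans hA') (hD'.1.1.trans hB'))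
      · exact Finset.mem_erase.mpr ⟨hxy, Finset.mem_union_left _ hxC⟩
  · rw [Finset.disjoint_left]
    intro D hD hD'
    rw [Finset.mem_image] at hD'
    obtain ⟨D', hD', rfl⟩ := hD'
    simp only [F1, F2, Finset.mem_filter, mem_circs] at hD hD'
    -- D' has an element other than y
    obtain ⟨w, hw, hwy⟩ : ∃ w ∈ D', w ≠ y := by
      by_contra hcon
      push Not at hcon
      have h4 : D' = {y} := by
        ext w
        rw [Finset.mem_singleton]
        exact ⟨fun hw => hcon w hw, fun hw => hw ▸ hD'.2⟩
      have h3 := hD'.1.2.1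
      rw [h4, hy1] at h3
      simp at h3
    have h5 : w ∈ g D' := Finset.mem_erase.mpr ⟨hwy, Finset.mem_union_right _ hw⟩
    have h6 := (Finset.mem_insert.mp (hD.1.1 h5)).resolve_left hwy
    have h7 := (Finset.mem_insert.mp (hD'.1.1 hw)).resolve_left hwy
    exact Finset.disjoint_left.mp hd h6 h7

open Classical in
/-- Lifting circuits from a contraction. -/
noncomputable def lift (M : RankFn ι) (y : ι) (D : Finset ι) : Finset ι :=
  if IsCirc M D then D else insert y D

theorem lift_circ {M : RankFn ι} {y : ι} (hy : M.r {y} = 1) {D : Finset ι} (hD : y ∉ D)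
    (h : IsCirc (con M y) D) : IsCirc M (lift M y D) := by
  unfold lift
  split_ifs with h1
  · exact h1
  · exact (circ_of_con M hy hD h).resolve_left h1

theorem subset_lift (M : RankFn ι) (y : ι) (D : Finset ι) : D ⊆ lift M y D := by
  unfold lift
  split_ifs
  · exact Finset.Subset.refl D
  · exact Finset.subset_insert y D

theorem lift_subset (M : RankFn ι) (y : ι) (D : Finset ι) : lift M y D ⊆ insert y D := by
  unfold lift
  split_ifs
  · exact Finset.subset_insert y D
  · exact Finset.Subset.refl _

theorem lift_erase (M : RankFn ι) (y : ι) {D : Finset ι} (hD : y ∉ D) :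
    (lift M y D).erase y = D := by
  unfold lift
  split_ifs
  · exact Finset.erase_eq_of_notMem hD
  · exact Finset.erase_insert hD

theorem cx_con_le {M : RankFn ι} {E : Finset ι} {y : ι} (hy : y ∈ E) (hy1 : M.r {y} = 1) (x : ι) :
    cx (con M y) (E.erase y) x ≤ cx M E x := by
  unfold cx
  apply Finset.card_le_card_of_injOn (fun D => lift M y D)
  · intro D hD
    simp only [Finset.coe_filter, Set.mem_setOf_eq, mem_circs] at hD ⊢
    have hyD : y ∉ D := fun hh => (Finset.mem_erase.mp (hD.1.1 hh)).1 rfl
    exact ⟨⟨(lift_subset M y D).trans (Finset.insert_subset hy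
      (hD.1.1.trans (Finset.erase_subset y E))), lift_circ hy1 hyD hD.1.2⟩,
      subset_lift M y D hD.2⟩
  · intro D hD D' hD' heq
    simp only [Finset.coe_filter, Set.mem_setOf_eq, mem_circs] at hD hD'
    have hyD : y ∉ D := fun hh => (Finset.mem_erase.mp (hD.1.1 hh)).1 rfl
    have hyD' : y ∉ D' := fun hh => (Finset.mem_erase.mp (hD'.1.1 hh)).1 rfl
    rw [← lift_erase M y hyD, ← lift_erase M y hyD']
    exact congrArg (fun T => Finset.erase T y) heq

/-- In a connected matroid every element is in at least `nullity` circuits. -/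
theorem Conn.nullity_le {M : RankFn ι} {E : Finset ι} (h : Conn M E) {x : ι} (hx : x ∈ E) :
    E.card ≤ M.r E + cx M E x := by
  generalize hn : E.card = n
  induction n using Nat.strong_induction_on generalizing M E with
  | _ n ih =>
  by_cases hc : 2 ≤ E.card
  · obtain ⟨z, hz, hzx⟩ : ∃ z ∈ E, z ≠ x := by
      by_contra hcon
      push Not at hcon
      have : E ⊆ {x} := fun z hz => by rw [Finset.mem_singleton]; exact hcon z hz
      have := Finset.card_le_card this
      simp at this
      omega
    have hcard := Finset.card_erase_lt_of_mem hz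
    have hce := Finset.card_erase_add_one hz
    have hxz : x ∈ E.erase z := Finset.mem_erase.mpr ⟨hzx.symm, hx⟩
    obtain ⟨hz1, hz2⟩ := h.nl hc hz
    rcases h.del_or_con hc hz with hd | hd
    · have h1 := ih _ (hn ▸ hcard) hd hxz rfl
      rw [hz2] at h1
      have h2 := cx_del M E x z
      have h3 : 1 ≤ cxy M E x z := by
        obtain ⟨C, c1, c2, c3, c4⟩ := h.exists_circ hx hz hzx.symm
        unfold cxy
        rw [Nat.one_le_iff_ne_zero, ← Nat.pos_iff_ne_zero, Finset.card_pos]
        exact ⟨C, by simp only [Finset.mem_filter, mem_circs]; exact ⟨⟨c2, c1⟩, c3, c4⟩⟩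
      omega
    · have h1 := ih _ (hn ▸ hcard) hd hxz rfl
      have h2 := cx_con_le hz hz1 x (M := M)
      have h3 := con_r M hz1 (E.erase z)
      rw [Finset.insert_erase hz] at h3
      omega
  · have hE : E = {x} := by
      apply Finset.eq_singleton_iff_unique_mem.mpr
      refine ⟨hx, fun z hz => ?_⟩
      by_contra hzx
      apply hc
      have : ({z, x} : Finset ι) ⊆ E := by
        intro w hw
        simp only [Finset.mem_insert, Finset.mem_singleton] at hw
        rcases hw with rfl | rfl <;> assumption
      have h1 := Finset.card_le_card this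
      rwa [Finset.card_pair hzx] at h1
    subst hE
    rw [Finset.card_singleton] at hn
    subst hn
    have h1 := r_singleton_le M x
    rcases Nat.eq_zero_or_pos (M.r {x}) with h0 | h0
    · have : 1 ≤ cx M {x} x := by
        unfold cx
        rw [Nat.one_le_iff_ne_zero, ← Nat.pos_iff_ne_zero, Finset.card_pos]
        refine ⟨{x}, ?_⟩
        simp only [Finset.mem_filter, mem_circs]
        refine ⟨⟨Finset.Subset.refl _, ⟨by rw [h0]; simp, ?_⟩⟩, by simp⟩
        intro e he
        rw [Finset.mem_singleton] at he
        subst he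
        simp [M.empty]
      omega
    · omega

end Pool.Agent.Helper766.Rad
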