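import Mathlib
import Pool.Agent.Helper766.Rad.Defs

set_option autoImplicit false

namespace Pool.Agent.Helper766.Rad.Dict

open Pool.Agent.Helper766.Rad

/-- Affine dependences supported on `S`. -/
def Dep {d : ℕ} (S : Finset (Fin d → ℝ)) (w : (Fin d → ℝ) → ℝ) : Prop :=
  (∀ p, p ∉ S → w p = 0) ∧ ∑ p ∈ S, w p = 0 ∧ ∑ p ∈ S, w p • p = 0

lemma Dep.mono {d : ℕ} {S T : Finset (Fin d → ℝ)} {w : (Fin d → ℝ) → ℝ} (hw : Dep S w)
    (h : S ⊆ T) : Dep T w := by
  refine ⟨fun p hp => hw.1 p (fun h' => hp (h h')), ?_, ?_⟩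
  · rw [← hw.2.1]; symm; apply Finset.sum_subset h; intro x _ hx; exact hw.1 x hx
  · rw [← hw.2.2]; symm; apply Finset.sum_subset h; intro x _ hx; rw [hw.1 x hx, zero_smul]

lemma Dep.restrict {d : ℕ} {S T : Finset (Fin d → ℝ)} {w : (Fin d → ℝ) → ℝ} (hw : Dep S w)
    (h : T ⊆ S) (hT : ∀ p, p ∉ T → w p = 0) : Dep T w := by
  refine ⟨hT, ?_, ?_⟩
  · rw [← hw.2.1]; apply Finset.sum_subset h; intro x _ hx; exact hT x hx
  · rw [← hw.2.2]; apply Finset.sum_subset h; intro x _ hx; rw [hT x hx, zero_smul]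

lemma Dep.comb {d : ℕ} {S : Finset (Fin d → ℝ)} {w g : (Fin d → ℝ) → ℝ} (hw : Dep S w)
    (hg : Dep S g) (t : ℝ) : Dep S (fun p => w p - t * g p) := by
  refine ⟨fun p hp => by simp [hw.1 p hp, hg.1 p hp], ?_, ?_⟩
  · rw [Finset.sum_sub_distrib, ← Finset.mul_sum, hw.2.1, hg.2.1]; simp
  · have : ∀ p ∈ S, (w p - t * g p) • p = w p • p - t • (g p • p) := by
      intro p _; rw [sub_smul, mul_smul]
    rw [Finset.sum_congr rfl this, Finset.sum_sub_distrib, ← Finset.smul_sum, hw.2.2, hg.2.2]
    simp

lemma indep_iff {d : ℕ} (D : Finset (Fin d → ℝ)) :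
    AffineIndependent ℝ ((↑) : D → (Fin d → ℝ)) ↔ ∀ w, Dep D w → ∀ p, w p = 0 := by
  rw [affineIndependent_iff_of_fintype]
  constructor
  · intro h w hw p
    by_cases hp : p ∈ D
    · have h1 : ∑ i : D, w i = 0 := by
        rw [Finset.sum_coe_sort D w]; exact hw.2.1
      have h2 := h (fun i => w i) h1 (by
        rw [Finset.weightedVSub_eq_linear_combination _ h1]
        rw [Finset.sum_coe_sort D (fun p => w p • p)]; exact hw.2.2)
      exact h2 ⟨p, hp⟩
    · exact hw.1 p hp
  · intro h w hw0 hw1 i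
    rw [Finset.weightedVSub_eq_linear_combination _ hw0] at hw1
    classical
    set w' : (Fin d → ℝ) → ℝ := fun p => if hp : p ∈ D then w ⟨p, hp⟩ else 0 with hw'
    have hval : ∀ i : D, w' i = w i := by
      intro i
      simp [hw']
    have hD : Dep D w' := by
      refine ⟨fun p hp => by simp [hw', hp], ?_, ?_⟩
      · rw [← Finset.sum_coe_sort D w', ← hw0]
        exact Finset.sum_congr rfl (fun i _ => hval i)
      · rw [← Finset.sum_coe_sort D (fun p => w' p • p), ← hw1]
        exact Finset.sum_congr rfl (fun i _ => by rw [hval i])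
    rw [← hval i]
    exact h w' hD i

/-- A pair with a Radon partition gives a dependence. -/
lemma exists_dep {d : ℕ} {A B : Finset (Fin d → ℝ)} (hAB : Disjoint A B)
    (hne : (convexHull ℝ (A : Set (Fin d → ℝ)) ∩ convexHull ℝ (B : Set (Fin d → ℝ))).Nonempty) :
    ∃ w : (Fin d → ℝ) → ℝ, Dep (A ∪ B) w ∧ (∃ p, w p ≠ 0) ∧ (∀ p, 0 < w p → p ∈ A) ∧
      (∀ p, w p < 0 → p ∈ B) := by
  classical
  obtain ⟨x, hxA, hxB⟩ := hne
  rw [Finset.mem_convexHull'] at hxA hxB
  obtain ⟨u, hu0, hu1, hux⟩ := hxA
  obtain ⟨v, hv0, hv1, hvx⟩ := hxB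
  have hd := Finset.disjoint_left.mp hAB
  set w : (Fin d → ℝ) → ℝ := fun p => if p ∈ A then u p else if p ∈ B then - v p else 0 with hw
  have hwA : ∀ p ∈ A, w p = u p := fun p hp => by simp [hw, hp]
  have hwB : ∀ p ∈ B, w p = - v p := fun p hp => by
    have : p ∉ A := fun h => hd h hp
    simp [hw, hp, this]
  refine ⟨w, ⟨?_, ?_, ?_⟩, ?_, ?_, ?_⟩
  · intro p hp
    rw [Finset.mem_union, not_or] at hp
    simp [hw, hp.1, hp.2]
  · rw [Finset.sum_union hAB, Finset.sum_congr rfl hwA, Finset.sum_congr rfl hwB, hu1,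
      Finset.sum_neg_distrib, hv1]
    simp
  · rw [Finset.sum_union hAB, Finset.sum_congr rfl (fun p hp => by rw [hwA p hp]),
      Finset.sum_congr (s₁ := B) rfl (fun p hp => by rw [hwB p hp, neg_smul]), hux,
      Finset.sum_neg_distrib, hvx]
    simp
  · by_contra hcon
    push Not at hcon
    have : ∑ y ∈ A, u y = 0 := by
      rw [← Finset.sum_congr rfl hwA]
      exact Finset.sum_eq_zero (fun p _ => hcon p)
    rw [hu1] at this
    exact one_ne_zero this
  · intro p hp
    by_contra hpA
    by_cases hpB : p ∈ B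
    · rw [hwB p hpB] at hp
      have := hv0 p hpB
      linarith
    · simp [hw, hpA, hpB] at hp
  · intro p hp
    by_contra hpB
    by_cases hpA : p ∈ A
    · rw [hwA p hpA] at hp
      have := hu0 p hpA
      linarith
    · simp [hw, hpA, hpB] at hp

/-- Positive part support. -/
noncomputable def pos {d : ℕ} (S : Finset (Fin d → ℝ)) (w : (Fin d → ℝ) → ℝ) :
    Finset (Fin d → ℝ) := S.filter (fun p => 0 < w p)

/-- Negative part support. -/
noncomputable def neg {d : ℕ} (S : Finset (Fin d → ℝ)) (w : (Fin d → ℝ) → ℝ) :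
    Finset (Fin d → ℝ) := S.filter (fun p => w p < 0)

lemma Dep.mem_pos {d : ℕ} {S : Finset (Fin d → ℝ)} {w : (Fin d → ℝ) → ℝ} (hw : Dep S w)
    (p : Fin d → ℝ) : p ∈ pos S w ↔ 0 < w p := by
  unfold pos
  rw [Finset.mem_filter]
  constructor
  · exact fun h => h.2
  · intro h
    refine ⟨?_, h⟩
    by_contra hp
    rw [hw.1 p hp] at h
    exact lt_irrefl _ h

lemma Dep.mem_neg {d : ℕ} {S : Finset (Fin d → ℝ)} {w : (Fin d → ℝ) → ℝ} (hw : Dep S w)
    (p : Fin d → ℝ) : p ∈ neg S w ↔ w p < 0 := by
  unfold neg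
  rw [Finset.mem_filter]
  constructor
  · exact fun h => h.2
  · intro h
    refine ⟨?_, h⟩
    by_contra hp
    rw [hw.1 p hp] at h
    exact lt_irrefl _ h

lemma Dep.disj {d : ℕ} {S : Finset (Fin d → ℝ)} {w : (Fin d → ℝ) → ℝ} (hw : Dep S w) :
    Disjoint (pos S w) (neg S w) := by
  rw [Finset.disjoint_left]
  intro p h1 h2
  rw [hw.mem_pos] at h1
  rw [hw.mem_neg] at h2
  linarith

/-- A nonzero dependence gives a Radon partition. -/
lemma Dep.radon {d : ℕ} {S : Finset (Fin d → ℝ)} {w : (Fin d → ℝ) → ℝ} (hw : Dep S w)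
    (hne : ∃ p, w p ≠ 0) :
    (convexHull ℝ ((pos S w : Finset (Fin d → ℝ)) : Set (Fin d → ℝ)) ∩
      convexHull ℝ ((neg S w : Finset (Fin d → ℝ)) : Set (Fin d → ℝ))).Nonempty := by
  classical
  have hsplit : ∀ (f : (Fin d → ℝ) → (Fin d → ℝ)) ,
      ∑ p ∈ S, w p • f p = ∑ p ∈ pos S w, w p • f p + ∑ p ∈ neg S w, w p • f p := by
    intro f
    rw [← Finset.sum_union hw.disj]
    symm
    apply Finset.sum_subset
    · intro p hp
      rw [Finset.mem_union] at hp
      unfold pos neg at hp
      rcases hp with hp | hp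
      · exact (Finset.mem_filter.mp hp).1
      · exact (Finset.mem_filter.mp hp).1
    · intro p hp hp'
      rw [Finset.mem_union, not_or, hw.mem_pos, hw.mem_neg] at hp'
      have : w p = 0 := le_antisymm (not_lt.mp hp'.1) (not_lt.mp hp'.2)
      rw [this, zero_smul]
  have hsplit' : ∑ p ∈ S, w p = ∑ p ∈ pos S w, w p + ∑ p ∈ neg S w, w p := by
    rw [← Finset.sum_union hw.disj]
    symm
    apply Finset.sum_subset
    · intro p hp
      rw [Finset.mem_union] at hp
      unfold pos neg at hp
      rcases hp with hp | hp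
      · exact (Finset.mem_filter.mp hp).1
      · exact (Finset.mem_filter.mp hp).1
    · intro p hp hp'
      rw [Finset.mem_union, not_or, hw.mem_pos, hw.mem_neg] at hp'
      exact le_antisymm (not_lt.mp hp'.1) (not_lt.mp hp'.2)
  set σ := ∑ p ∈ pos S w, w p with hσ
  have hneg : ∑ p ∈ neg S w, w p = - σ := by
    have := hw.2.1
    rw [hsplit'] at this
    linarith
  have hvec : ∑ p ∈ neg S w, w p • p = - ∑ p ∈ pos S w, w p • p := by
    have := hw.2.2
    rw [hsplit (fun p => p)] at this
    exact (neg_eq_of_add_eq_zero_right this).symm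
  have hσ0 : 0 ≤ σ := Finset.sum_nonneg (fun p hp => le_of_lt ((hw.mem_pos p).mp hp))
  have hσpos : 0 < σ := by
    rcases hσ0.lt_or_eq with h | h
    · exact h
    · exfalso
      obtain ⟨p, hp⟩ := hne
      rcases lt_or_gt_of_ne hp with h1 | h1
      · have h2 : ∑ p ∈ neg S w, (- w p) = 0 := by
          rw [Finset.sum_neg_distrib, hneg, ← h]; simp
        rw [Finset.sum_eq_zero_iff_of_nonneg] at h2
        · have := h2 p ((hw.mem_neg p).mpr h1)
          linarith
        · intro i hi
          have := (hw.mem_neg i).mp hi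
          linarith
      · have h2 : ∑ p ∈ pos S w, w p = 0 := by
          rw [← hσ, ← h]
        rw [Finset.sum_eq_zero_iff_of_nonneg] at h2
        · have := h2 p ((hw.mem_pos p).mpr h1)
          linarith
        · intro i hi
          have := (hw.mem_pos i).mp hi
          linarith
  refine ⟨σ⁻¹ • ∑ p ∈ pos S w, w p • p, ?_, ?_⟩
  · rw [Finset.mem_convexHull']
    refine ⟨fun p => σ⁻¹ * w p, ?_, ?_, ?_⟩
    · intro y hy
      have := (hw.mem_pos y).mp hy
      positivity
    · rw [← Finset.mul_sum, ← hσ]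
      field_simp
    · rw [Finset.smul_sum]
      exact Finset.sum_congr rfl (fun p _ => by rw [mul_smul])
  · rw [Finset.mem_convexHull']
    refine ⟨fun p => σ⁻¹ * (- w p), ?_, ?_, ?_⟩
    · intro y hy
      have := (hw.mem_neg y).mp hy
      have h2 : 0 < σ⁻¹ := inv_pos.mpr hσpos
      nlinarith
    · rw [← Finset.mul_sum, Finset.sum_neg_distrib, hneg]
      field_simp
    · have : ∑ p ∈ pos S w, w p • p = ∑ p ∈ neg S w, (- w p) • p := by
        rw [Finset.sum_congr (s₁ := neg S w) rfl (fun p _ => neg_smul (w p) p),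
          Finset.sum_neg_distrib, hvec, neg_neg]
      rw [this, Finset.smul_sum]
      exact Finset.sum_congr rfl (fun p _ => by rw [mul_smul])

/-- RadonIn is symmetric in the representation. -/
lemma radonIn_mk {d : ℕ} {S A B : Finset (Fin d → ℝ)} (h : RadonIn S s(A, B)) :
    A ⊆ S ∧ B ⊆ S ∧ Disjoint A B ∧
    (convexHull ℝ (A : Set (Fin d → ℝ)) ∩ convexHull ℝ (B : Set (Fin d → ℝ))).Nonempty := by
  obtain ⟨A', B', hp, h1, h2, h3, h4⟩ := h
  rw [Sym2.eq_iff] at hp
  rcases hp with ⟨rfl, rfl⟩ | ⟨rfl, rfl⟩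
  · exact ⟨h1, h2, h3, h4⟩
  · exact ⟨h2, h1, h3.symm, by rwa [Set.inter_comm]⟩

lemma pos_subset {d : ℕ} (S : Finset (Fin d → ℝ)) (w : (Fin d → ℝ) → ℝ) : pos S w ⊆ S :=
  Finset.filter_subset _ _

lemma neg_subset {d : ℕ} (S : Finset (Fin d → ℝ)) (w : (Fin d → ℝ) → ℝ) : neg S w ⊆ S :=
  Finset.filter_subset _ _

lemma Dep.radonIn {d : ℕ} {S : Finset (Fin d → ℝ)} {w : (Fin d → ℝ) → ℝ} (hw : Dep S w)
    (hne : ∃ p, w p ≠ 0) : RadonIn S s(pos S w, neg S w) :=
  ⟨_, _, rfl, pos_subset S w, neg_subset S w, hw.disj, hw.radon hne⟩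

/-- Key: for a primitive pair, any compatible nonzero dependence has full support. -/
lemma primitive_full {d : ℕ} {S A B : Finset (Fin d → ℝ)} (h : Primitive S s(A, B))
    {w : (Fin d → ℝ) → ℝ} (hw : Dep S w) (hne : ∃ p, w p ≠ 0)
    (hA : ∀ p, 0 < w p → p ∈ A) (hB : ∀ p, w p < 0 → p ∈ B) :
    pos S w = A ∧ neg S w = B := by
  obtain ⟨hAS, hBS, hdis, -⟩ := radonIn_mk h.1
  have hpA : pos S w ⊆ A := fun p hp => hA p ((hw.mem_pos p).mp hp)
  have hnB : neg S w ⊆ B := fun p hp => hB p ((hw.mem_neg p).mp hp)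
  have h1 := h.2 _ (hw.radonIn hne) ⟨A, B, pos S w, neg S w, rfl, rfl, hpA, hnB⟩
  rw [Sym2.eq_iff] at h1
  rcases h1 with h1 | ⟨h1, h2⟩
  · exact h1
  · exfalso
    obtain ⟨x, hx, -⟩ := hw.radon hne
    have hne' : (pos S w).Nonempty := by
      rw [Finset.nonempty_iff_ne_empty]
      intro h0
      rw [h0] at hx
      simp at hx
    obtain ⟨y, hy⟩ := hne'
    exact Finset.disjoint_left.mp hdis (hpA hy) (h1 ▸ hy)

/-- For a primitive pair there is a dependence with `pos = A`, `neg = B`. -/
lemma primitive_dep {d : ℕ} {S A B : Finset (Fin d → ℝ)} (h : Primitive S s(A, B)) :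
    ∃ w : (Fin d → ℝ) → ℝ, Dep S w ∧ (∃ p, w p ≠ 0) ∧ (∀ p, 0 < w p ↔ p ∈ A) ∧
      (∀ p, w p < 0 ↔ p ∈ B) := by
  classical
  obtain ⟨hAS, hBS, hdis, hconv⟩ := radonIn_mk h.1
  obtain ⟨w, hw, hne, hA, hB⟩ := exists_dep hdis hconv
  have hw' : Dep S w := hw.mono (Finset.union_subset hAS hBS)
  obtain ⟨h1, h2⟩ := primitive_full h hw' hne hA hB
  refine ⟨w, hw', hne, fun p => ?_, fun p => ?_⟩
  · rw [← hw'.mem_pos, h1]
  · rw [← hw'.mem_neg, h2]

lemma primitive_circ {d : ℕ} {S A B : Finset (Fin d → ℝ)} (h : Primitive S s(A, B)) :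
    AffCirc (A ∪ B) := by
  classical
  obtain ⟨w, hw, hne, hA, hB⟩ := primitive_dep h
  obtain ⟨hAS, hBS, hdis, -⟩ := radonIn_mk h.1
  have hsub : A ∪ B ⊆ S := Finset.union_subset hAS hBS
  have hzero : ∀ p, p ∉ A ∪ B → w p = 0 := by
    intro p hp
    rw [Finset.mem_union, not_or, ← hA, ← hB] at hp
    exact le_antisymm (not_lt.mp hp.1) (not_lt.mp hp.2)
  have hnz : ∀ p, p ∈ A ∪ B → w p ≠ 0 := by
    intro p hp
    rw [Finset.mem_union, ← hA, ← hB] at hp
    rcases hp with hp | hp
    · exact ne_of_gt hp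
    · exact ne_of_lt hp
  constructor
  · rw [indep_iff]
    intro hcon
    obtain ⟨p, hp⟩ := hne
    exact hp (hcon w (hw.restrict hsub hzero) p)
  · intro e he D hD heD
    rw [indep_iff]
    by_contra hcon
    push Not at hcon
    obtain ⟨g, hg, p, hp⟩ := hcon
    -- choose the sign of g
    have key : ∀ g : (Fin d → ℝ) → ℝ, Dep D g → (∃ i, 0 < g i * w i) → False := by
      intro g hg ⟨i0, hi0⟩
      have hgS : Dep S g := hg.mono (hD.trans hsub)
      set I := (A ∪ B).filter (fun i => 0 < g i * w i) with hI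
      have hIne : I.Nonempty := by
        refine ⟨i0, ?_⟩
        rw [hI, Finset.mem_filter]
        refine ⟨?_, hi0⟩
        by_contra hi
        rw [hzero i0 hi] at hi0
        simp at hi0
      obtain ⟨i, hiI, himin⟩ := I.exists_min_image (fun i => w i / g i) hIne
      have hiI' := (Finset.mem_filter.mp hiI)
      have hgi : g i ≠ 0 := by
        intro h0
        rw [h0] at hiI'
        simp at hiI'
      set t := w i / g i with ht
      have htpos : 0 < t := by
        have : t = (g i * w i) / (g i) ^ 2 := by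
          rw [ht]; field_simp
        rw [this]
        have := hiI'.2
        positivity
      set k : (Fin d → ℝ) → ℝ := fun p => w p - t * g p with hk
      have hkd : Dep S k := hw.comb hgS t
      have hkw : ∀ j, 0 ≤ k j * w j := by
        intro j
        by_cases hj : 0 < g j * w j
        · have hjI : j ∈ I := by
            rw [hI, Finset.mem_filter]
            refine ⟨?_, hj⟩
            by_contra hi
            rw [hzero j hi] at hj
            simp at hj
          have hmin := himin j hjI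
          have hgj : g j ≠ 0 := by
            intro h0
            rw [h0] at hj
            simp at hj
          have : k j * w j = (g j * w j) * (w j / g j - t) := by
            simp only [hk]
            field_simp
          rw [this]
          apply mul_nonneg hj.le
          have hmin' : t ≤ w j / g j := hmin
          linarith
        · have : k j * w j = w j ^ 2 + t * (-(g j * w j)) := by
            simp only [hk]; ring
          rw [this]
          have h1 : 0 ≤ -(g j * w j) := by linarith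
          positivity
      have hke : k e ≠ 0 := by
        simp only [hk]
        rw [hg.1 e heD]
        simpa using hnz e he
      have hki : k i = 0 := by
        simp only [hk, ht]
        field_simp
        ring
      have hkne : ∃ p, k p ≠ 0 := ⟨e, hke⟩
      have hkz : ∀ p, w p = 0 → k p = 0 := by
        intro p hp
        have : p ∉ A ∪ B := fun h => hnz p h hp
        have : p ∉ D := fun h => this (hD h)
        simp only [hk]
        rw [hp, hg.1 p this]
        simp
      have hkA : ∀ p, 0 < k p → p ∈ A := by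
        intro p hp
        rw [← hA]
        have h1 := hkw p
        rcases lt_trichotomy (w p) 0 with h2 | h2 | h2
        · nlinarith
        · rw [hkz p h2] at hp
          exact absurd hp (lt_irrefl _)
        · exact h2
      have hkB : ∀ p, k p < 0 → p ∈ B := by
        intro p hp
        rw [← hB]
        have h1 := hkw p
        rcases lt_trichotomy (w p) 0 with h2 | h2 | h2
        · exact h2
        · rw [hkz p h2] at hp
          exact absurd hp (lt_irrefl _)
        · nlinarith
      obtain ⟨h1, h2⟩ := primitive_full h hkd hkne hkA hkB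
      have h3 := hiI'.1
      rw [Finset.mem_union, ← h1, ← h2, hkd.mem_pos, hkd.mem_neg, hki] at h3
      rcases h3 with h3 | h3 <;> exact lt_irrefl _ h3
    have hpD : p ∈ D := by
      by_contra hpD
      exact hp (hg.1 p hpD)
    have hwp := hnz p (hD hpD)
    rcases lt_or_gt_of_ne (mul_ne_zero hp hwp) with h1 | h1
    · apply key (fun q => - g q)
      · refine ⟨fun q hq => by simp [hg.1 q hq], ?_, ?_⟩
        · rw [Finset.sum_neg_distrib, hg.2.1]; simp
        · rw [Finset.sum_congr rfl (fun q _ => neg_smul (g q) q), Finset.sum_neg_distrib,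
            hg.2.2]; simp
      · exact ⟨p, by linarith⟩
    · exact key g hg ⟨p, h1⟩

/-- On a circuit a nonzero dependence has full support. -/
lemma circ_full {d : ℕ} {C : Finset (Fin d → ℝ)} (hC : AffCirc C) {w : (Fin d → ℝ) → ℝ}
    (hw : Dep C w) (hne : ∃ p, w p ≠ 0) : ∀ p ∈ C, w p ≠ 0 := by
  classical
  intro p hp hwp
  obtain ⟨q, hq⟩ := hne
  have h1 := hC.2 p hp (C.erase p) (Finset.erase_subset _ _) (Finset.notMem_erase _ _)
  rw [indep_iff] at h1
  apply hq
  apply h1 w
  apply hw.restrict (Finset.erase_subset _ _)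
  intro r hr
  by_cases hrp : r = p
  · rw [hrp, hwp]
  · apply hw.1
    intro hrC
    exact hr (Finset.mem_erase.mpr ⟨hrp, hrC⟩)

/-- The union map. -/
noncomputable def un {d : ℕ} : Sym2 (Finset (Fin d → ℝ)) → Finset (Fin d → ℝ) :=
  open Classical in Sym2.lift ⟨fun A B => A ∪ B, fun A B => Finset.union_comm A B⟩

lemma un_mk {d : ℕ} (A B : Finset (Fin d → ℝ)) :
    un s(A, B) = open Classical in A ∪ B := by
  unfold un
  rw [Sym2.lift_mk]

lemma un_injOn {d : ℕ} (S : Finset (Fin d → ℝ)) : Set.InjOn un {p | Primitive S p} := by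
  classical
  intro p hp q hq hpq
  simp only [Set.mem_ofPred_eq] at hp hq
  induction p using Sym2.ind with
  | _ A B =>
  induction q using Sym2.ind with
  | _ A' B' =>
  rw [un_mk, un_mk] at hpq
  have hC := primitive_circ hp
  obtain ⟨w, hw, hne, hA, hB⟩ := primitive_dep hp
  obtain ⟨w', hw', hne', hA', hB'⟩ := primitive_dep hq
  obtain ⟨hAS, hBS, hdis, -⟩ := radonIn_mk hp.1
  obtain ⟨hAS', hBS', hdis', -⟩ := radonIn_mk hq.1
  have hmem : ∀ p, p ∈ A ∪ B ↔ w p ≠ 0 := by
    intro p
    rw [Finset.mem_union, ← hA, ← hB, or_comm]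
    exact ne_iff_lt_or_gt.symm
  have hmem' : ∀ p, p ∈ A ∪ B ↔ w' p ≠ 0 := by
    intro p
    have : (A ∪ B) = (A' ∪ B') := by convert hpq
    rw [this, Finset.mem_union, ← hA', ← hB', or_comm]
    exact ne_iff_lt_or_gt.symm
  obtain ⟨i, hi⟩ := hne
  have hi' : w' i ≠ 0 := (hmem' i).mp ((hmem i).mpr hi)
  set t := w i / w' i with ht
  have ht0 : t ≠ 0 := div_ne_zero hi hi'
  have hk : Dep S (fun p => w p - t * w' p) := hw.comb hw' t
  have hk' : Dep (A ∪ B) (fun p => w p - t * w' p) := by
    apply hk.restrict (Finset.union_subset hAS hBS)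
    intro p hp
    have h1 : w p = 0 := by
      by_contra h; exact hp ((hmem p).mpr h)
    have h2 : w' p = 0 := by
      by_contra h; exact hp ((hmem' p).mpr h)
    simp [h1, h2]
  have hall : ∀ p, w p - t * w' p = 0 := by
    by_contra hcon
    push Not at hcon
    have := circ_full hC hk' hcon i ((hmem i).mpr hi)
    apply this
    simp only [ht]
    field_simp
    ring
  have hprop : ∀ p, w p = t * w' p := fun p => by linarith [hall p]
  rw [Sym2.eq_iff]
  rcases lt_or_gt_of_ne ht0 with h | h
  · right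
    constructor
    · ext p
      rw [← hA, ← hB', hprop p]
      constructor
      · intro h1; nlinarith
      · intro h1; nlinarith
    · ext p
      rw [← hB, ← hA', hprop p]
      constructor
      · intro h1; nlinarith
      · intro h1; nlinarith
  · left
    constructor
    · ext p
      rw [← hA, ← hA', hprop p]
      constructor
      · intro h1; nlinarith
      · intro h1; nlinarith
    · ext p
      rw [← hB, ← hB', hprop p]
      constructor
      · intro h1; nlinarith
      · intro h1; nlinarith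

lemma un_image {d : ℕ} (S : Finset (Fin d → ℝ)) :
    un '' {p | Primitive S p} = ((affCircs S : Finset (Finset (Fin d → ℝ))) : Set _) := by
  classical
  ext C
  simp only [Set.mem_image, Set.mem_ofPred_eq, Finset.mem_coe]
  constructor
  · rintro ⟨p, hp, rfl⟩
    induction p using Sym2.ind with
    | _ A B =>
    obtain ⟨hAS, hBS, hdis, -⟩ := radonIn_mk hp.1
    unfold affCircs
    rw [Finset.mem_filter, Finset.mem_powerset, un_mk]
    refine ⟨?_, ?_⟩
    · intro x hx
      rw [Finset.mem_union] at hx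
      rcases hx with hx | hx
      · exact hAS hx
      · exact hBS hx
    · convert primitive_circ hp
  · intro hC
    unfold affCircs at hC
    rw [Finset.mem_filter, Finset.mem_powerset] at hC
    obtain ⟨hCS, hC⟩ := hC
    have h1 := hC.1
    rw [indep_iff] at h1
    push Not at h1
    obtain ⟨w, hw, hne⟩ := h1
    have hfull := circ_full hC hw hne
    have hwS := hw.mono hCS
    have hun : ∀ p, p ∈ pos C w ∪ neg C w ↔ p ∈ C := by
      intro p
      rw [Finset.mem_union, hw.mem_pos, hw.mem_neg]
      constructor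
      · intro h
        by_contra hp
        rw [hw.1 p hp] at h
        simp at h
      · intro h
        rcases lt_or_gt_of_ne (hfull p h) with h2 | h2
        · exact Or.inr h2
        · exact Or.inl h2
    refine ⟨s(pos C w, neg C w), ?_, ?_⟩
    · refine ⟨⟨_, _, rfl, (pos_subset C w).trans hCS, (neg_subset C w).trans hCS, hw.disj,
        hw.radon hne⟩, ?_⟩
      rintro q hq ⟨A1, B1, A', B', hAB, rfl, hA', hB'⟩
      obtain ⟨-, -, hdis', hconv'⟩ := radonIn_mk hq
      have hC1 : A1 ∪ B1 = C ∧ Disjoint A1 B1 := by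
        rw [Sym2.eq_iff] at hAB
        rcases hAB with ⟨h1, h2⟩ | ⟨h1, h2⟩
        · rw [← h1, ← h2]
          exact ⟨Finset.ext hun, hw.disj⟩
        · rw [← h1, ← h2, Finset.union_comm]
          exact ⟨Finset.ext hun, hw.disj.symm⟩
      obtain ⟨g, hg, hgne, hgA, hgB⟩ := exists_dep hdis' hconv'
      have hgC : Dep C g := hg.mono (by
        rw [← hC1.1]; exact Finset.union_subset_union hA' hB')
      have hgfull := circ_full hC hgC hgne
      have hcov : ∀ p ∈ C, p ∈ A' ∪ B' := by
        intro p hp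
        by_contra hp'
        exact hgfull p hp (hg.1 p hp')
      have hd := Finset.disjoint_left.mp hC1.2
      have e1 : A' = A1 := by
        apply Finset.Subset.antisymm hA'
        intro p hp
        have hpC : p ∈ C := by rw [← hC1.1]; exact Finset.mem_union_left _ hp
        rcases Finset.mem_union.mp (hcov p hpC) with h | h
        · exact h
        · exact absurd (hB' h) (hd hp)
      have e2 : B' = B1 := by
        apply Finset.Subset.antisymm hB'
        intro p hp
        have hpC : p ∈ C := by rw [← hC1.1]; exact Finset.mem_union_right _ hp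
        rcases Finset.mem_union.mp (hcov p hpC) with h | h
        · exact absurd hp (hd (hA' h))
        · exact h
      rw [hAB, e1, e2]
    · rw [un_mk]
      ext p
      rw [← hun p]

/-- TARGET -/
theorem numPrimitive_eq {d : ℕ} (S : Finset (Fin d → ℝ)) :
    numPrimitive S = (affCircs S).card := by
  unfold numPrimitive
  rw [← (un_injOn S).ncard_image, un_image, Set.ncard_coe_finset]

end Pool.Agent.Helper766.Rad.Dict
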