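import Mathlib
import Pool.Agent.Helper766.Rad.Conn

set_option autoImplicit false

namespace Pool.Agent.Helper766.Rad

variable {ι : Type} [DecidableEq ι]

/-- `z` and `k` are parallel non-loops. -/
def Par (M : RankFn ι) (z k : ι) : Prop := M.r {z} = 1 ∧ M.r {k} = 1 ∧ M.r {z, k} = 1

theorem Par.symm {M : RankFn ι} {z k : ι} (h : Par M z k) : Par M k z :=
  ⟨h.2.1, h.1, by rw [Finset.pair_comm]; exact h.2.2⟩

theorem Par.insert_eq {M : RankFn ι} {z k : ι} (h : Par M z k) (A : Finset ι) :
    M.r (insert z A) = M.r (insert k A) := by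
  have key : ∀ z k : ι, Par M z k → M.r (insert z (insert k A)) = M.r (insert k A) := by
    intro z k h
    apply cl_mono M (A := {k})
    · rw [h.2.1]; exact h.2.2
    · simp
  have h1 := key z k h
  have h2 := key k z h.symm
  rw [Finset.insert_comm] at h2
  omega

theorem Par.cl {M : RankFn ι} {z k : ι} (h : Par M z k) {A : Finset ι} (hk : k ∈ A) :
    M.r (insert z A) = M.r A := by
  apply cl_mono M (A := {k})
  · rw [h.2.1]; exact h.2.2
  · simpa using hk

theorem Par.trans {M : RankFn ι} {z k w : ι} (h : Par M z k) (h' : Par M k w) : Par M z w := by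
  refine ⟨h.1, h'.2.1, ?_⟩
  have := h.insert_eq {w}
  rw [this]
  exact h'.2.2

/-- Swapping parallel elements in a circuit. -/
theorem Par.swap {M : RankFn ι} {z k : ι} (h : Par M z k) {D : Finset ι} (hD : IsCirc M D)
    (hk : k ∈ D) (hz : z ∉ D) : IsCirc M (insert z (D.erase k)) := by
  have hzk : z ∉ D.erase k := fun hh => hz (Finset.mem_of_mem_erase hh)
  have hcard : (insert z (D.erase k)).card = D.card := by
    rw [Finset.card_insert_of_notMem hzk, Finset.card_erase_add_one hk]
  refine ⟨?_, ?_⟩
  · rw [h.insert_eq, Finset.insert_erase hk, hcard]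
    exact hD.1
  · intro e he
    rw [Finset.card_erase_of_mem he, hcard]
    rcases Finset.mem_insert.mp he with rfl | he'
    · rw [Finset.erase_insert hzk, hD.2 k hk, Finset.card_erase_of_mem hk]
    · have hne : z ≠ e := fun hh => hzk (hh ▸ he')
      rw [Finset.mem_erase] at he'
      rw [Finset.erase_insert_of_ne hne, h.insert_eq, Finset.erase_right_comm,
        Finset.insert_erase (Finset.mem_erase.mpr ⟨he'.1.symm, hk⟩), hD.2 e he'.2,
        Finset.card_erase_of_mem he'.2]

theorem Conn.del_parallel {M : RankFn ι} {F : Finset ι} (h : Conn M F) {z k : ι} (hz : z ∈ F)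
    (hk : k ∈ F) (hzk : z ≠ k) (hp : Par M z k) : Conn M (F.erase z) := by
  have h2 : 2 ≤ F.card := by
    have : ({z, k} : Finset ι) ⊆ F := by
      intro w hw
      simp only [Finset.mem_insert, Finset.mem_singleton] at hw
      rcases hw with rfl | rfl <;> assumption
    have h1 := Finset.card_le_card this
    rwa [Finset.card_pair hzk] at h1
  have hr := (h.nl h2 hz).2
  intro P hP hPn hPne
  rw [hr]
  have hPF : P ⊆ F := hP.trans (Finset.erase_subset z F)
  have hzP : z ∉ P := fun hh => (Finset.mem_erase.mp (hP hh)).1 rfl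
  have hQ : F.erase z \ P = (F \ P).erase z := by
    ext w; simp only [Finset.mem_sdiff, Finset.mem_erase]; tauto
  by_cases hkP : k ∈ P
  · have h1 := h (insert z P) (Finset.insert_subset hz hPF) (Finset.insert_nonempty z P) (by
      intro hh
      apply hPne
      rw [← hh, Finset.erase_insert hzP])
    rw [hp.cl hkP] at h1
    have h3 : F \ insert z P = F.erase z \ P := by
      ext w; simp only [Finset.mem_sdiff, Finset.mem_erase, Finset.mem_insert]; tauto
    rw [h3] at h1
    exact h1
  · have h1 := h P hPF hPn (by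
      rintro rfl
      exact hkP hk)
    have hkQ : k ∈ F.erase z \ P :=
      Finset.mem_sdiff.mpr ⟨Finset.mem_erase.mpr ⟨hzk.symm, hk⟩, hkP⟩
    have h3 : F \ P = insert z (F.erase z \ P) := by
      ext w
      simp only [Finset.mem_sdiff, Finset.mem_erase, Finset.mem_insert]
      constructor
      · rintro ⟨h1, h2⟩
        by_cases hw : w = z
        · exact Or.inl hw
        · exact Or.inr ⟨⟨hw, h1⟩, h2⟩
      · rintro (rfl | ⟨⟨_, h1⟩, h2⟩)
        · exact ⟨hz, hzP⟩
        · exact ⟨h1, h2⟩
    rw [h3, hp.cl hkQ] at h1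
    exact h1

theorem Conn.del_many {M : RankFn ι} {F K : Finset ι} (hKF : K ⊆ F)
    (hpar : ∀ z ∈ F \ K, ∃ k ∈ K, Par M z k) (hc : Conn M F) {x : ι} (hx : x ∈ K) :
    Conn M K ∧ M.r K = M.r F ∧ cx M K x + F.card ≤ cx M F x + K.card := by
  generalize hn : (F \ K).card = n
  induction n generalizing F with
  | zero =>
    rw [Finset.card_eq_zero, Finset.sdiff_eq_empty_iff_subset] at hn
    have : F = K := Finset.Subset.antisymm hn hKF
    subst this
    exact ⟨hc, rfl, le_refl _⟩
  | succ n ih =>
    obtain ⟨z, hz⟩ : (F \ K).Nonempty := by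
      rw [← Finset.card_pos]; omega
    obtain ⟨k, hk, hp⟩ := hpar z hz
    rw [Finset.mem_sdiff] at hz
    have hzk : z ≠ k := fun hh => hz.2 (hh ▸ hk)
    have hzx : z ≠ x := fun hh => hz.2 (hh ▸ hx)
    have hc' := hc.del_parallel hz.1 (hKF hk) hzk hp
    have hsub : K ⊆ F.erase z := by
      intro w hw
      exact Finset.mem_erase.mpr ⟨fun hh => hz.2 (hh ▸ hw), hKF hw⟩
    have hsd : F.erase z \ K = (F \ K).erase z := by
      ext w; simp only [Finset.mem_sdiff, Finset.mem_erase]; tauto
    have hcard : (F.erase z \ K).card = n := by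
      rw [hsd, Finset.card_erase_of_mem (Finset.mem_sdiff.mpr hz), hn]
      rfl
    obtain ⟨h1, h2, h3⟩ := ih hsub (by
      intro w hw
      apply hpar w
      rw [hsd] at hw
      exact Finset.mem_of_mem_erase hw) hc' hcard
    have h2F : 2 ≤ F.card := by
      have : ({z, k} : Finset ι) ⊆ F := by
        intro w hw
        simp only [Finset.mem_insert, Finset.mem_singleton] at hw
        rcases hw with rfl | rfl
        · exact hz.1
        · exact hKF hk
      have h1 := Finset.card_le_card this
      rwa [Finset.card_pair hzk] at h1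
    refine ⟨h1, ?_, ?_⟩
    · rw [h2, (hc.nl h2F hz.1).2]
    · have h4 := cx_del M F x z
      have h5 : 1 ≤ cxy M F x z := by
        obtain ⟨C, c1, c2, c3, c4⟩ := hc.exists_circ (hKF hx) hz.1 hzx.symm
        unfold cxy
        rw [Nat.one_le_iff_ne_zero, ← Nat.pos_iff_ne_zero, Finset.card_pos]
        exact ⟨C, by simp only [Finset.mem_filter, mem_circs]; exact ⟨⟨c2, c1⟩, c3, c4⟩⟩
      have h6 := Finset.card_erase_add_one hz.1
      omega

/-- Of two circuits of a contraction differing by parallel elements at most one is a circuit. -/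
theorem not_both {M : RankFn ι} {y z k : ι} (hy : M.r {y} = 1) (hkz : M.r {z, k} = 2)
    (hp : Par (con M y) z k) {D : Finset ι} (hD : IsCirc (con M y) D) (hk : k ∈ D) (hz : z ∉ D)
    (h1 : IsCirc M D) (h2 : IsCirc M (insert z (D.erase k))) : False := by
  have hzk : z ∉ D.erase k := fun hh => hz (Finset.mem_of_mem_erase hh)
  have e1 : M.r (insert k (D.erase k)) = M.r (D.erase k) := h1.cl hk
  have e2 : M.r (insert z (D.erase k)) = M.r (D.erase k) := by
    have := h2.cl (Finset.mem_insert_self z (D.erase k))
    rwa [Finset.erase_insert hzk] at this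
  have e3 : M.r (D.erase k ∪ {z, k}) = M.r (D.erase k) := by
    apply cl_union
    intro w hw
    simp only [Finset.mem_insert, Finset.mem_singleton] at hw
    rcases hw with rfl | rfl <;> assumption
  have e4 : M.r (insert y {z, k}) = M.r {z, k} := by
    have := con_r M hy {z, k}
    rw [hp.2.2] at this
    omega
  have e5 := cl_mono M e4 (B := D.erase k ∪ {z, k}) Finset.subset_union_right
  have e6 : M.r (insert y (D.erase k)) ≤ M.r (insert y (D.erase k ∪ {z, k})) :=
    M.mono' (Finset.insert_subset_insert y Finset.subset_union_left)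
  have e7 := con_r M hy (D.erase k)
  have e8 := hD.2 k hk
  have e9 := r_le_card M (D.erase k)
  omega

theorem con_simple_r {M : RankFn ι} {y z k : ι} (hy : M.r {y} = 1) (hyz : M.r {y, z} = 2)
    (hyk : M.r {y, k} = 2) (h : M.r {y, z, k} = 2) : Par (con M y) z k := by
  refine ⟨?_, ?_, ?_⟩
  · have := con_r M hy {z}
    omega
  · have := con_r M hy {k}
    omega
  · have := con_r M hy {z, k}
    omega

/-- `g_y ≤ c_{xy}`. -/
theorem par_le_cxy {M : RankFn ι} {E K : Finset ι} {x y : ι} (hs : Simple M E) (hy : y ∈ E)
    (hKE : K ⊆ E.erase y) (hpar : ∀ z ∈ E.erase y \ K, ∃ k ∈ K, Par (con M y) z k)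
    (hc : Conn (con M y) (E.erase y)) (hx : x ∈ K)
    (hxn : ∀ z ∈ E.erase y, z ≠ x → ¬ Par (con M y) z x) :
    (E.erase y).card ≤ cxy M E x y + K.card := by
  generalize hn : (E.erase y \ K).card = n
  induction n generalizing E K with
  | zero =>
    rw [Finset.card_eq_zero, Finset.sdiff_eq_empty_iff_subset] at hn
    have := Finset.card_le_card hn
    omega
  | succ n ih =>
    obtain ⟨z, hz⟩ : (E.erase y \ K).Nonempty := by
      rw [← Finset.card_pos]; omega
    obtain ⟨k, hk, hp⟩ := hpar z hz
    have hz' := Finset.mem_sdiff.mp hz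
    have hzy : z ≠ y := (Finset.mem_erase.mp hz'.1).1
    have hzE : z ∈ E := (Finset.mem_erase.mp hz'.1).2
    have hkF := hKE hk
    have hky : k ≠ y := (Finset.mem_erase.mp hkF).1
    have hkE : k ∈ E := (Finset.mem_erase.mp hkF).2
    have hzk : z ≠ k := fun hh => hz'.2 (hh ▸ hk)
    have hzx : z ≠ x := fun hh => hz'.2 (hh ▸ hx)
    have hkx : k ≠ x := by
      rintro rfl
      exact hxn z hz'.1 hzx hp
    have hxF : x ∈ E.erase y := hKE hx
    have hxy : x ≠ y := (Finset.mem_erase.mp hxF).1
    have hxE : x ∈ E := (Finset.mem_erase.mp hxF).2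
    have hy1 := hs.1 y hy
    have hcz := hc.del_parallel hz'.1 hkF hzk hp
    have hck := hc.del_parallel hkF hz'.1 hzk.symm hp.symm
    obtain ⟨D, hD, hDF, hxD, hkD⟩ := hcz.exists_circ (x := x) (y := k)
      (Finset.mem_erase.mpr ⟨hzx.symm, hxF⟩) (Finset.mem_erase.mpr ⟨hzk.symm, hkF⟩) hkx.symm
    have hzD : z ∉ D := fun hh => (Finset.mem_erase.mp (hDF hh)).1 rfl
    have hyD : y ∉ D := fun hh =>
      (Finset.mem_erase.mp (Finset.mem_of_mem_erase (hDF hh))).1 rfl
    have hDE : D ⊆ E := fun w hw =>
      Finset.mem_of_mem_erase (Finset.mem_of_mem_erase (hDF hw))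
    have hD' := hp.swap hD hkD hzD
    have hyD' : y ∉ insert z (D.erase k) := by
      rw [Finset.mem_insert, Finset.mem_erase]
      rintro (h | h)
      · exact hzy h.symm
      · exact hyD h.2
    have hFcard := Finset.card_erase_add_one hz'.1
    have hFcardk := Finset.card_erase_add_one hkF
    have hnb := not_both hy1 (hs.2 z hzE k hkE hzk) hp hD hkD hzD
    by_cases hB : IsCirc M (insert z (D.erase k))
    · -- then `insert y D` is a circuit; delete `k`
      have hC : IsCirc M (insert y D) :=
        (circ_of_con M hy1 hyD hD).resolve_left (fun hh => hnb hh hB)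
      have hEk : (E.erase k).erase y = (E.erase y).erase k := Finset.erase_right_comm
      have hsub : insert z (K.erase k) ⊆ (E.erase k).erase y := by
        rw [hEk]
        intro w hw
        rcases Finset.mem_insert.mp hw with rfl | hw
        · exact Finset.mem_erase.mpr ⟨hzk, hz'.1⟩
        · rw [Finset.mem_erase] at hw
          exact Finset.mem_erase.mpr ⟨hw.1, hKE hw.2⟩
      have hzK : z ∉ K.erase k := fun hh => hz'.2 (Finset.mem_of_mem_erase hh)
      have hcardK : (insert z (K.erase k)).card = K.card := by
        rw [Finset.card_insert_of_notMem hzK, Finset.card_erase_add_one hk]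
      have hsd : (E.erase k).erase y \ insert z (K.erase k) = (E.erase y \ K).erase z := by
        rw [hEk]
        ext w
        simp only [Finset.mem_sdiff, Finset.mem_erase, Finset.mem_insert, not_or, not_and]
        constructor
        · rintro ⟨⟨a1, a2⟩, a3, a4⟩
          exact ⟨a3, a2, fun hh => a4 a1 hh⟩
        · rintro ⟨a1, a2, a3⟩
          exact ⟨⟨fun hh => a3 (hh ▸ hk), a2⟩, a1, fun _ hh => a3 hh⟩
      have h1 := ih (E := E.erase k) (K := insert z (K.erase k))
        ⟨fun a ha => hs.1 a (Finset.mem_of_mem_erase ha), fun a ha b hb hab =>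
          hs.2 a (Finset.mem_of_mem_erase ha) b (Finset.mem_of_mem_erase hb) hab⟩
        (Finset.mem_erase.mpr ⟨hky.symm, hy⟩) hsub (by
          intro w hw
          rw [hsd, Finset.mem_erase] at hw
          obtain ⟨k', hk', hpk'⟩ := hpar w hw.2
          by_cases hkk : k' = k
          · subst hkk
            exact ⟨z, Finset.mem_insert_self z _, hpk'.trans hp.symm⟩
          · exact ⟨k', Finset.mem_insert_of_mem (Finset.mem_erase.mpr ⟨hkk, hk'⟩), hpk'⟩)
        (by rw [hEk]; exact hck)
        (Finset.mem_insert_of_mem (Finset.mem_erase.mpr ⟨hkx.symm, hx⟩))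
        (by
          intro w hw hwx
          rw [hEk] at hw
          exact hxn w (Finset.mem_of_mem_erase hw) hwx)
        (by rw [hsd, Finset.card_erase_of_mem hz, hn]; rfl)
      rw [hEk, hcardK] at h1
      have h2 : cxy M (E.erase k) x y + 1 ≤ cxy M E x y := by
        unfold cxy
        rw [Nat.add_one_le_iff]
        apply Finset.card_lt_card
        rw [Finset.ssubset_iff_of_subset]
        · refine ⟨insert y D, ?_, ?_⟩
          · simp only [Finset.mem_filter, mem_circs]
            exact ⟨⟨Finset.insert_subset hy hDE, hC⟩, Finset.mem_insert_of_mem hxD,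
              Finset.mem_insert_self y D⟩
          · simp only [Finset.mem_filter, mem_circs]
            intro hh
            have := hh.1.1 (Finset.mem_insert_of_mem hkD)
            exact (Finset.mem_erase.mp this).1 rfl
        · intro C hCC
          simp only [Finset.mem_filter, mem_circs] at hCC ⊢
          exact ⟨⟨hCC.1.1.trans (Finset.erase_subset k E), hCC.1.2⟩, hCC.2⟩
      omega
    · -- `insert y D'` is a circuit; delete `z`
      have hC : IsCirc M (insert y (insert z (D.erase k))) :=
        (circ_of_con M hy1 hyD' hD').resolve_left hB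
      have hEz : (E.erase z).erase y = (E.erase y).erase z := Finset.erase_right_comm
      have hsub : K ⊆ (E.erase z).erase y := by
        rw [hEz]
        intro w hw
        exact Finset.mem_erase.mpr ⟨fun hh => hz'.2 (hh ▸ hw), hKE hw⟩
      have hsd : (E.erase z).erase y \ K = (E.erase y \ K).erase z := by
        rw [hEz]
        ext w; simp only [Finset.mem_sdiff, Finset.mem_erase]; tauto
      have h1 := ih (E := E.erase z) (K := K)
        ⟨fun a ha => hs.1 a (Finset.mem_of_mem_erase ha), fun a ha b hb hab =>
          hs.2 a (Finset.mem_of_mem_erase ha) b (Finset.mem_of_mem_erase hb) hab⟩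
        (Finset.mem_erase.mpr ⟨hzy.symm, hy⟩) hsub (by
          intro w hw
          rw [hsd, Finset.mem_erase] at hw
          exact hpar w hw.2)
        (by rw [hEz]; exact hcz) hx
        (by
          intro w hw hwx
          rw [hEz] at hw
          exact hxn w (Finset.mem_of_mem_erase hw) hwx)
        (by rw [hsd, Finset.card_erase_of_mem hz, hn]; rfl)
      rw [hEz] at h1
      have h2 : cxy M (E.erase z) x y + 1 ≤ cxy M E x y := by
        unfold cxy
        rw [Nat.add_one_le_iff]
        apply Finset.card_lt_card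
        rw [Finset.ssubset_iff_of_subset]
        · refine ⟨insert y (insert z (D.erase k)), ?_, ?_⟩
          · simp only [Finset.mem_filter, mem_circs]
            refine ⟨⟨?_, hC⟩, ?_, Finset.mem_insert_self y _⟩
            · apply Finset.insert_subset hy
              apply Finset.insert_subset hzE
              exact (Finset.erase_subset k D).trans hDE
            · apply Finset.mem_insert_of_mem
              apply Finset.mem_insert_of_mem
              exact Finset.mem_erase.mpr ⟨hkx.symm, hxD⟩
          · simp only [Finset.mem_filter, mem_circs]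
            intro hh
            have := hh.1.1 (Finset.mem_insert_of_mem (Finset.mem_insert_self z _))
            exact (Finset.mem_erase.mp this).1 rfl
        · intro C hCC
          simp only [Finset.mem_filter, mem_circs] at hCC ⊢
          exact ⟨⟨hCC.1.1.trans (Finset.erase_subset z E), hCC.1.2⟩, hCC.2⟩
      omega

end Pool.Agent.Helper766.Rad
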