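import Mathlib
import Pool.Agent.Helper766.Rad.Par

set_option autoImplicit false

namespace Pool.Agent.Helper766.Rad

variable {ι : Type} [DecidableEq ι]

theorem Simple.subset {M : RankFn ι} {E F : Finset ι} (h : Simple M E) (hF : F ⊆ E) :
    Simple M F :=
  ⟨fun a ha => h.1 a (hF ha), fun a ha b hb hab => h.2 a (hF ha) b (hF hb) hab⟩

theorem Simple.par {M : RankFn ι} {E : Finset ι} (h : Simple M E) {x z z' : ι} (hx : x ∈ E)
    (hz : z ∈ E) (hz' : z' ∈ E) (hzx : z ≠ x) (hzx' : z' ≠ x) (hr : M.r {x, z, z'} = 2) :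
    Par (con M x) z z' :=
  con_simple_r (h.1 x hx) (h.2 x hx z hz hzx.symm) (h.2 x hx z' hz' hzx'.symm) hr

theorem par_r {M : RankFn ι} {y z k : ι} (hy : M.r {y} = 1) (h : Par (con M y) z k) :
    M.r {y, z, k} = 2 := by
  have := con_r M hy {z, k}
  rw [h.2.2] at this
  exact this.symm

/-- Three collinear points form a circuit. -/
theorem Simple.circ3 {M : RankFn ι} {E : Finset ι} (h : Simple M E) {x z z' : ι} (hx : x ∈ E)
    (hz : z ∈ E) (hz' : z' ∈ E) (hzx : z ≠ x) (hzx' : z' ≠ x) (hzz : z ≠ z')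
    (hr : M.r {x, z, z'} = 2) : IsCirc M {x, z, z'} := by
  have hcard : ({x, z, z'} : Finset ι).card = 3 := by
    rw [Finset.card_insert_of_notMem, Finset.card_pair hzz]
    simp only [Finset.mem_insert, Finset.mem_singleton, not_or]
    exact ⟨hzx.symm, hzx'.symm⟩
  refine ⟨by rw [hr, hcard]; norm_num, ?_⟩
  intro e he
  rw [Finset.card_erase_of_mem he, hcard]
  simp only [Finset.mem_insert, Finset.mem_singleton] at he
  rcases he with rfl | rfl | rfl
  · have : ({e, z, z'} : Finset ι).erase e = {z, z'} := by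
      ext w; simp only [Finset.mem_erase, Finset.mem_insert, Finset.mem_singleton]
      constructor
      · rintro ⟨h1, h2 | h2 | h2⟩
        · exact absurd h2 h1
        · exact Or.inl h2
        · exact Or.inr h2
      · rintro (rfl | rfl)
        · exact ⟨hzx, Or.inr (Or.inl rfl)⟩
        · exact ⟨hzx', Or.inr (Or.inr rfl)⟩
    rw [this, h.2 z hz z' hz' hzz]
  · have : ({x, e, z'} : Finset ι).erase e = {x, z'} := by
      ext w; simp only [Finset.mem_erase, Finset.mem_insert, Finset.mem_singleton]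
      constructor
      · rintro ⟨h1, h2 | h2 | h2⟩
        · exact Or.inl h2
        · exact absurd h2 h1
        · exact Or.inr h2
      · rintro (rfl | rfl)
        · exact ⟨hzx.symm, Or.inl rfl⟩
        · exact ⟨hzz.symm, Or.inr (Or.inr rfl)⟩
    rw [this, h.2 x hx z' hz' hzx'.symm]
  · have : ({x, z, e} : Finset ι).erase e = {x, z} := by
      ext w; simp only [Finset.mem_erase, Finset.mem_insert, Finset.mem_singleton]
      constructor
      · rintro ⟨h1, h2 | h2 | h2⟩
        · exact Or.inl h2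
        · exact Or.inr h2
        · exact absurd h2 h1
      · rintro (rfl | rfl)
        · exact ⟨hzx'.symm, Or.inl rfl⟩
        · exact ⟨hzz, Or.inr (Or.inl rfl)⟩
    rw [this, h.2 x hx z hz hzx.symm]

theorem line_pair {M : RankFn ι} {E : Finset ι} (hs : Simple M E) {x z z' : ι} (hx : x ∈ E)
    (hc : Conn (con M x) (E.erase x)) (hz : z ∈ E) (hz' : z' ∈ E) (hzx : z ≠ x) (hzx' : z' ≠ x)
    (hzz : z ≠ z') (hr : M.r {x, z, z'} = 2) :
    E.card + 1 ≤ M.r E + (cxy M E x z + cxy M E x z') := by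
  have hx1 := hs.1 x hx
  have hp := hs.par hx hz hz' hzx hzx' hr
  have hzF : z ∈ E.erase x := Finset.mem_erase.mpr ⟨hzx, hz⟩
  have hzF' : z' ∈ E.erase x := Finset.mem_erase.mpr ⟨hzx', hz'⟩
  have hc' := hc.del_parallel hzF' hzF hzz.symm hp.symm
  set F := (E.erase x).erase z' with hF
  have hzFF : z ∈ F := Finset.mem_erase.mpr ⟨hzz, hzF⟩
  have h1 := hc'.nullity_le hzFF
  have h2 : 2 ≤ (E.erase x).card := by
    have : ({z, z'} : Finset ι) ⊆ E.erase x := by
      intro w hw
      simp only [Finset.mem_insert, Finset.mem_singleton] at hw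
      rcases hw with rfl | rfl <;> assumption
    have h1 := Finset.card_le_card this
    rwa [Finset.card_pair hzz] at h1
  have h3 := (hc.nl h2 hzF').2
  rw [← hF] at h3
  have h4 := con_r M hx1 (E.erase x)
  rw [Finset.insert_erase hx] at h4
  have c1 := Finset.card_erase_add_one hx
  have c2 := Finset.card_erase_add_one hzF'
  rw [← hF] at c2
  have hT := hs.circ3 hx hz hz' hzx hzx' hzz hr
  have hTE : ({x, z, z'} : Finset ι) ⊆ E := by
    intro w hw
    simp only [Finset.mem_insert, Finset.mem_singleton] at hw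
    rcases hw with rfl | rfl | rfl <;> assumption
  classical
  set 𝒟 := (circs (con M x) F).filter (fun C => z ∈ C) with h𝒟
  have hmem : ∀ D ∈ 𝒟, D ⊆ F ∧ IsCirc (con M x) D ∧ z ∈ D := by
    intro D hD
    simp only [h𝒟, Finset.mem_filter, mem_circs] at hD
    exact ⟨hD.1.1, hD.1.2, hD.2⟩
  have hxD : ∀ D ∈ 𝒟, x ∉ D := by
    intro D hD hh
    exact (Finset.mem_erase.mp (Finset.mem_of_mem_erase ((hmem D hD).1 hh))).1 rfl
  have hz'D : ∀ D ∈ 𝒟, z' ∉ D := by
    intro D hD hh
    exact (Finset.mem_erase.mp ((hmem D hD).1 hh)).1 rfl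
  have hDE : ∀ D ∈ 𝒟, D ⊆ E := by
    intro D hD w hw
    exact Finset.mem_of_mem_erase (Finset.mem_of_mem_erase ((hmem D hD).1 hw))
  set 𝒟1 := 𝒟.filter (fun D => IsCirc M (insert x D)) with h𝒟1
  set 𝒟2 := 𝒟.filter (fun D => ¬ IsCirc M (insert x D)) with h𝒟2
  have hsum : 𝒟1.card + 𝒟2.card = 𝒟.card := Finset.card_filter_add_card_filter_not _
  have a1 : 𝒟1.card + 1 ≤ cxy M E x z := by
    have hinj : Set.InjOn (fun D => insert x D) (𝒟1 : Set (Finset ι)) := by
      intro D hD D' hD' heq
      have hD1 := (Finset.mem_filter.mp hD).1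
      have hD1' := (Finset.mem_filter.mp hD').1
      rw [← Finset.erase_insert (hxD D hD1), ← Finset.erase_insert (hxD D' hD1')]
      exact congrArg (fun T => Finset.erase T x) heq
    rw [← Finset.card_image_of_injOn hinj, ← Finset.card_insert_of_notMem (a := {x, z, z'})]
    · unfold cxy
      apply Finset.card_le_card
      intro C hC
      rw [Finset.mem_insert, Finset.mem_image] at hC
      simp only [Finset.mem_filter, mem_circs]
      rcases hC with rfl | ⟨D, hD, rfl⟩
      · exact ⟨⟨hTE, hT⟩, by simp, by simp⟩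
      · have hD1 := Finset.mem_filter.mp hD
        exact ⟨⟨Finset.insert_subset hx (hDE D hD1.1), hD1.2⟩, Finset.mem_insert_self _ _,
          Finset.mem_insert_of_mem (hmem D hD1.1).2.2⟩
    · intro hh
      rw [Finset.mem_image] at hh
      obtain ⟨D, hD, heq⟩ := hh
      have hD1 := (Finset.mem_filter.mp hD).1
      have : z' ∈ insert x D := by rw [heq]; simp
      rcases Finset.mem_insert.mp this with h | h
      · exact hzx' h
      · exact hz'D D hD1 h
  have a2 : 𝒟2.card + 1 ≤ cxy M E x z' := by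
    have hinj : Set.InjOn (fun D => insert x (insert z' (D.erase z))) (𝒟2 : Set (Finset ι)) := by
      intro D hD D' hD' heq
      have hD1 := (Finset.mem_filter.mp hD).1
      have hD1' := (Finset.mem_filter.mp hD').1
      have hrec : ∀ D ∈ 𝒟, D = insert z (((insert x (insert z' (D.erase z))).erase x).erase z') := by
        intro D hD
        have b1 : x ∉ insert z' (D.erase z) := by
          rw [Finset.mem_insert, Finset.mem_erase]
          rintro (h | h)
          · exact hzx' h.symm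
          · exact hxD D hD h.2
        have b2 : z' ∉ D.erase z := fun hh => hz'D D hD (Finset.mem_of_mem_erase hh)
        rw [Finset.erase_insert b1, Finset.erase_insert b2, Finset.insert_erase (hmem D hD).2.2]
      rw [hrec D hD1, hrec D' hD1']
      exact congrArg (fun T => insert z ((Finset.erase T x).erase z')) heq
    rw [← Finset.card_image_of_injOn hinj, ← Finset.card_insert_of_notMem (a := {x, z, z'})]
    · unfold cxy
      apply Finset.card_le_card
      intro C hC
      rw [Finset.mem_insert, Finset.mem_image] at hC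
      simp only [Finset.mem_filter, mem_circs]
      rcases hC with rfl | ⟨D, hD, rfl⟩
      · exact ⟨⟨hTE, hT⟩, by simp, by simp⟩
      · have hD1 := Finset.mem_filter.mp hD
        have hm := hmem D hD1.1
        have hM : IsCirc M D :=
          (circ_of_con M hx1 (hxD D hD1.1) hm.2.1).resolve_right hD1.2
        have hsw := hp.symm.swap hm.2.1 hm.2.2 (hz'D D hD1.1)
        have hnx : x ∉ insert z' (D.erase z) := by
          rw [Finset.mem_insert, Finset.mem_erase]
          rintro (h | h)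
          · exact hzx' h.symm
          · exact hxD D hD1.1 h.2
        have hlift : IsCirc M (insert x (insert z' (D.erase z))) :=
          (circ_of_con M hx1 hnx hsw).resolve_left (fun hh =>
            not_both hx1 (by rw [Finset.pair_comm]; exact hs.2 z hz z' hz' hzz) hp.symm hm.2.1
              hm.2.2 (hz'D D hD1.1) hM hh)
        refine ⟨⟨?_, hlift⟩, Finset.mem_insert_self _ _,
          Finset.mem_insert_of_mem (Finset.mem_insert_self _ _)⟩
        apply Finset.insert_subset hx
        apply Finset.insert_subset hz'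
        exact (Finset.erase_subset z D).trans (hDE D hD1.1)
    · intro hh
      rw [Finset.mem_image] at hh
      obtain ⟨D, hD, heq⟩ := hh
      have hz3 : z ∈ insert x (insert z' (D.erase z)) := by rw [heq]; simp
      rw [Finset.mem_insert, Finset.mem_insert, Finset.mem_erase] at hz3
      rcases hz3 with h | h | h
      · exact hzx h
      · exact hzz h
      · exact h.1 rfl
  have hcx : cx (con M x) F z = 𝒟.card := rfl
  rw [hcx] at h1
  omega

/-- Deleting a point of a long line. -/
theorem line_del {M : RankFn ι} {E : Finset ι} (hs : Simple M E) (hc : Conn M E) {x z z' : ι}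
    (hx : x ∈ E) (hz : z ∈ E) (hz' : z' ∈ E) (hzx : z ≠ x) (hzx' : z' ≠ x) (hzz : z ≠ z')
    (hr : M.r {x, z, z'} = 2) (hcx : Conn (con M x) (E.erase x))
    (hcz : Conn (con M z') (E.erase z')) (h4 : 4 ≤ E.card) : Conn M (E.erase z) := by
  have h2 : 2 ≤ E.card := by omega
  have hEz := (hc.nl h2 hz).2
  -- `z` is in the closure of `{x, z'}`
  have hcl : M.r (insert z {x, z'}) = M.r {x, z'} := by
    rw [Finset.insert_comm, hr, hs.2 x hx z' hz' hzx'.symm]
  -- no part contains both
  have nb : ∀ P Q : Finset ι, P ∪ Q = E.erase z → Disjoint P Q → Q.Nonempty →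
      M.r P + M.r Q ≤ M.r E → x ∈ P → z' ∈ P → False := by
    intro P Q hPQ hd hQn hle hxP hzP
    have e1 := cl_mono M hcl (B := P) (by
      intro w hw
      simp only [Finset.mem_insert, Finset.mem_singleton] at hw
      rcases hw with rfl | rfl <;> assumption)
    have hPE : P ⊆ E.erase z := hPQ ▸ Finset.subset_union_left
    have hQE : Q ⊆ E.erase z := hPQ ▸ Finset.subset_union_right
    have hzQ : z ∉ Q := fun hh => (Finset.mem_erase.mp (hQE hh)).1 rfl
    have h5 := hc Q (hQE.trans (Finset.erase_subset z E)) hQn (fun hh => hzQ (hh ▸ hz))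
    have h6 : E \ Q = insert z P := by
      ext w
      rw [Finset.mem_sdiff, Finset.mem_insert]
      have a1 : w ∈ P ∨ w ∈ Q ↔ w ≠ z ∧ w ∈ E := by rw [← Finset.mem_union, hPQ, Finset.mem_erase]
      constructor
      · rintro ⟨b1, b2⟩
        by_cases hw : w = z
        · exact Or.inl hw
        · exact Or.inr ((a1.mpr ⟨hw, b1⟩).resolve_right b2)
      · rintro (rfl | h)
        · exact ⟨hz, hzQ⟩
        · exact ⟨(a1.mp (Or.inl h)).2, Finset.disjoint_left.mp hd h⟩
    rw [h6, e1] at h5
    omega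
  -- a part containing `u` but not `v` is `{u}`
  have single : ∀ (u v : ι) (P Q : Finset ι), u ∈ E → v ∈ E → u ≠ v →
      M.r (insert z {u, v}) = M.r {u, v} → u ≠ z → v ≠ z →
      Conn (con M u) (E.erase u) → P ∪ Q = E.erase z → Disjoint P Q →
      M.r P + M.r Q ≤ M.r E → u ∈ P → v ∈ Q → P = {u} := by
    intro u v P Q hu hv huv hcl huz hvz hcu hPQ hd hle huP hvQ
    by_contra hne
    have hPn : (P.erase u).Nonempty := by
      rw [Finset.nonempty_iff_ne_empty]
      intro hh
      apply hne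
      rw [Finset.erase_eq_empty_iff] at hh
      rcases hh with h | h
      · rw [h] at huP; simp at huP
      · exact h
    have hPE : P ⊆ E.erase z := hPQ ▸ Finset.subset_union_left
    have hQE : Q ⊆ E.erase z := hPQ ▸ Finset.subset_union_right
    have hu1 := hs.1 u hu
    have huQ : u ∉ Q := Finset.disjoint_left.mp hd huP
    have h5 := hcu (P.erase u) (by
      intro w hw
      rw [Finset.mem_erase] at hw ⊢
      exact ⟨hw.1, Finset.mem_of_mem_erase (hPE hw.2)⟩) hPn (by
      intro hh
      have : v ∈ P.erase u := by rw [hh]; exact Finset.mem_erase.mpr ⟨huv.symm, hv⟩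
      exact Finset.disjoint_left.mp hd (Finset.mem_of_mem_erase this) hvQ)
    have h6 : E.erase u \ P.erase u = insert z Q := by
      ext w
      rw [Finset.mem_sdiff, Finset.mem_insert, Finset.mem_erase, Finset.mem_erase]
      have a1 : w ∈ P ∨ w ∈ Q ↔ w ≠ z ∧ w ∈ E := by rw [← Finset.mem_union, hPQ, Finset.mem_erase]
      constructor
      · rintro ⟨⟨b1, b2⟩, b3⟩
        by_cases hw : w = z
        · exact Or.inl hw
        · exact Or.inr ((a1.mpr ⟨hw, b2⟩).resolve_left (fun hh => b3 ⟨b1, hh⟩))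
      · rintro (rfl | h)
        · refine ⟨⟨huz.symm, hz⟩, fun hh => ?_⟩
          exact (a1.mp (Or.inl hh.2)).1 rfl
        · exact ⟨⟨fun hh => huQ (hh ▸ h), (a1.mp (Or.inr h)).2⟩,
            fun hh => Finset.disjoint_left.mp hd hh.2 h⟩
    rw [h6] at h5
    have e1 := con_r M hu1 (E.erase u)
    have e2 := con_r M hu1 (P.erase u)
    have e3 := con_r M hu1 (insert z Q)
    rw [Finset.insert_erase hu] at e1
    rw [Finset.insert_erase huP] at e2
    have e4 := cl_mono M hcl (B := insert u Q) (by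
      intro w hw
      simp only [Finset.mem_insert, Finset.mem_singleton] at hw ⊢
      rcases hw with rfl | rfl
      · exact Or.inl rfl
      · exact Or.inr hvQ)
    rw [Finset.insert_comm, e4] at e3
    have e5 := M.insert_le Q u
    omega
  have hxz' : M.r (insert z {z', x}) = M.r {z', x} := by
    rw [Finset.pair_comm z' x]; exact hcl
  intro P hP hPn hPne
  rw [hEz]
  by_contra hcon
  push Not at hcon
  set Q := E.erase z \ P with hQ
  have hQn : Q.Nonempty := by
    rw [hQ, Finset.sdiff_nonempty]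
    intro hh
    exact hPne (Finset.Subset.antisymm hP hh)
  have hPQ : P ∪ Q = E.erase z := Finset.union_sdiff_of_subset hP
  have hd : Disjoint P Q := Finset.disjoint_sdiff
  have hPQ' : Q ∪ P = E.erase z := by rw [Finset.union_comm]; exact hPQ
  have hxm : x ∈ P ∨ x ∈ Q := by
    rw [← Finset.mem_union, hPQ]; exact Finset.mem_erase.mpr ⟨hzx.symm, hx⟩
  have hzm : z' ∈ P ∨ z' ∈ Q := by
    rw [← Finset.mem_union, hPQ]; exact Finset.mem_erase.mpr ⟨hzz.symm, hz'⟩
  have fin : ∀ P Q : Finset ι, P ∪ Q = E.erase z → Disjoint P Q → M.r P + M.r Q ≤ M.r E →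
      x ∈ P → z' ∈ Q → False := by
    intro P Q hPQ hd hle hxP hzQ
    have s1 := single x z' P Q hx hz' hzx'.symm hcl hzx.symm hzz.symm hcx hPQ hd hle hxP hzQ
    have s2 := single z' x Q P hz' hx hzx' hxz' hzz.symm hzx.symm hcz
      (by rw [Finset.union_comm]; exact hPQ) hd.symm (by omega) hzQ hxP
    have s3 := congrArg Finset.card hPQ
    rw [Finset.card_union_of_disjoint hd, s1, s2, Finset.card_singleton, Finset.card_singleton,
      Finset.card_erase_of_mem hz] at s3
    omega
  rcases hxm with hxP | hxQ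
  · rcases hzm with hzP | hzQ
    · exact nb P Q hPQ hd hQn hcon hxP hzP
    · exact fin P Q hPQ hd hcon hxP hzQ
  · rcases hzm with hzP | hzQ
    · exact fin Q P hPQ' hd.symm (by omega) hxQ hzP
    · exact nb Q P hPQ' hd.symm hPn (by omega) hxQ hzQ

/-- If `E \ y` is disconnected, then at most one element is lost when simplifying `M / y`. -/
theorem not_conn_del {M : RankFn ι} {E K : Finset ι} {y : ι} (hs : Simple M E) (hc : Conn M E)
    (h2 : 2 ≤ E.card) (hy : y ∈ E) (hKE : K ⊆ E.erase y)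
    (hpar : ∀ z ∈ E.erase y \ K, ∃ k ∈ K, Par (con M y) z k)
    (hnc : ¬ Conn M (E.erase y)) : (E.erase y).card ≤ K.card + 1 := by
  have hy1 := hs.1 y hy
  have hEy := (hc.nl h2 hy).2
  unfold Conn at hnc
  push Not at hnc
  obtain ⟨P, hPE, hPn, hPne, hP⟩ := hnc
  set Q := E.erase y \ P with hQ
  rw [hEy] at hP
  have hQn : Q.Nonempty := by
    rw [hQ, Finset.sdiff_nonempty]
    intro hh
    exact hPne (Finset.Subset.antisymm hPE hh)
  have hPQ : P ∪ Q = E.erase y := Finset.union_sdiff_of_subset hPE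
  have hPQ' : Q ∪ P = E.erase y := by rw [Finset.union_comm]; exact hPQ
  have hd : Disjoint P Q := Finset.disjoint_sdiff
  have nb : ∀ P Q : Finset ι, P ∪ Q = E.erase y → Disjoint P Q → Q.Nonempty →
      M.r P + M.r Q ≤ M.r E → ∀ a b : ι, a ∈ E.erase y → b ∈ E.erase y → a ≠ b →
      Par (con M y) a b → a ∈ P → b ∈ P → False := by
    intro P Q hPQ hd hQn hle a b ha hb hab hp haP hbP
    have hcl : M.r (insert y {a, b}) = M.r {a, b} := by
      rw [par_r hy1 hp, hs.2 a (Finset.mem_of_mem_erase ha) b (Finset.mem_of_mem_erase hb) hab]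
    have e1 := cl_mono M hcl (B := P) (by
      intro w hw
      simp only [Finset.mem_insert, Finset.mem_singleton] at hw
      rcases hw with rfl | rfl <;> assumption)
    have hQE : Q ⊆ E.erase y := hPQ ▸ Finset.subset_union_right
    have hyQ : y ∉ Q := fun hh => (Finset.mem_erase.mp (hQE hh)).1 rfl
    have h5 := hc Q (hQE.trans (Finset.erase_subset y E)) hQn (fun hh => hyQ (hh ▸ hy))
    have h6 : E \ Q = insert y P := by
      ext w
      rw [Finset.mem_sdiff, Finset.mem_insert]
      have a1 : w ∈ P ∨ w ∈ Q ↔ w ≠ y ∧ w ∈ E := by rw [← Finset.mem_union, hPQ, Finset.mem_erase]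
      constructor
      · rintro ⟨b1, b2⟩
        by_cases hw : w = y
        · exact Or.inl hw
        · exact Or.inr ((a1.mpr ⟨hw, b1⟩).resolve_right b2)
      · rintro (rfl | h)
        · exact ⟨hy, hyQ⟩
        · exact ⟨(a1.mp (Or.inl h)).2, Finset.disjoint_left.mp hd h⟩
    rw [h6, e1] at h5
    omega
  -- a parallel pair has one element in each part
  have split : ∀ a b : ι, a ∈ E.erase y → b ∈ E.erase y → a ≠ b → Par (con M y) a b →
      (a ∈ P ∧ b ∈ Q) ∨ (a ∈ Q ∧ b ∈ P) := by
    intro a b ha hb hab hp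
    have ma : a ∈ P ∨ a ∈ Q := by rw [← Finset.mem_union, hPQ]; exact ha
    have mb : b ∈ P ∨ b ∈ Q := by rw [← Finset.mem_union, hPQ]; exact hb
    rcases ma with ma | ma <;> rcases mb with mb | mb
    · exact (nb P Q hPQ hd hQn hP a b ha hb hab hp ma mb).elim
    · exact Or.inl ⟨ma, mb⟩
    · exact Or.inr ⟨ma, mb⟩
    · exact (nb Q P hPQ' hd.symm hPn (by omega) a b ha hb hab hp ma mb).elim
  by_contra hlt
  push Not at hlt
  have hsd : 1 < (E.erase y \ K).card := by
    rw [Finset.card_sdiff_of_subset hKE]; omega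
  obtain ⟨z1, z2, hz1, hz2, hz12⟩ := Finset.one_lt_card_iff.mp hsd
  obtain ⟨k1, hk1, hp1⟩ := hpar z1 hz1
  obtain ⟨k2, hk2, hp2⟩ := hpar z2 hz2
  rw [Finset.mem_sdiff] at hz1 hz2
  have hk1E := hKE hk1
  have hk2E := hKE hk2
  have n1 : z1 ≠ k1 := fun hh => hz1.2 (hh ▸ hk1)
  have n2 : z2 ≠ k2 := fun hh => hz2.2 (hh ▸ hk2)
  have n3 : z1 ≠ k2 := fun hh => hz1.2 (hh ▸ hk2)
  have n4 : z2 ≠ k1 := fun hh => hz2.2 (hh ▸ hk1)
  have dPQ : ∀ w, w ∈ P → w ∈ Q → False := fun w h1 h2 => Finset.disjoint_left.mp hd h1 h2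
  by_cases hk : k1 = k2
  · subst hk
    have s1 := split z1 k1 hz1.1 hk1E n1 hp1
    have s2 := split z2 k1 hz2.1 hk1E n2 hp2
    have s3 := split z1 z2 hz1.1 hz2.1 hz12 (hp1.trans hp2.symm)
    rcases s1 with ⟨a1, a2⟩ | ⟨a1, a2⟩ <;> rcases s2 with ⟨b1, b2⟩ | ⟨b1, b2⟩ <;>
      rcases s3 with ⟨c1, c2⟩ | ⟨c1, c2⟩
    · exact dPQ _ b1 c2
    · exact dPQ _ a1 c1
    · exact dPQ _ b2 a2
    · exact dPQ _ b2 a2
    · exact dPQ _ a2 b2
    · exact dPQ _ a2 b2
    · exact dPQ _ c1 a1
    · exact dPQ _ c2 b1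
  · have hU : M.r P + M.r Q ≤ M.r (P ∪ Q) + 0 := by rw [hPQ, hEy]; exact hP
    have mem_E : ∀ w, w ∈ E.erase y → w ∈ E := fun w hw => Finset.mem_of_mem_erase hw
    have key : ∀ a1 b1 a2 b2 : ι, a1 ∈ E → b1 ∈ E → a2 ∈ E → b2 ∈ E → a1 ≠ a2 → b1 ≠ b2 →
        M.r {y, a1, b1} = 2 → M.r {y, a2, b2} = 2 → a1 ∈ P → a2 ∈ P → b1 ∈ Q → b2 ∈ Q →
        False := by
      intro a1 b1 a2 b2 ha1 hb1 ha2 hb2 ha hb hr1 hr2 haP1 haP2 hbQ1 hbQ2
      have t1 := mod_sub2 M hU (A := {a1, a2}) (B := {b1, b2}) (by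
        intro w hw
        simp only [Finset.mem_insert, Finset.mem_singleton] at hw
        rcases hw with rfl | rfl <;> assumption) (by
        intro w hw
        simp only [Finset.mem_insert, Finset.mem_singleton] at hw
        rcases hw with rfl | rfl <;> assumption)
      rw [hs.2 a1 ha1 a2 ha2 ha, hs.2 b1 hb1 b2 hb2 hb] at t1
      have t2 := M.submod {y, a1, b1} {y, a2, b2}
      have t3 : M.r {y} ≤ M.r ({y, a1, b1} ∩ {y, a2, b2}) := M.mono' (by
        intro w hw
        rw [Finset.mem_singleton] at hw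
        subst hw
        simp)
      have t4 : M.r ({a1, a2} ∪ {b1, b2}) ≤ M.r ({y, a1, b1} ∪ {y, a2, b2}) := M.mono' (by
        intro w hw
        simp only [Finset.mem_union, Finset.mem_insert, Finset.mem_singleton] at hw ⊢
        tauto)
      omega
    have r1 := par_r hy1 hp1
    have r2 := par_r hy1 hp2
    have r1' : M.r {y, k1, z1} = 2 := by rw [Finset.pair_comm k1 z1]; exact r1
    have r2' : M.r {y, k2, z2} = 2 := by rw [Finset.pair_comm k2 z2]; exact r2
    have E1 := mem_E z1 hz1.1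
    have E2 := mem_E z2 hz2.1
    have E3 := mem_E k1 hk1E
    have E4 := mem_E k2 hk2E
    rcases split z1 k1 hz1.1 hk1E n1 hp1 with ⟨a1, a2⟩ | ⟨a1, a2⟩ <;>
      rcases split z2 k2 hz2.1 hk2E n2 hp2 with ⟨b1, b2⟩ | ⟨b1, b2⟩
    · exact key z1 k1 z2 k2 E1 E3 E2 E4 hz12 hk r1 r2 a1 b1 a2 b2
    · exact key z1 k1 k2 z2 E1 E3 E4 E2 n3 n4.symm r1 r2' a1 b2 a2 b1
    · exact key k1 z1 z2 k2 E3 E1 E2 E4 n4.symm n3 r1' r2 a2 b1 a1 b2
    · exact key k1 z1 k2 z2 E3 E1 E4 E2 hk hz12 r1' r2' a2 b2 a1 b1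

/-- Double counting. -/
theorem sum_cxy (M : RankFn ι) {E : Finset ι} {x : ι} :
    ∑ y ∈ E.erase x, cxy M E x y =
      ∑ C ∈ (circs M E).filter (fun C => x ∈ C), (C.card - 1) := by
  have h1 : ∀ y ∈ E.erase x, cxy M E x y =
      ∑ C ∈ (circs M E).filter (fun C => x ∈ C), if y ∈ C then 1 else 0 := by
    intro y _
    unfold cxy
    rw [Finset.sum_ite, Finset.sum_const_zero, add_zero, Finset.sum_const, smul_eq_mul, mul_one,
      Finset.filter_filter]
  rw [Finset.sum_congr rfl h1, Finset.sum_comm]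
  apply Finset.sum_congr rfl
  intro C hC
  simp only [Finset.mem_filter, mem_circs] at hC
  rw [Finset.sum_ite, Finset.sum_const_zero, add_zero, Finset.sum_const, smul_eq_mul, mul_one]
  have h2 : (E.erase x).filter (fun y => y ∈ C) = C.erase x := by
    ext w
    simp only [Finset.mem_filter, Finset.mem_erase]
    constructor
    · rintro ⟨⟨a, _⟩, c⟩; exact ⟨a, c⟩
    · rintro ⟨a, c⟩; exact ⟨⟨a, hC.1.1 c⟩, c⟩
  rw [h2, Finset.card_erase_of_mem hC.2]

end Pool.Agent.Helper766.Rad
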