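import Mathlib
import Pool.Agent.Helper766.Rad.Line

set_option autoImplicit false

namespace Pool.Agent.Helper766.Rad

variable {ι : Type} [DecidableEq ι]

theorem exists_transversal (M : RankFn ι) {F : Finset ι} (h1 : ∀ z ∈ F, M.r {z} = 1) {x : ι}
    (hx : x ∈ F) : ∃ K ⊆ F, Simple M K ∧ x ∈ K ∧ ∀ z ∈ F \ K, ∃ k ∈ K, Par M z k := by
  obtain ⟨K, hK⟩ : ∃ K, Maximal (fun K => K ⊆ F ∧ Simple M K ∧ x ∈ K) K := by
    have hfin : {K : Finset ι | K ⊆ F ∧ Simple M K ∧ x ∈ K}.Finite := by
      apply Set.Finite.subset (F.powerset.finite_toSet)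
      intro K hK
      simpa using hK.1
    refine hfin.exists_maximal ⟨{x}, by simpa using hx, ⟨?_, ?_⟩, by simp⟩
    · intro a ha
      rw [Finset.mem_singleton] at ha
      subst ha
      exact h1 a hx
    · intro a ha b hb hab
      rw [Finset.mem_singleton] at ha hb
      exact absurd (ha.trans hb.symm) hab
  refine ⟨K, hK.prop.1, hK.prop.2.1, hK.prop.2.2, ?_⟩
  intro z hz
  rw [Finset.mem_sdiff] at hz
  by_contra hcon
  push Not at hcon
  have hsimple : Simple M (insert z K) := by
    have key : ∀ k ∈ K, M.r {z, k} = 2 := by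
      intro k hk
      have a1 := hcon k hk
      have a2 := h1 z hz.1
      have a3 := hK.prop.2.1.1 k hk
      unfold Par at a1
      have a4 := M.insert_le {k} z
      have a5 : M.r {k} ≤ M.r {z, k} := M.mono' (by simp)
      by_contra hne
      apply a1
      refine ⟨a2, a3, ?_⟩
      omega
    refine ⟨?_, ?_⟩
    · intro a ha
      rcases Finset.mem_insert.mp ha with rfl | ha
      · exact h1 a hz.1
      · exact hK.prop.2.1.1 a ha
    · intro a ha b hb hab
      rcases Finset.mem_insert.mp ha with ha1 | ha1
      · rcases Finset.mem_insert.mp hb with hb1 | hb1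
        · exact absurd (ha1.trans hb1.symm) hab
        · rw [ha1]; exact key b hb1
      · rcases Finset.mem_insert.mp hb with hb1 | hb1
        · rw [hb1, Finset.pair_comm]; exact key a ha1
        · exact hK.prop.2.1.2 a ha1 b hb1 hab
  have := hK.le_of_ge (y := insert z K) ⟨Finset.insert_subset hz.1 hK.prop.1, hsimple,
    Finset.mem_insert_of_mem hK.prop.2.2⟩ (Finset.subset_insert z K)
  exact hz.2 (this (Finset.mem_insert_self z K))

/-- Lines: every element of a simple rank 2 matroid is in `C(n-1,2)` circuits. -/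
theorem cx_rank2 {M : RankFn ι} {E : Finset ι} (hs : Simple M E) (h2 : M.r E = 2) {x : ι}
    (hx : x ∈ E) : (E.card - 1).choose 2 ≤ cx M E x := by
  rw [← Finset.card_erase_of_mem hx, ← Finset.card_powersetCard]
  unfold cx
  apply Finset.card_le_card_of_injOn (fun P => insert x P)
  · intro P hP
    rw [Finset.mem_coe, Finset.mem_powersetCard] at hP
    obtain ⟨a, b, hab, rfl⟩ := Finset.card_eq_two.mp hP.2
    have ha := Finset.mem_erase.mp (hP.1 (Finset.mem_insert_self a {b}))
    have hb := Finset.mem_erase.mp (hP.1 (Finset.mem_insert_of_mem (Finset.mem_singleton_self b)))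
    rw [Finset.mem_coe, Finset.mem_filter, mem_circs]
    have hsub : ({x, a, b} : Finset ι) ⊆ E := by
      intro w hw
      simp only [Finset.mem_insert, Finset.mem_singleton] at hw
      rcases hw with rfl | rfl | rfl
      · exact hx
      · exact ha.2
      · exact hb.2
    have hr : M.r {x, a, b} = 2 := by
      have h3 := M.mono' hsub
      have h4 : M.r {a, b} ≤ M.r {x, a, b} := M.mono' (Finset.subset_insert _ _)
      rw [hs.2 a ha.2 b hb.2 hab] at h4
      omega
    exact ⟨⟨hsub, hs.circ3 hx ha.2 hb.2 ha.1 hb.1 hab hr⟩, Finset.mem_insert_self _ _⟩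
  · intro P hP P' hP' heq
    rw [Finset.mem_coe, Finset.mem_powersetCard] at hP hP'
    have n1 : x ∉ P := fun hh => (Finset.mem_erase.mp (hP.1 hh)).1 rfl
    have n2 : x ∉ P' := fun hh => (Finset.mem_erase.mp (hP'.1 hh)).1 rfl
    rw [← Finset.erase_insert n1, ← Finset.erase_insert n2]
    exact congrArg (fun T => Finset.erase T x) heq

/-- In rank 3, if `x` is on no long line, then `c_{xy} ≥ n - 3`. -/
theorem cxy_rank3 {M : RankFn ι} {E : Finset ι} (hs : Simple M E) (hc : Conn M E)
    (hr : M.r E = 3) {x y : ι} (hx : x ∈ E) (hy : y ∈ E) (hyx : y ≠ x)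
    (hT : ∀ z ∈ E, ∀ z' ∈ E, z ≠ x → z' ≠ x → z ≠ z' → M.r {x, z, z'} ≠ 2) :
    E.card ≤ cxy M E x y + 3 := by
  have h2 : 2 ≤ E.card := by
    have := r_le_card M E
    omega
  have hT3 : ∀ z ∈ E, ∀ z' ∈ E, z ≠ x → z' ≠ x → z ≠ z' → M.r {x, z, z'} = 3 := by
    intro z hz z' hz' h1 h2 h3
    have a1 := hT z hz z' hz' h1 h2 h3
    have a2 : M.r {z, z'} ≤ M.r {x, z, z'} := M.mono' (Finset.subset_insert _ _)
    rw [hs.2 z hz z' hz' h3] at a2
    have a3 := M.insert_le {z, z'} x
    rw [hs.2 z hz z' hz' h3] at a3
    omega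
  have hEx := (hc.nl h2 hx).2
  -- there are `a`, `b` not collinear with `y`
  obtain ⟨a, ha, b, hb, hax, hbx, hay, hby, hab, hyab⟩ : ∃ a ∈ E, ∃ b ∈ E, a ≠ x ∧ b ≠ x ∧
      a ≠ y ∧ b ≠ y ∧ a ≠ b ∧ M.r {y, a, b} = 3 := by
    by_contra hcon
    push Not at hcon
    -- then `E \ x` has rank 2
    have hle : M.r (E.erase x) ≤ 2 := by
      by_cases hne : ∃ a ∈ E, a ≠ x ∧ a ≠ y
      · obtain ⟨a, ha, hax, hay⟩ := hne
        have h3 : M.r ({y, a} ∪ (E.erase x)) = M.r {y, a} := by
          apply cl_union
          intro w hw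
          rw [Finset.mem_erase] at hw
          by_cases hwy : w = y
          · rw [hwy, Finset.insert_eq_of_mem (by simp)]
          by_cases hwa : w = a
          · rw [hwa, Finset.insert_eq_of_mem (by simp)]
          have h4 := hcon a ha w hw.2 hax hw.1 hay hwy (Ne.symm hwa)
          have h5 : M.r {y, a} ≤ M.r (insert w {y, a}) := M.mono' (Finset.subset_insert _ _)
          have h6 := M.insert_le {y, a} w
          have h7 : (insert w {y, a} : Finset ι) = {y, a, w} := by
            ext v; simp only [Finset.mem_insert, Finset.mem_singleton]; tauto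
          rw [h7] at h5 h6 ⊢
          rw [hs.2 y hy a ha hay.symm] at h5 h6 ⊢
          omega
        have h8 : M.r (E.erase x) ≤ M.r ({y, a} ∪ (E.erase x)) :=
          M.mono' Finset.subset_union_right
        rw [h3, hs.2 y hy a ha hay.symm] at h8
        exact h8
      · push Not at hne
        have h9 : E.erase x ⊆ {y} := by
          intro w hw
          rw [Finset.mem_erase] at hw
          rw [Finset.mem_singleton]
          exact hne w hw.2 hw.1
        have := M.mono' h9
        have := r_singleton_le M y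
        omega
    omega
  have c4 : ∀ c ∈ E, ∀ d ∈ E, c ≠ x → d ≠ x → c ≠ y → d ≠ y → c ≠ d → M.r {y, c, d} = 3 →
      ({x, y, c, d} : Finset ι) ∈ (circs M E).filter (fun C => x ∈ C ∧ y ∈ C) := by
    intro c hc' d hd hcx hdx hcy hdy hcd hr3
    rw [Finset.mem_filter, mem_circs]
    have hsub : ({x, y, c, d} : Finset ι) ⊆ E := by
      intro w hw
      simp only [Finset.mem_insert, Finset.mem_singleton] at hw
      rcases hw with rfl | rfl | rfl | rfl <;> assumption
    have hcard : ({x, y, c, d} : Finset ι).card = 4 := by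
      rw [Finset.card_insert_of_notMem, Finset.card_insert_of_notMem, Finset.card_pair hcd]
      · simp only [Finset.mem_insert, Finset.mem_singleton, not_or]
        exact ⟨hcy.symm, hdy.symm⟩
      · simp only [Finset.mem_insert, Finset.mem_singleton, not_or]
        exact ⟨hyx.symm, hcx.symm, hdx.symm⟩
    refine ⟨⟨hsub, ?_, ?_⟩, by simp, by simp⟩
    · have := M.mono' hsub
      omega
    · intro e he
      rw [Finset.card_erase_of_mem he, hcard]
      have hup := r_le_card M (({x, y, c, d} : Finset ι).erase e)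
      rw [Finset.card_erase_of_mem he, hcard] at hup
      have hle : ∀ T : Finset ι, T ⊆ ({x, y, c, d} : Finset ι).erase e → M.r T = 3 →
          M.r (({x, y, c, d} : Finset ι).erase e) = 4 - 1 := by
        intro T hT hr
        have := M.mono' hT
        omega
      simp only [Finset.mem_insert, Finset.mem_singleton] at he
      rcases he with rfl | rfl | rfl | rfl
      · apply hle {y, c, d} _ hr3
        intro w hw
        simp only [Finset.mem_insert, Finset.mem_singleton, Finset.mem_erase] at hw ⊢
        rcases hw with rfl | rfl | rfl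
        · exact ⟨hyx, by tauto⟩
        · exact ⟨hcx, by tauto⟩
        · exact ⟨hdx, by tauto⟩
      · apply hle {x, c, d} _ (hT3 c hc' d hd hcx hdx hcd)
        intro w hw
        simp only [Finset.mem_insert, Finset.mem_singleton, Finset.mem_erase] at hw ⊢
        rcases hw with rfl | rfl | rfl
        · exact ⟨hyx.symm, by tauto⟩
        · exact ⟨hcy, by tauto⟩
        · exact ⟨hdy, by tauto⟩
      · apply hle {x, y, d} _ (hT3 y hy d hd hyx hdx hdy.symm)
        intro w hw
        simp only [Finset.mem_insert, Finset.mem_singleton, Finset.mem_erase] at hw ⊢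
        rcases hw with rfl | rfl | rfl
        · exact ⟨hcx.symm, by tauto⟩
        · exact ⟨hcy.symm, by tauto⟩
        · exact ⟨hcd.symm, by tauto⟩
      · apply hle {x, y, c} _ (hT3 y hy c hc' hyx hcx hcy.symm)
        intro w hw
        simp only [Finset.mem_insert, Finset.mem_singleton, Finset.mem_erase] at hw ⊢
        rcases hw with rfl | rfl | rfl
        · exact ⟨hdx.symm, by tauto⟩
        · exact ⟨hdy.symm, by tauto⟩
        · exact ⟨hcd, by tauto⟩
  -- for the other points
  classical
  set R := (((E.erase x).erase y).erase a).erase b with hR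
  have hRcard : R.card + 4 = E.card := by
    have e1 := Finset.card_erase_add_one hx
    have m2 : y ∈ E.erase x := Finset.mem_erase.mpr ⟨hyx, hy⟩
    have e2 := Finset.card_erase_add_one m2
    have m3 : a ∈ (E.erase x).erase y := Finset.mem_erase.mpr ⟨hay, Finset.mem_erase.mpr ⟨hax, ha⟩⟩
    have e3 := Finset.card_erase_add_one m3
    have m4 : b ∈ ((E.erase x).erase y).erase a := Finset.mem_erase.mpr ⟨hab.symm,
      Finset.mem_erase.mpr ⟨hby, Finset.mem_erase.mpr ⟨hbx, hb⟩⟩⟩
    have e4 := Finset.card_erase_add_one m4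
    rw [← hR] at e4
    omega
  set f : ι → Finset ι := fun c => if M.r {y, a, c} = 3 then {x, y, a, c} else {x, y, b, c} with hf
  have hmemR : ∀ c ∈ R, c ∈ E ∧ c ≠ x ∧ c ≠ y ∧ c ≠ a ∧ c ≠ b := by
    intro c hcR
    simp only [hR, Finset.mem_erase] at hcR
    tauto
  have hfR : ∀ c ∈ R, f c ∈ (circs M E).filter (fun C => x ∈ C ∧ y ∈ C) := by
    intro c hcR
    obtain ⟨m1, m2, m3, m4, m5⟩ := hmemR c hcR
    simp only [hf]
    split_ifs with h3
    · exact c4 a ha c m1 hax m2 hay m3 m4.symm h3
    · apply c4 b hb c m1 hbx m2 hby m3 m5.symm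
      by_contra hne
      -- both `a`, `b` on the line `y c`
      have k : ∀ w ∈ E, w ≠ y → M.r {y, w, c} ≠ 3 → M.r (insert w {y, c}) = M.r {y, c} := by
        intro w hw hwy hn
        have i1 : (insert w {y, c} : Finset ι) = {y, w, c} := by
          ext v; simp only [Finset.mem_insert, Finset.mem_singleton]; tauto
        have i2 := M.insert_le {y, c} w
        have i3 : M.r {y, c} ≤ M.r (insert w {y, c}) := M.mono' (Finset.subset_insert _ _)
        rw [i1] at i2 i3 ⊢
        rw [hs.2 y hy c m1 m3.symm] at i2 i3 ⊢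
        omega
      have k3 : M.r ({y, c} ∪ {a, b}) = M.r {y, c} := by
        apply cl_union
        intro w hw
        simp only [Finset.mem_insert, Finset.mem_singleton] at hw
        rcases hw with rfl | rfl
        · exact k w ha hay h3
        · exact k w hb hby hne
      have k4 : M.r {y, a, b} ≤ M.r ({y, c} ∪ {a, b}) := M.mono' (by
        intro w hw
        simp only [Finset.mem_insert, Finset.mem_singleton, Finset.mem_union] at hw ⊢
        tauto)
      rw [k3, hs.2 y hy c m1 m3.symm, hyab] at k4
      omega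
  have hfmem : ∀ c, c ∈ f c := by
    intro c
    simp only [hf]
    split_ifs <;> simp
  have hfsub : ∀ c, f c ⊆ {x, y, a, b, c} := by
    intro c w hw
    simp only [hf] at hw
    split_ifs at hw <;> simp only [Finset.mem_insert, Finset.mem_singleton] at hw ⊢ <;> tauto
  have hinj : Set.InjOn f (R : Set ι) := by
    intro c hcR c' hcR' heq
    obtain ⟨m1, m2, m3, m4, m5⟩ := hmemR c hcR
    have h5 : c ∈ f c' := heq ▸ hfmem c
    have h6 := hfsub c' h5
    simp only [Finset.mem_insert, Finset.mem_singleton] at h6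
    rcases h6 with h | h | h | h | h
    · exact absurd h m2
    · exact absurd h m3
    · exact absurd h m4
    · exact absurd h m5
    · exact h
  have hnot : ({x, y, a, b} : Finset ι) ∉ R.image f := by
    intro hh
    rw [Finset.mem_image] at hh
    obtain ⟨c, hcR, heq⟩ := hh
    obtain ⟨m1, m2, m3, m4, m5⟩ := hmemR c hcR
    have h5 : c ∈ ({x, y, a, b} : Finset ι) := heq ▸ hfmem c
    simp only [Finset.mem_insert, Finset.mem_singleton] at h5
    tauto
  have hfin : (insert ({x, y, a, b} : Finset ι) (R.image f)).card ≤ cxy M E x y := by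
    unfold cxy
    apply Finset.card_le_card
    intro C hC
    rcases Finset.mem_insert.mp hC with rfl | hC
    · exact c4 a ha b hb hax hbx hay hby hab hyab
    · obtain ⟨c, hcR, rfl⟩ := Finset.mem_image.mp hC
      exact hfR c hcR
  rw [Finset.card_insert_of_notMem hnot, Finset.card_image_of_injOn hinj] at hfin
  omega

end Pool.Agent.Helper766.Rad
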