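import Mathlib
import Pool.Agent.Helper766.Rad.LemmaA

set_option autoImplicit false

namespace Pool.Agent.Helper766.Rad

variable {ι : Type} [DecidableEq ι]

theorem simple_con {M : RankFn ι} {E : Finset ι} (hs : Simple M E) {y : ι} (hy : y ∈ E) :
    ∀ z ∈ E.erase y, (con M y).r {z} = 1 := by
  intro z hz
  rw [Finset.mem_erase] at hz
  have := con_r M (hs.1 y hy) {z}
  rw [hs.2 y hy z hz.2 hz.1.symm] at this
  omega

/-- final arithmetic contradiction -/
theorem arith_final (j n ρ g c : ℤ) (hj : 1 ≤ j) (hρ : 4 ≤ ρ) (hjn : j * (ρ - 1) ≤ n - 2)
    (hg0 : 0 ≤ g) (hg : g ≤ j - 1) (h1 : 3 * c ≤ (n - 1) * (j - 1))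
    (h2 : j * (2 * (n - 2 - g) - (j + 1) * (ρ - 2)) + 2 * g ≤ 2 * c) : False := by
  have h3 : j * (ρ - 2) ≤ n - 2 - j := by linarith
  have h4 : (j + 1) * (j * (ρ - 2)) ≤ (j + 1) * (n - 2 - j) := by
    apply mul_le_mul_of_nonneg_left h3; linarith
  have h5 : 3 * j ≤ n - 2 := by nlinarith
  have h6 : (j - 1) * g ≤ (j - 1) * (j - 1) := by
    apply mul_le_mul_of_nonneg_left hg; linarith
  have h7 : 2 * j * (n - 2) - 2 * ((j - 1) * (j - 1)) - (j + 1) * (n - 2 - j) ≤ 2 * c := by
    nlinarith
  obtain ⟨t, ht⟩ : ∃ t, n = 3 * j + t + 2 := ⟨n - 2 - 3 * j, by ring⟩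
  subst ht
  have h8 : 0 ≤ t := by linarith
  have h9 : 0 ≤ (j - 1) * t := mul_nonneg (by linarith) h8
  nlinarith

theorem arith_g1 (i N r c : ℤ)
    (b2 : (i + 1) * (2 * (N - 2 - 1) - (i + 1 + 1) * (r - 2)) + 2 * (N - 1 - (N - 2)) ≤ 2 * c)
    (h : 0 ≤ i * (i - 1)) :
    (i + 1) * (2 * (N - 1) - (i + 1 + 1) * (r - 1)) ≤ 2 * c := by
  have e : (i + 1) * (2 * (N - 1) - (i + 1 + 1) * (r - 1)) =
    (i + 1) * (2 * (N - 2 - 1) - (i + 1 + 1) * (r - 2)) + 2 * (N - 1 - (N - 2)) -
      i * (i - 1) := by ring
  rw [e]
  linarith

theorem arith_g0 (i N r c : ℤ)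
    (b2 : (i + 1) * (2 * (N - 1 - 1) - (i + 1 + 1) * (r - 2)) + 2 * (N - 1 - (N - 1)) ≤ 2 * c)
    (h : 0 ≤ i * (i + 1)) :
    (i + 1) * (2 * (N - 1) - (i + 1 + 1) * (r - 1)) ≤ 2 * c := by
  have e : (i + 1) * (2 * (N - 1) - (i + 1 + 1) * (r - 1)) =
    (i + 1) * (2 * (N - 1 - 1) - (i + 1 + 1) * (r - 2)) + 2 * (N - 1 - (N - 1)) -
      i * (i + 1) := by ring
  rw [e]
  linarith

theorem arith_del (i N r c d : ℤ) (hd : i + 1 ≤ d)
    (h : (i + 1) * (2 * (N - 1 - 1) - (i + 1 + 1) * (r - 1)) ≤ 2 * c) :
    (i + 1) * (2 * (N - 1) - (i + 1 + 1) * (r - 1)) ≤ 2 * (c + d) := by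
  have e : (i + 1) * (2 * (N - 1) - (i + 1 + 1) * (r - 1)) =
    (i + 1) * (2 * (N - 1 - 1) - (i + 1 + 1) * (r - 1)) + 2 * (i + 1) := by ring
  rw [e]
  linarith

theorem arith_red (i N r : ℤ) (h7 : N - 1 ≤ (i + 1) * (r - 1)) :
    (i + 1) * (2 * (N - 1) - (i + 1 + 1) * (r - 1)) ≤ i * (2 * (N - 1) - (i + 1) * (r - 1)) := by
  have e : (i + 1) * (2 * (N - 1) - (i + 1 + 1) * (r - 1)) =
    i * (2 * (N - 1) - (i + 1) * (r - 1)) + 2 * ((N - 1) - (i + 1) * (r - 1)) := by ring
  rw [e]
  linarith

theorem arith_r3 (i N c : ℤ) (h4 : 4 ≤ N) (h25 : (N - 1) * (N - 3) ≤ 3 * c) :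
    (i + 1) * (2 * (N - 1) - (i + 1 + 1) * (3 - 1)) ≤ 2 * c := by
  have h1 : 0 ≤ (N - 2 - 2 * (i + 1)) * (N - 2 - 2 * (i + 1)) := mul_self_nonneg _
  have h2 : 0 ≤ (N - 4) * N := mul_nonneg (by linarith) (by linarith)
  nlinarith

theorem arith_l7 (i N r : ℤ) (h3 : 3 ≤ r) (hi : 0 ≤ i) (hjn : (i + 1) * (r - 1) ≤ N - 2) :
    2 * (i + 1) ≤ N + 1 - r := by
  have h4 : 0 ≤ i * (r - 3) := mul_nonneg hi (by linarith)
  nlinarith

theorem arith_r2 (j N c : ℤ) (h4 : (N - 1) * (N - 2) ≤ 2 * c) :
    j * (2 * (N - 1) - (j + 1) * (2 - 1)) ≤ 2 * c := by
  have h8 : 0 ≤ (N - 1 - j) * (N - 2 - j) := by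
    rcases le_or_gt (N - 1 - j) 0 with h | h
    · exact mul_nonneg_of_nonpos_of_nonpos h (by linarith)
    · exact mul_nonneg h.le (by linarith [Int.add_one_le_iff.mpr h])
  nlinarith

theorem arith_pc (j a b rE rA rB p q c : ℤ) (hj : 0 ≤ j) (hr : rA + rB ≤ rE + 1)
    (h1 : j * (2 * (a + 1 - 1) - (j + 1) * (rA - 1)) ≤ 2 * p)
    (h2 : j * (2 * (b + 1 - 1) - (j + 1) * (rB - 1)) ≤ 2 * q) (h3 : p + q ≤ c) :
    j * (2 * (a + b + 1 - 1) - (j + 1) * (rE - 1)) ≤ 2 * c := by
  have h4 : 0 ≤ j * (j + 1) * (rE + 1 - rA - rB) :=
    mul_nonneg (mul_nonneg hj (by linarith)) (by linarith)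
  have e : j * (2 * (a + b + 1 - 1) - (j + 1) * (rE - 1)) =
    j * (2 * (a + 1 - 1) - (j + 1) * (rA - 1)) + j * (2 * (b + 1 - 1) - (j + 1) * (rB - 1)) -
    j * (j + 1) * (rE + 1 - rA - rB) := by ring
  rw [e]
  linarith

theorem lemmaA {M : RankFn ι} {E : Finset ι} (hs : Simple M E) (hc : Conn M E)
    (h2 : 2 ≤ E.card) {x : ι} (hx : x ∈ E) (j : ℕ) :
    (j : ℤ) * (2 * ((E.card : ℤ) - 1) - (j + 1) * ((M.r E : ℤ) - 1)) ≤ 2 * (cx M E x : ℤ) := by
  generalize hn : E.card = n
  induction n using Nat.strong_induction_on generalizing M E x j with
  | _ n ih =>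
  subst hn
  have hr2 : 2 ≤ M.r E := by
    obtain ⟨a, b, ha, hb, hab⟩ := Finset.one_lt_card_iff.mp (show 1 < E.card by omega)
    rw [← hs.2 a ha b hb hab]
    apply M.mono'
    intro w hw
    simp only [Finset.mem_insert, Finset.mem_singleton] at hw
    rcases hw with rfl | rfl <;> assumption
  by_cases hA : ∃ y ∈ E, ¬ Conn (con M y) (E.erase y)
  · -- parallel connection
    obtain ⟨y, hy, hyc⟩ := hA
    have hy1 := hs.1 y hy
    unfold Conn at hyc
    push Not at hyc
    obtain ⟨A, hAE, hAn, hAne, hA⟩ := hyc
    set B := E.erase y \ A with hB
    have hBn : B.Nonempty := by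
      rw [hB, Finset.sdiff_nonempty]
      intro hh
      exact hAne (Finset.Subset.antisymm hAE hh)
    have hAB : A ∪ B = E.erase y := Finset.union_sdiff_of_subset hAE
    have hBA : B ∪ A = E.erase y := by rw [Finset.union_comm]; exact hAB
    have hd : Disjoint A B := Finset.disjoint_sdiff
    have e1 := con_r M hy1 (E.erase y)
    have e2 := con_r M hy1 A
    have e3 := con_r M hy1 B
    rw [Finset.insert_erase hy] at e1
    have hr : M.r (insert y A) + M.r (insert y B) ≤ M.r E + 1 := by omega
    have hr' : M.r (insert y B) + M.r (insert y A) ≤ M.r E + 1 := by omega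
    have hcA := hc.piece h2 hy hAB hd hBn hr
    have hcB := hc.piece h2 hy hBA hd.symm hAn hr'
    have hBE : B ⊆ E.erase y := hAB ▸ Finset.subset_union_right
    have hyA : y ∉ A := fun hh => (Finset.mem_erase.mp (hAE hh)).1 rfl
    have hyB : y ∉ B := fun hh => (Finset.mem_erase.mp (hBE hh)).1 rfl
    have hsA : insert y A ⊆ E := Finset.insert_subset hy (hAE.trans (Finset.erase_subset y E))
    have hsB : insert y B ⊆ E := Finset.insert_subset hy (hBE.trans (Finset.erase_subset y E))
    have cA : (insert y A).card = A.card + 1 := Finset.card_insert_of_notMem hyA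
    have cB : (insert y B).card = B.card + 1 := Finset.card_insert_of_notMem hyB
    have cAB : A.card + B.card + 1 = E.card := by
      rw [← Finset.card_union_of_disjoint hd, hAB, Finset.card_erase_add_one hy]
    have pA := Finset.card_pos.mpr hAn
    have pB := Finset.card_pos.mpr hBn
    have arith : ∀ a b : ℤ,
        (j : ℤ) * (2 * (((insert y A).card : ℤ) - 1) - (j + 1) * ((M.r (insert y A) : ℤ) - 1)) ≤
          2 * a →
        (j : ℤ) * (2 * (((insert y B).card : ℤ) - 1) - (j + 1) * ((M.r (insert y B) : ℤ) - 1)) ≤
          2 * b → a + b ≤ (cx M E x : ℤ) →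
        (j : ℤ) * (2 * ((E.card : ℤ) - 1) - (j + 1) * ((M.r E : ℤ) - 1)) ≤ 2 * (cx M E x : ℤ) := by
      intro a b h1 h2 h3
      rw [cA] at h1
      rw [cB] at h2
      rw [← cAB]
      push_cast at h1 h2 ⊢
      exact arith_pc j A.card B.card (M.r E) (M.r (insert y A)) (M.r (insert y B)) a b _
        (by positivity) (by exact_mod_cast hr) h1 h2 h3
    by_cases hxy : x = y
    · subst hxy
      have i1 := ih _ (by omega) (hs.subset hsA) hcA (by omega) (Finset.mem_insert_self x A) j rfl
      have i2 := ih _ (by omega) (hs.subset hsB) hcB (by omega) (Finset.mem_insert_self x B) j rfl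
      have i3 := cx_split_self hy hy1 hAB hd
      exact arith _ _ i1 i2 (by exact_mod_cast i3)
    · have hxAB : x ∈ A ∨ x ∈ B := by
        rw [← Finset.mem_union, hAB]; exact Finset.mem_erase.mpr ⟨hxy, hx⟩
      rcases hxAB with hxA | hxB
      · have i1 := ih _ (by omega) (hs.subset hsA) hcA (by omega)
          (Finset.mem_insert_of_mem hxA) j rfl
        have i2 := ih _ (by omega) (hs.subset hsB) hcB (by omega)
          (Finset.mem_insert_self y B) j rfl
        have i3 := cx_split hc h2 hy hAB hd hBn hr hxA
        exact arith _ _ i1 i2 (by exact_mod_cast i3)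
      · have i1 := ih _ (by omega) (hs.subset hsA) hcA (by omega)
          (Finset.mem_insert_self y A) j rfl
        have i2 := ih _ (by omega) (hs.subset hsB) hcB (by omega)
          (Finset.mem_insert_of_mem hxB) j rfl
        have i3 := cx_split hc h2 hy hBA hd.symm hAn hr' hxB
        exact arith _ _ i1 i2 (by rw [add_comm]; exact_mod_cast i3)
  · push Not at hA
    rcases Nat.lt_or_ge 2 (M.r E) with hr3 | hr2'
    · -- rank at least 3
      have hEx := (hc.nl h2 hx).2
      have hnr : M.r E + 1 ≤ E.card := by
        have h5 := r_le_card M (E.erase x)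
        have h6 := Finset.card_erase_add_one hx
        omega
      induction j with
      | zero => simp
      | succ i ihj =>
      rcases Nat.lt_or_ge (E.card - 2) ((i + 1) * (M.r E - 1)) with hbig | hsmall
      · -- reduce to smaller `j`
        refine le_trans ?_ ihj
        have h7 : (E.card : ℤ) - 1 ≤ ((i : ℤ) + 1) * ((M.r E : ℤ) - 1) := by
          have h8 : E.card - 1 ≤ (i + 1) * (M.r E - 1) := by omega
          have h9 : ((E.card - 1 : ℕ) : ℤ) ≤ (((i + 1) * (M.r E - 1) : ℕ) : ℤ) := by
            exact_mod_cast h8
          rw [Nat.cast_sub (by omega)] at h9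
          push_cast [Nat.cast_sub (show 1 ≤ M.r E by omega)] at h9
          exact h9
        push_cast
        exact arith_red i E.card (M.r E) h7
      · have hjn : ((i : ℤ) + 1) * ((M.r E : ℤ) - 1) ≤ (E.card : ℤ) - 2 := by
          have h9 : (((i + 1) * (M.r E - 1) : ℕ) : ℤ) ≤ ((E.card - 2 : ℕ) : ℤ) := by
            exact_mod_cast hsmall
          rw [Nat.cast_sub (by omega)] at h9
          push_cast [Nat.cast_sub (show 1 ≤ M.r E by omega)] at h9
          exact h9
        clear ihj
        by_cases hT : ∃ z ∈ E, ∃ z' ∈ E, z ≠ x ∧ z' ≠ x ∧ z ≠ z' ∧ M.r {x, z, z'} = 2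
        · -- a long line through `x`
          obtain ⟨z, hz, z', hz', hzx, hzx', hzz, hr⟩ := hT
          have key : ∀ z ∈ E, ∀ z' ∈ E, z ≠ x → z' ≠ x → z ≠ z' → M.r {x, z, z'} = 2 →
              cxy M E x z' ≤ cxy M E x z →
              ((i + 1 : ℕ) : ℤ) * (2 * ((E.card : ℤ) - 1) - (((i + 1 : ℕ) : ℤ) + 1) *
                ((M.r E : ℤ) - 1)) ≤ 2 * (cx M E x : ℤ) := by
            intro z hz z' hz' hzx hzx' hzz hr hle
            have l1 := line_pair hs hx (hA x hx) hz hz' hzx hzx' hzz hr
            have l2 := line_del hs hc hx hz hz' hzx hzx' hzz hr (hA x hx) (hA z' hz') (by omega)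
            have c1 := Finset.card_erase_add_one hz
            have i1 := ih _ (show (E.erase z).card < E.card by omega)
              (hs.subset (Finset.erase_subset z E)) l2 (by omega)
              (Finset.mem_erase.mpr ⟨hzx.symm, hx⟩) (i + 1) rfl
            rw [(hc.nl h2 hz).2] at i1
            have l3 := cx_del M E x z
            have l4 : (E.card : ℤ) + 1 - M.r E ≤ 2 * cxy M E x z := by
              have : (E.card : ℤ) + 1 ≤ M.r E + (cxy M E x z + cxy M E x z') := by
                exact_mod_cast l1
              have : (cxy M E x z' : ℤ) ≤ cxy M E x z := by exact_mod_cast hle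
              linarith
            have l5 : (cx M E x : ℤ) = cx M (E.erase z) x + cxy M E x z := by exact_mod_cast l3
            have l6 : ((E.erase z).card : ℤ) = E.card - 1 := by
              have : ((E.erase z).card : ℤ) + 1 = E.card := by exact_mod_cast c1
              linarith
            have l7 : 2 * ((i : ℤ) + 1) ≤ (E.card : ℤ) + 1 - M.r E :=
              arith_l7 i E.card (M.r E) (by exact_mod_cast hr3) (by positivity) hjn
            rw [l6] at i1
            rw [l5]
            push_cast at i1 ⊢
            exact arith_del i E.card (M.r E) _ _ (by linarith) i1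
          rcases le_total (cxy M E x z') (cxy M E x z) with hle | hle
          · exact key z hz z' hz' hzx hzx' hzz hr hle
          · apply key z' hz' z hz hzx' hzx hzz.symm _ hle
            rw [Finset.pair_comm z' z]
            exact hr
        · push Not at hT
          -- all circuits through `x` have at least 4 elements
          have hsz : ∀ C ∈ (circs M E).filter (fun C => x ∈ C), 4 ≤ C.card := by
            intro C hC
            rw [Finset.mem_filter, mem_circs] at hC
            have h10 := hC.1.2.r_add_one
            by_contra hlt
            push Not at hlt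
            -- `C` contains at least three elements
            have h11 : 2 < C.card := by
              by_contra hle
              push Not at hle
              have hpos := Finset.card_pos.mpr hC.1.2.nonempty
              rcases Nat.lt_or_ge C.card 2 with h1 | h1
              · obtain ⟨a, ha⟩ := Finset.card_eq_one.mp (show C.card = 1 by omega)
                have : a ∈ E := hC.1.1 (by rw [ha]; simp)
                have := hs.1 a this
                rw [ha] at h10
                simp only [Finset.card_singleton] at h10
                omega
              · obtain ⟨a, b, hab, hCab⟩ := Finset.card_eq_two.mp (show C.card = 2 by omega)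
                have ha : a ∈ E := hC.1.1 (by rw [hCab]; simp)
                have hb : b ∈ E := hC.1.1 (by rw [hCab]; simp)
                have h12 := hs.2 a ha b hb hab
                rw [hCab, Finset.card_pair hab] at h10
                omega
            have h13 : (C.erase x).card = 2 := by
              rw [Finset.card_erase_of_mem hC.2]; omega
            obtain ⟨a, b, hab, hCab⟩ := Finset.card_eq_two.mp h13
            have ma : a ∈ C.erase x := by rw [hCab]; simp
            have mb : b ∈ C.erase x := by rw [hCab]; simp
            rw [Finset.mem_erase] at ma mb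
            apply hT a (hC.1.1 ma.2) b (hC.1.1 mb.2) ma.1 mb.1 hab
            have h14 : ({x, a, b} : Finset ι) = C := by
              rw [← hCab, Finset.insert_erase hC.2]
            rw [h14]
            omega
          have hcnt : 3 * (cx M E x) ≤ ∑ y ∈ E.erase x, cxy M E x y := by
            rw [sum_cxy]
            unfold cx
            rw [mul_comm, ← smul_eq_mul, ← Finset.sum_const]
            apply Finset.sum_le_sum
            intro C hC
            have := hsz C hC
            omega
          have hEx1 := Finset.card_erase_add_one hx
          rcases Nat.lt_or_ge 3 (M.r E) with hr4 | hr3'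
          · -- rank at least 4
            -- contraction bound
            have bound : ∀ y ∈ E, y ≠ x → ∃ K ⊆ E.erase y,
                (∀ z ∈ E.erase y \ K, ∃ k ∈ K, Par (con M y) z k) ∧
                (E.erase y).card ≤ cxy M E x y + K.card ∧
                ((i : ℤ) + 1) * (2 * ((K.card : ℤ) - 1) - ((i : ℤ) + 1 + 1) *
                  ((M.r E : ℤ) - 2)) + 2 * (((E.erase y).card : ℤ) - K.card) ≤
                  2 * (cx M E x : ℤ) := by
              intro y hy hyx
              have hy1 := hs.1 y hy
              have hxF : x ∈ E.erase y := Finset.mem_erase.mpr ⟨hyx.symm, hx⟩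
              obtain ⟨K, hKF, hKs, hxK, hKp⟩ := exists_transversal (con M y) (simple_con hs hy) hxF
              refine ⟨K, hKF, hKp, ?_, ?_⟩
              · apply par_le_cxy hs hy hKF hKp (hA y hy) hxK
                intro z hz hzx hp
                rw [Finset.mem_erase] at hz
                have h15 := par_r hy1 hp
                apply hT z hz.2 y hy hzx hyx hz.1
                rw [← h15]
                congr 1
                ext w; simp only [Finset.mem_insert, Finset.mem_singleton]; tauto
              · obtain ⟨k1, k2, k3⟩ := Conn.del_many hKF hKp (hA y hy) hxK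
                have e1 := con_r M hy1 (E.erase y)
                rw [Finset.insert_erase hy] at e1
                have hKr : (con M y).r K + 1 = M.r E := by rw [k2]; exact e1
                have hKc2 : 2 ≤ K.card := by
                  have := r_le_card (con M y) K
                  omega
                have hKc := Finset.card_le_card hKF
                have hyc := Finset.card_erase_add_one hy
                have i1 := ih K.card (by omega) hKs k1 hKc2 hxK (i + 1) rfl
                have k4 := cx_con_le hy hy1 x (M := M)
                have k5 : (cx (con M y) K x : ℤ) + (E.erase y).card ≤ cx M E x + K.card := by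
                  have : cx (con M y) K x + (E.erase y).card ≤ cx M E x + K.card := by omega
                  exact_mod_cast this
                have k6 : ((con M y).r K : ℤ) = M.r E - 1 := by
                  have : ((con M y).r K : ℤ) + 1 = M.r E := by exact_mod_cast hKr
                  linarith
                rw [k6] at i1
                push_cast at i1
                have k7 : (M.r E : ℤ) - 1 - 1 = M.r E - 2 := by ring
                rw [k7] at i1
                linarith
            by_cases hD : ∃ y ∈ E, y ≠ x ∧ ¬ Conn M (E.erase y)
            · -- at most one element lost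
              obtain ⟨y, hy, hyx, hync⟩ := hD
              obtain ⟨K, hKF, hKp, b1, b2⟩ := bound y hy hyx
              have b3 := not_conn_del hs hc h2 hy hKF hKp hync
              have hKc := Finset.card_le_card hKF
              have hyc := Finset.card_erase_add_one hy
              have b4 : ((E.erase y).card : ℤ) = E.card - 1 := by
                have : ((E.erase y).card : ℤ) + 1 = E.card := by exact_mod_cast hyc
                linarith
              rw [b4] at b2
              push_cast
              rcases Nat.lt_or_ge K.card (E.erase y).card with hlt | hge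
              · have : (K.card : ℤ) = E.card - 2 := by
                  have : K.card + 2 = E.card := by omega
                  have : (K.card : ℤ) + 2 = E.card := by exact_mod_cast this
                  linarith
                rw [this] at b2
                have h16 : (0 : ℤ) ≤ (i : ℤ) * ((i : ℤ) - 1) := by
                  rcases Nat.eq_zero_or_pos i with h | h
                  · subst h; simp
                  · apply mul_nonneg (by positivity)
                    have : (1 : ℤ) ≤ i := by exact_mod_cast h
                    linarith
                exact arith_g1 i E.card (M.r E) _ b2 h16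
              · have : (K.card : ℤ) = E.card - 1 := by
                  have : K.card + 1 = E.card := by omega
                  have : (K.card : ℤ) + 1 = E.card := by exact_mod_cast this
                  linarith
                rw [this] at b2
                have h16 : (0 : ℤ) ≤ (i : ℤ) * ((i : ℤ) + 1) := by positivity
                exact arith_g0 i E.card (M.r E) _ b2 h16
            · push Not at hD
              by_cases hbig : ∃ y ∈ E, y ≠ x ∧ i + 1 ≤ cxy M E x y
              · obtain ⟨y, hy, hyx, hle⟩ := hbig
                have hyc := Finset.card_erase_add_one hy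
                have i1 := ih _ (show (E.erase y).card < E.card by omega)
                  (hs.subset (Finset.erase_subset y E)) (hD y hy hyx) (by omega)
                  (Finset.mem_erase.mpr ⟨hyx.symm, hx⟩) (i + 1) rfl
                rw [(hc.nl h2 hy).2] at i1
                have l5 : (cx M E x : ℤ) = cx M (E.erase y) x + cxy M E x y := by
                  exact_mod_cast cx_del M E x y
                have b4 : ((E.erase y).card : ℤ) = E.card - 1 := by
                  have : ((E.erase y).card : ℤ) + 1 = E.card := by exact_mod_cast hyc
                  linarith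
                have l6 : (i : ℤ) + 1 ≤ cxy M E x y := by exact_mod_cast hle
                rw [b4] at i1
                rw [l5]
                push_cast at i1 ⊢
                exact arith_del i E.card (M.r E) _ _ l6 i1
              · push Not at hbig
                exfalso
                obtain ⟨y, hy, hyx⟩ : ∃ y ∈ E, y ≠ x := by
                  by_contra hcon
                  push Not at hcon
                  have h17 : E ⊆ {x} := fun w hw => by
                    rw [Finset.mem_singleton]; exact hcon w hw
                  have := Finset.card_le_card h17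
                  simp at this
                  omega
                obtain ⟨K, hKF, hKp, b1, b2⟩ := bound y hy hyx
                have hKc := Finset.card_le_card hKF
                have hyc := Finset.card_erase_add_one hy
                have b4 : ((E.erase y).card : ℤ) = E.card - 1 := by
                  have : ((E.erase y).card : ℤ) + 1 = E.card := by exact_mod_cast hyc
                  linarith
                have b5 := hbig y hy hyx
                have hsum : ∑ y ∈ E.erase x, cxy M E x y ≤ (E.erase x).card * i := by
                  rw [← smul_eq_mul, ← Finset.sum_const]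
                  apply Finset.sum_le_sum
                  intro w hw
                  rw [Finset.mem_erase] at hw
                  have := hbig w hw.2 hw.1
                  omega
                have h18 : 3 * cx M E x ≤ (E.erase x).card * i := hcnt.trans hsum
                have h19 : 3 * (cx M E x : ℤ) ≤ ((E.card : ℤ) - 1) * (((i : ℤ) + 1) - 1) := by
                  have h20 : ((E.erase x).card : ℤ) = E.card - 1 := by
                    have : ((E.erase x).card : ℤ) + 1 = E.card := by exact_mod_cast hEx1
                    linarith
                  rw [← h20]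
                  have : (3 * (cx M E x : ℤ)) ≤ ((E.erase x).card : ℤ) * i := by exact_mod_cast h18
                  linarith
                apply arith_final ((i : ℤ) + 1) E.card (M.r E) (((E.erase y).card : ℤ) - K.card)
                  (cx M E x) (by linarith [show (0 : ℤ) ≤ i by positivity])
                  (by exact_mod_cast hr4) hjn (by
                    have : (K.card : ℤ) ≤ (E.erase y).card := by exact_mod_cast hKc
                    linarith) (by
                    have h21 : (E.erase y).card ≤ i + K.card := by omega
                    have : ((E.erase y).card : ℤ) ≤ i + K.card := by exact_mod_cast h21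
                    linarith) h19
                have h22 : (E.card : ℤ) - 2 - (((E.erase y).card : ℤ) - K.card) = K.card - 1 := by
                  rw [b4]; ring
                rw [h22]
                exact b2
          · -- rank 3
            have hr3e : M.r E = 3 := by omega
            have h20 : ∀ y ∈ E.erase x, E.card - 3 ≤ cxy M E x y := by
              intro y hy
              rw [Finset.mem_erase] at hy
              have := cxy_rank3 hs hc hr3e hx hy.2 hy.1 hT
              omega
            have h21 : (E.erase x).card * (E.card - 3) ≤ ∑ y ∈ E.erase x, cxy M E x y := by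
              rw [← smul_eq_mul, ← Finset.sum_const]
              exact Finset.sum_le_sum h20
            have h22 : ∑ y ∈ E.erase x, cxy M E x y ≤ 3 * cx M E x := by
              rw [sum_cxy]
              unfold cx
              rw [mul_comm, ← smul_eq_mul, ← Finset.sum_const]
              apply Finset.sum_le_sum
              intro C hC
              rw [Finset.mem_filter, mem_circs] at hC
              have h23 := hC.1.2.r_add_one
              have h24 := M.mono' hC.1.1
              omega
            have h25 : ((E.card : ℤ) - 1) * ((E.card : ℤ) - 3) ≤ 3 * cx M E x := by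
              have h26 : (((E.erase x).card * (E.card - 3) : ℕ) : ℤ) ≤ ((3 * cx M E x : ℕ) : ℤ) := by
                exact_mod_cast h21.trans h22
              push_cast [Nat.cast_sub (show 3 ≤ E.card by omega)] at h26
              have h27 : ((E.erase x).card : ℤ) = E.card - 1 := by
                have : ((E.erase x).card : ℤ) + 1 = E.card := by exact_mod_cast hEx1
                linarith
              rw [h27] at h26
              exact h26
            have h4 : (4 : ℤ) ≤ E.card := by
              have : 4 ≤ E.card := by omega
              exact_mod_cast this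
            rw [hr3e]
            push_cast
            exact arith_r3 i E.card _ h4 h25
    · -- rank 2
      have hr : M.r E = 2 := by omega
      have h3 := cx_rank2 hs hr hx
      have h4 : ((E.card : ℤ) - 1) * ((E.card : ℤ) - 2) ≤ 2 * cx M E x := by
        have h5 := Nat.choose_two_right (E.card - 1)
        have h6 : (E.card - 1) * (E.card - 1 - 1) = 2 * (E.card - 1).choose 2 := by
          rw [h5, Nat.mul_div_cancel']
          exact (Nat.even_mul_pred_self (E.card - 1)).two_dvd
        have h7 : (((E.card - 1) * (E.card - 1 - 1) : ℕ) : ℤ) ≤ ((2 * cx M E x : ℕ) : ℤ) := by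
          rw [h6]
          exact_mod_cast Nat.mul_le_mul_left 2 h3
        push_cast [Nat.cast_sub (show 1 ≤ E.card - 1 by omega),
          Nat.cast_sub (show 1 ≤ E.card by omega)] at h7
        linarith
      rw [hr]
      push_cast
      exact arith_r2 j E.card _ h4

end Pool.Agent.Helper766.Rad
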