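import Mathlib
import Pool.Agent.Helper766.Rad.Defs

set_option autoImplicit false

namespace Pool.Agent.Helper766.Rad.Plane

open Pool.Agent.Helper766.Rad

variable {ι : Type} [DecidableEq ι]

namespace R3

theorem rk_le_card (M : RankFn ι) (A : Finset ι) : M.r A ≤ A.card := by
  induction A using Finset.induction_on with
  | empty => simp [M.empty]
  | insert a s ha ih =>
    rw [Finset.card_insert_of_notMem ha]
    exact (M.insert_le s a).trans (by omega)

theorem two_le (M : RankFn ι) {E : Finset ι} (hs : Simple M E) {S : Finset ι} (hS : S ⊆ E)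
    (h2 : 2 ≤ S.card) : 2 ≤ M.r S := by
  obtain ⟨a, ha, b, hb, hab⟩ := Finset.one_lt_card.mp h2
  have := hs.2 a (hS ha) b (hS hb) hab
  rw [← this]
  apply M.mono
  intro x hx
  simp only [Finset.mem_insert, Finset.mem_singleton] at hx
  rcases hx with rfl | rfl <;> assumption

theorem mem_circs (M : RankFn ι) (E C : Finset ι) : C ∈ circs M E ↔ C ⊆ E ∧ IsCirc M C := by
  classical
  unfold circs
  simp only [Finset.mem_filter, Finset.mem_powerset]

theorem circ3 (M : RankFn ι) {E : Finset ι} (hs : Simple M E) {T : Finset ι} (hT : T ⊆ E)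
    (h3 : T.card = 3) (h2 : M.r T = 2) : T ∈ circs M E := by
  rw [mem_circs]
  refine ⟨hT, by omega, fun e he => ?_⟩
  have hc : (T.erase e).card = 2 := by rw [Finset.card_erase_of_mem he, h3]
  have h1 := two_le M hs (S := T.erase e) ((Finset.erase_subset _ _).trans hT) hc.ge
  have h2 := rk_le_card M (T.erase e)
  omega

theorem circ4 (M : RankFn ι) {E : Finset ι} (hs : Simple M E) (hE : M.r E = 3) {F : Finset ι}
    (hF : F ⊆ E) (h4 : F.card = 4) (h2 : ∀ e ∈ F, M.r (F.erase e) ≠ 2) : F ∈ circs M E := by
  rw [mem_circs]
  have := M.mono F E hF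
  refine ⟨hF, by omega, fun e he => ?_⟩
  have hc : (F.erase e).card = 3 := by rw [Finset.card_erase_of_mem he, h4]
  have h1 := two_le M hs (S := F.erase e) ((Finset.erase_subset _ _).trans hF) (by omega)
  have h2' := rk_le_card M (F.erase e)
  have := h2 e he
  omega

/-- two rank-2 sets with at least two common elements have rank-2 union -/
theorem union_rk (M : RankFn ι) {E : Finset ι} (hs : Simple M E) {A B : Finset ι} (hA : A ⊆ E)
    (hrA : M.r A ≤ 2) (hrB : M.r B ≤ 2) (hc : 2 ≤ (A ∩ B).card) : M.r (A ∪ B) ≤ 2 := by
  have h := M.submod A B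
  have h1 := two_le M hs (S := A ∩ B) (Finset.inter_subset_left.trans hA) hc
  omega

section smallLines

variable (M : RankFn ι) (E : Finset ι) (hs : Simple M E) (hE : M.r E = 3)
  (hno : ∀ F ⊆ E, F.card = 4 → M.r F = 3)

/-- collinear triples -/
def tri : Finset (Finset ι) := (E.powersetCard 3).filter (fun T => M.r T = 2)

include hs hno in
theorem tri_inter {T T' : Finset ι} (hT : T ∈ tri M E) (hT' : T' ∈ tri M E) (hne : T ≠ T') :
    (T ∩ T').card ≤ 1 := by
  unfold tri at hT hT'
  rw [Finset.mem_filter, Finset.mem_powersetCard] at hT hT'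
  by_contra hcon
  push Not at hcon
  have h1 := union_rk M hs (A := T) (B := T') hT.1.1 hT.2.le hT'.2.le hcon
  have hcard := Finset.card_union_add_card_inter T T'
  have h2 : (T ∩ T').card ≠ 3 := by
    intro h
    have e1 : T ∩ T' = T := Finset.eq_of_subset_of_card_le Finset.inter_subset_left (by omega)
    have e2 : T ∩ T' = T' := Finset.eq_of_subset_of_card_le Finset.inter_subset_right (by omega)
    exact hne (e1.symm.trans e2)
  have h3 : (T ∩ T').card ≤ 3 := by
    have := Finset.card_le_card (Finset.inter_subset_left (s₁ := T) (s₂ := T'))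
    omega
  have h4 : (T ∪ T').card = 4 := by omega
  have := hno (T ∪ T') (Finset.union_subset hT.1.1 hT'.1.1) h4
  omega

include hs hno in
theorem deg_le (p : ι) (hp : p ∈ E) :
    ((tri M E).filter (fun T => p ∈ T)).card ≤ (E.card - 1) / 2 := by
  set D := (tri M E).filter (fun T => p ∈ T) with hD
  have hdisj : ((D : Set (Finset ι))).PairwiseDisjoint (fun T => T.erase p) := by
    intro T hT T' hT' hne
    have hT1 := (Finset.mem_filter.mp (Finset.mem_coe.mp hT))
    have hT2 := (Finset.mem_filter.mp (Finset.mem_coe.mp hT'))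
    have h := tri_inter M E hs hno hT1.1 hT2.1 hne
    rw [Function.onFun, Finset.disjoint_left]
    intro x hx hx'
    have hxp : x ≠ p := Finset.ne_of_mem_erase hx
    have : 1 < (T ∩ T').card := Finset.one_lt_card.mpr
      ⟨x, Finset.mem_inter.mpr ⟨Finset.mem_of_mem_erase hx, Finset.mem_of_mem_erase hx'⟩,
        p, Finset.mem_inter.mpr ⟨hT1.2, hT2.2⟩, hxp⟩
    omega
  have hcard := Finset.card_biUnion hdisj
  have hsum : ∑ T ∈ D, (T.erase p).card = ∑ T ∈ D, 2 := by
    apply Finset.sum_congr rfl
    intro T hT
    have hT1 := Finset.mem_filter.mp hT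
    have hT2 := hT1.1
    unfold tri at hT2
    rw [Finset.mem_filter, Finset.mem_powersetCard] at hT2
    rw [Finset.card_erase_of_mem hT1.2, hT2.1.2]
  have hsub : D.biUnion (fun T => T.erase p) ⊆ E.erase p := by
    intro x hx
    rw [Finset.mem_biUnion] at hx
    obtain ⟨T, hT, hxT⟩ := hx
    have hT1 := Finset.mem_filter.mp hT
    have hT2 := hT1.1
    unfold tri at hT2
    rw [Finset.mem_filter, Finset.mem_powersetCard] at hT2
    exact Finset.mem_erase.mpr ⟨Finset.ne_of_mem_erase hxT, hT2.1.1 (Finset.mem_of_mem_erase hxT)⟩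
  have hle := Finset.card_le_card hsub
  rw [hcard, hsum, Finset.card_erase_of_mem hp] at hle
  simp at hle
  omega

include hs hno in
theorem three_tri_le : 3 * (tri M E).card ≤ E.card * ((E.card - 1) / 2) := by
  have h1 : ∑ p ∈ E, ((tri M E).filter (fun T => p ∈ T)).card = ∑ T ∈ tri M E, 3 := by
    have : ∀ p ∈ E, ((tri M E).filter (fun T => p ∈ T)).card
        = ∑ T ∈ tri M E, if p ∈ T then 1 else 0 := by
      intro p _
      rw [Finset.card_filter]
    rw [Finset.sum_congr rfl this, Finset.sum_comm]
    apply Finset.sum_congr rfl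
    intro T hT
    unfold tri at hT
    rw [Finset.mem_filter, Finset.mem_powersetCard] at hT
    rw [← hT.1.2, Finset.card_eq_sum_ones T, ← Finset.sum_filter]
    congr 1
    ext x
    simp only [Finset.mem_filter]
    constructor
    · exact fun h => h.2
    · exact fun h => ⟨hT.1.1 h, h⟩
  have h2 : ∑ p ∈ E, ((tri M E).filter (fun T => p ∈ T)).card ≤ ∑ p ∈ E, (E.card - 1) / 2 :=
    Finset.sum_le_sum (fun p hp => deg_le M E hs hno p hp)
  rw [h1] at h2
  simp at h2
  omega

/-- quadruples without collinear triple -/
def quads : Finset (Finset ι) :=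
  (E.powersetCard 4).filter (fun F => ∀ e ∈ F, M.r (F.erase e) ≠ 2)

theorem quads_ge : E.card.choose 4 ≤ (quads M E).card + (tri M E).card * (E.card - 3) := by
  have hsub : E.powersetCard 4 ⊆
      quads M E ∪ (tri M E).biUnion (fun T => (E \ T).image (fun x => insert x T)) := by
    intro F hF
    rw [Finset.mem_union]
    by_cases h : ∀ e ∈ F, M.r (F.erase e) ≠ 2
    · left
      exact Finset.mem_filter.mpr ⟨hF, h⟩
    · right
      push Not at h
      obtain ⟨e, he, h2⟩ := h
      rw [Finset.mem_powersetCard] at hF
      rw [Finset.mem_biUnion]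
      refine ⟨F.erase e, ?_, ?_⟩
      · unfold tri
        rw [Finset.mem_filter, Finset.mem_powersetCard]
        refine ⟨⟨(Finset.erase_subset _ _).trans hF.1, ?_⟩, h2⟩
        rw [Finset.card_erase_of_mem he, hF.2]
      · rw [Finset.mem_image]
        exact ⟨e, Finset.mem_sdiff.mpr ⟨hF.1 he, Finset.notMem_erase e F⟩, Finset.insert_erase he⟩
  have h1 := Finset.card_le_card hsub
  rw [Finset.card_powersetCard] at h1
  have h2 := Finset.card_union_le (quads M E)
    ((tri M E).biUnion (fun T => (E \ T).image (fun x => insert x T)))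
  have h3 : ((tri M E).biUnion (fun T => (E \ T).image (fun x => insert x T))).card
      ≤ (tri M E).card * (E.card - 3) := by
    apply Finset.card_biUnion_le_card_mul
    intro T hT
    unfold tri at hT
    rw [Finset.mem_filter, Finset.mem_powersetCard] at hT
    refine Finset.card_image_le.trans ?_
    rw [Finset.card_sdiff_of_subset hT.1.1, hT.1.2]
  omega

include hs hE in
theorem circs_ge : (quads M E).card + (tri M E).card ≤ (circs M E).card := by
  rw [← Finset.card_union_of_disjoint]
  · apply Finset.card_le_card
    intro C hC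
    rw [Finset.mem_union] at hC
    rcases hC with hC | hC
    · unfold quads at hC
      rw [Finset.mem_filter, Finset.mem_powersetCard] at hC
      exact circ4 M hs hE hC.1.1 hC.1.2 hC.2
    · unfold tri at hC
      rw [Finset.mem_filter, Finset.mem_powersetCard] at hC
      exact circ3 M hs hC.1.1 hC.1.2 hC.2
  · rw [Finset.disjoint_left]
    intro C h1 h2
    unfold quads at h1
    unfold tri at h2
    rw [Finset.mem_filter, Finset.mem_powersetCard] at h1 h2
    omega

/-- `C(n,3)` and `C(n,4)` in closed form -/
theorem choose3 (n : ℕ) : (n + 3).choose 3 * 6 = (n + 3) * (n + 2) * (n + 1) := by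
  have := Nat.descFactorial_eq_factorial_mul_choose (n + 3) 3
  simp [Nat.descFactorial, Nat.factorial] at this
  nlinarith

theorem choose4 (n : ℕ) : (n + 4).choose 4 * 24 = (n + 4) * (n + 3) * (n + 2) * (n + 1) := by
  have := Nat.descFactorial_eq_factorial_mul_choose (n + 4) 4
  simp [Nat.descFactorial, Nat.factorial] at this
  nlinarith

theorem choose2 (n : ℕ) : (n + 2).choose 2 * 2 = (n + 2) * (n + 1) := by
  have := Nat.descFactorial_eq_factorial_mul_choose (n + 2) 2
  simp [Nat.descFactorial, Nat.factorial] at this
  nlinarith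

include hs hE hno in
theorem small_case (h6 : 6 ≤ E.card) (hF : E.card = 7 → (tri M E).card ≤ 6) :
    (E.card - 1).choose 3 ≤ (circs M E).card + (E.card - 4) + (if E.card = 6 then 1 else 0) := by
  have a1 := three_tri_le M E hs hno
  have a2 := quads_ge M E
  have a3 := circs_ge M E hs hE
  set t := (tri M E).card
  set q := (quads M E).card
  set c := (circs M E).card
  obtain h | h | h : E.card = 6 ∨ E.card = 7 ∨ 8 ≤ E.card := by omega
  · rw [h] at a1 a2 ⊢
    simp [Nat.choose] at a1 a2 ⊢
    omega
  · have a4 := hF h
    rw [h] at a1 a2 ⊢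
    simp [Nat.choose] at a1 a2 ⊢
    omega
  · obtain ⟨m, hm⟩ : ∃ m, E.card = m + 8 := ⟨E.card - 8, by omega⟩
    rw [hm] at a1 a2 ⊢
    have e1 : m + 8 - 1 = (m + 4) + 3 := by omega
    have e2 : m + 8 = (m + 4) + 4 := by omega
    have e3 : m + 8 - 3 = m + 5 := by omega
    have e4 : m + 8 - 4 = m + 4 := by omega
    have c3 := choose3 (m + 4)
    have c4 := choose4 (m + 4)
    rw [e1] at a1 ⊢
    rw [e4]
    rw [e3] at a2
    have a1' : 6 * t ≤ (m + 8) * (m + 7) := by
      have : 2 * ((m + 4 + 3) / 2) ≤ m + 7 := by omega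
      calc 6 * t = 2 * (3 * t) := by ring
        _ ≤ 2 * ((m + 8) * ((m + 4 + 3) / 2)) := by omega
        _ = (m + 8) * (2 * ((m + 4 + 3) / 2)) := by ring
        _ ≤ (m + 8) * (m + 7) := Nat.mul_le_mul_left _ this
    rw [e2] at a2
    have hc : (m + 4 + 4).choose 4 ≤ c + t * (m + 4) := by
      nlinarith
    have h6t : 24 * (t * (m + 4)) ≤ 4 * ((m + 8) * (m + 7) * (m + 4)) := by
      nlinarith
    have goal24 : (m + 4 + 3).choose 3 * 24 ≤ 24 * (c + (m + 4)) := by
      have : (m + 4 + 3).choose 3 * 24 = 4 * ((m + 4 + 3) * (m + 4 + 2) * (m + 4 + 1)) := by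
        nlinarith
      rw [this]
      have hc' : (m + 4 + 4) * (m + 4 + 3) * (m + 4 + 2) * (m + 4 + 1)
          ≤ 24 * c + 24 * (t * (m + 4)) := by
        rw [← c4]; nlinarith
      have hc'' : (m + 4 + 4) * (m + 4 + 3) * (m + 4 + 2) * (m + 4 + 1)
          ≤ 24 * c + 4 * ((m + 8) * (m + 7) * (m + 4)) := by omega
      nlinarith [mul_nonneg (Nat.zero_le m) (Nat.zero_le m), Nat.zero_le (m^3), Nat.zero_le (m^4),
        Nat.zero_le (m^2)]
    have : (if (m + 8) = 6 then 1 else 0) = 0 := by
      rw [if_neg (by omega)]
    omega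

end smallLines

section bigLine

variable (M : RankFn ι) (E L : Finset ι) (hs : Simple M E) (hE : M.r E = 3) (hLE : L ⊆ E)
  (hL2 : M.r L = 2) (hL4 : 4 ≤ L.card) (hcl : ∀ x ∈ E \ L, M.r (insert x L) = 3)

include hs hLE hL2 hcl in
/-- if `a ≠ b` in `L` and `p ∉ L` then `{a,b,p}` has rank 3 -/
theorem rk_abp {a b p : ι} (ha : a ∈ L) (hb : b ∈ L) (hab : a ≠ b) (hp : p ∈ E \ L)
    {S : Finset ι} (hS : {a, b, p} ⊆ S) : M.r S ≠ 2 ∧ 3 ≤ M.r S := by
  have h0 : 3 ≤ M.r {a, b, p} := by
    by_contra hcon
    push Not at hcon
    have h := union_rk M hs (A := L) (B := {a, b, p}) hLE hL2.le (by omega) (by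
      have : ({a, b} : Finset ι) ⊆ L ∩ {a, b, p} := by
        intro x hx
        simp only [Finset.mem_insert, Finset.mem_singleton] at hx
        rcases hx with rfl | rfl
        · simp [ha]
        · simp [hb]
      have h2 := Finset.card_le_card this
      rw [Finset.card_pair hab] at h2
      exact h2)
    have h1 := hcl p hp
    have h2 := M.mono (insert p L) (L ∪ {a, b, p}) (by
      intro x hx
      rw [Finset.mem_insert] at hx
      rcases hx with rfl | hx
      · simp
      · simp [hx])
    omega
  have := M.mono _ _ hS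
  omega

/-- points of `L` collinear with `p`, `q` -/
def bad (p q : ι) : Finset ι := L.filter (fun a => M.r {a, p, q} = 2)

include hs hLE hL2 hcl in
theorem bad_le {p q : ι} (hp : p ∈ E \ L) (hq : q ∈ E \ L) (hpq : p ≠ q) :
    (bad M L p q).card ≤ 1 := by
  by_contra hcon
  push Not at hcon
  obtain ⟨a, ha, b, hb, hab⟩ := Finset.one_lt_card.mp hcon
  unfold bad at ha hb
  rw [Finset.mem_filter] at ha hb
  have hpE := (Finset.mem_sdiff.mp hp).1
  have hqE := (Finset.mem_sdiff.mp hq).1
  have h := union_rk M hs (A := {a, p, q}) (B := {b, p, q}) (by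
      intro x hx
      simp only [Finset.mem_insert, Finset.mem_singleton] at hx
      rcases hx with rfl | rfl | rfl
      · exact hLE ha.1
      · exact hpE
      · exact hqE) ha.2.le hb.2.le (by
      have : ({p, q} : Finset ι) ⊆ {a, p, q} ∩ {b, p, q} := by
        intro x hx
        simp only [Finset.mem_insert, Finset.mem_singleton] at hx
        rcases hx with rfl | rfl <;> simp
      have h2 := Finset.card_le_card this
      rw [Finset.card_pair hpq] at h2
      exact h2)
  have h2 := (rk_abp M E L hs hLE hL2 hcl ha.1 hb.1 hab hp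
    (S := {a, p, q} ∪ {b, p, q}) (by
      intro x hx
      simp only [Finset.mem_insert, Finset.mem_singleton] at hx
      rcases hx with rfl | rfl | rfl <;> simp)).2
  omega

/-- circuits with a given trace outside `L` -/
noncomputable def fib (P : Finset ι) : Finset (Finset ι) := (circs M E).filter (fun C => C \ L = P)

include hs hLE hL2 in
theorem fib_empty : L.card.choose 3 ≤ (fib M E L ∅).card := by
  rw [← Finset.card_powersetCard]
  apply Finset.card_le_card
  intro T hT
  rw [Finset.mem_powersetCard] at hT
  unfold fib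
  rw [Finset.mem_filter]
  refine ⟨circ3 M hs (hT.1.trans hLE) hT.2 ?_, Finset.sdiff_eq_empty_iff_subset.mpr hT.1⟩
  have h1 := M.mono _ _ hT.1
  have h2 := two_le M hs (hT.1.trans hLE) (by omega)
  omega

include hs hLE hL2 hcl hE in
theorem quad_mem {a b p q : ι} (ha : a ∈ L) (hb : b ∈ L) (hab : a ≠ b) (hp : p ∈ E \ L)
    (hq : q ∈ E \ L) (hpq : p ≠ q) (ha' : M.r {a, p, q} ≠ 2) (hb' : M.r {b, p, q} ≠ 2) :
    ({a, b} ∪ {p, q} : Finset ι) ∈ fib M E L {p, q} := by
  have hpE := Finset.mem_sdiff.mp hp
  have hqE := Finset.mem_sdiff.mp hq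
  have hap : a ≠ p := fun h => hpE.2 (h ▸ ha)
  have haq : a ≠ q := fun h => hqE.2 (h ▸ ha)
  have hbp : b ≠ p := fun h => hpE.2 (h ▸ hb)
  have hbq : b ≠ q := fun h => hqE.2 (h ▸ hb)
  unfold fib
  rw [Finset.mem_filter]
  constructor
  · apply circ4 M hs hE
    · intro x hx
      simp only [Finset.mem_union, Finset.mem_insert, Finset.mem_singleton] at hx
      rcases hx with (rfl | rfl) | (rfl | rfl)
      · exact hLE ha
      · exact hLE hb
      · exact hpE.1
      · exact hqE.1
    · rw [Finset.card_union_of_disjoint, Finset.card_pair hab, Finset.card_pair hpq]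
      rw [Finset.disjoint_left]
      intro x hx hx'
      simp only [Finset.mem_insert, Finset.mem_singleton] at hx hx'
      rcases hx with rfl | rfl <;> rcases hx' with h | h <;> contradiction
    · intro e he
      simp only [Finset.mem_union, Finset.mem_insert, Finset.mem_singleton] at he
      rcases he with (rfl | rfl) | (rfl | rfl)
      · have : M.r {b, p, q} ≤ M.r (({e, b} ∪ {p, q} : Finset ι).erase e) := by
          apply M.mono
          intro x hx
          simp only [Finset.mem_insert, Finset.mem_singleton] at hx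
          rw [Finset.mem_erase]
          rcases hx with rfl | rfl | rfl
          · exact ⟨hab.symm, by simp⟩
          · exact ⟨hap.symm, by simp⟩
          · exact ⟨haq.symm, by simp⟩
        have h2 := two_le M hs (S := {b, p, q}) (by
          intro x hx
          simp only [Finset.mem_insert, Finset.mem_singleton] at hx
          rcases hx with rfl | rfl | rfl
          · exact hLE hb
          · exact hpE.1
          · exact hqE.1) (by
            have : ({p, q} : Finset ι) ⊆ {b, p, q} := by
              intro x hx; simp only [Finset.mem_insert, Finset.mem_singleton] at hx ⊢; tauto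
            have := Finset.card_le_card this
            rw [Finset.card_pair hpq] at this
            exact this)
        omega
      · have : M.r {a, p, q} ≤ M.r (({a, e} ∪ {p, q} : Finset ι).erase e) := by
          apply M.mono
          intro x hx
          simp only [Finset.mem_insert, Finset.mem_singleton] at hx
          rw [Finset.mem_erase]
          rcases hx with rfl | rfl | rfl
          · exact ⟨hab, by simp⟩
          · exact ⟨hbp.symm, by simp⟩
          · exact ⟨hbq.symm, by simp⟩
        have h2 := two_le M hs (S := {a, p, q}) (by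
          intro x hx
          simp only [Finset.mem_insert, Finset.mem_singleton] at hx
          rcases hx with rfl | rfl | rfl
          · exact hLE ha
          · exact hpE.1
          · exact hqE.1) (by
            have : ({p, q} : Finset ι) ⊆ {a, p, q} := by
              intro x hx; simp only [Finset.mem_insert, Finset.mem_singleton] at hx ⊢; tauto
            have := Finset.card_le_card this
            rw [Finset.card_pair hpq] at this
            exact this)
        omega
      · refine (rk_abp M E L hs hLE hL2 hcl ha hb hab hq ?_).1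
        intro x hx
        simp only [Finset.mem_insert, Finset.mem_singleton] at hx
        rw [Finset.mem_erase]
        rcases hx with rfl | rfl | rfl
        · exact ⟨hap, by simp⟩
        · exact ⟨hbp, by simp⟩
        · exact ⟨hpq.symm, by simp⟩
      · refine (rk_abp M E L hs hLE hL2 hcl ha hb hab hp ?_).1
        intro x hx
        simp only [Finset.mem_insert, Finset.mem_singleton] at hx
        rw [Finset.mem_erase]
        rcases hx with rfl | rfl | rfl
        · exact ⟨haq, by simp⟩
        · exact ⟨hbq, by simp⟩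
        · exact ⟨hpq, by simp⟩
  · ext x
    simp only [Finset.mem_sdiff, Finset.mem_union, Finset.mem_insert, Finset.mem_singleton]
    constructor
    · rintro ⟨(rfl | rfl) | h, h'⟩
      · exact absurd ha h'
      · exact absurd hb h'
      · exact h
    · rintro (rfl | rfl)
      · exact ⟨by simp, hpE.2⟩
      · exact ⟨by simp, hqE.2⟩

include hs hLE hL2 hcl hE hL4 in
theorem fib_pair {P : Finset ι} (hP : P ⊆ E \ L) (hP2 : P.card = 2) :
    (L.card - 1).choose 2 + 1 ≤ (fib M E L P).card := by
  obtain ⟨p, q, hpq, rfl⟩ := Finset.card_eq_two.mp hP2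
  have hp : p ∈ E \ L := hP (by simp)
  have hq : q ∈ E \ L := hP (by simp)
  have hpE := Finset.mem_sdiff.mp hp
  have hqE := Finset.mem_sdiff.mp hq
  have hbad := bad_le M E L hs hLE hL2 hcl hp hq hpq
  set G := L \ bad M L p q with hG
  have hGc : G.card = L.card - (bad M L p q).card :=
    Finset.card_sdiff_of_subset (Finset.filter_subset _ _)
  have himg : (G.powersetCard 2).image (fun S => S ∪ {p, q}) ⊆ fib M E L {p, q} := by
    intro C hC
    rw [Finset.mem_image] at hC
    obtain ⟨S, hS, rfl⟩ := hC
    rw [Finset.mem_powersetCard] at hS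
    obtain ⟨a, b, hab, rfl⟩ := Finset.card_eq_two.mp hS.2
    have ha := Finset.mem_sdiff.mp (hS.1 (by simp : a ∈ ({a, b} : Finset ι)))
    have hb := Finset.mem_sdiff.mp (hS.1 (by simp : b ∈ ({a, b} : Finset ι)))
    unfold bad at ha hb
    simp only [Finset.mem_filter, not_and] at ha hb
    exact quad_mem M E L hs hE hLE hL2 hcl ha.1 hb.1 hab hp hq hpq (ha.2 ha.1) (hb.2 hb.1)
  have hinj : Set.InjOn (fun S : Finset ι => S ∪ {p, q}) (G.powersetCard 2 : Set (Finset ι)) := by
    intro S hS S' hS' h
    rw [Finset.mem_coe, Finset.mem_powersetCard] at hS hS'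
    have key : ∀ U : Finset ι, U ⊆ G → (U ∪ {p, q}) ∩ L = U := by
      intro U hU
      ext x
      simp only [Finset.mem_inter, Finset.mem_union, Finset.mem_insert, Finset.mem_singleton]
      constructor
      · rintro ⟨h | rfl | rfl, h'⟩
        · exact h
        · exact absurd h' hpE.2
        · exact absurd h' hqE.2
      · exact fun h => ⟨Or.inl h, (Finset.mem_sdiff.mp (hU h)).1⟩
    have h' : S ∪ {p, q} = S' ∪ {p, q} := h
    rw [← key S hS.1, ← key S' hS'.1, h']
  have hcard : ((G.powersetCard 2).image (fun S => S ∪ {p, q})).card = G.card.choose 2 := by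
    rw [Finset.card_image_of_injOn hinj, Finset.card_powersetCard]
  rcases Nat.lt_or_ge (bad M L p q).card 1 with h | h
  · have h0 : (bad M L p q).card = 0 := by omega
    have h1 := Finset.card_le_card himg
    rw [hcard, hGc, h0, Nat.sub_zero] at h1
    obtain ⟨m, hm⟩ : ∃ m, L.card = m + 1 := ⟨L.card - 1, by omega⟩
    rw [hm] at h1 ⊢
    rw [Nat.choose_succ_succ' m 1, Nat.choose_one_right] at h1
    have h11 : m.choose (1 + 1) = m.choose 2 := rfl
    have : m + 1 - 1 = m := by omega
    rw [this]
    omega
  · have h0 : (bad M L p q).card = 1 := by omega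
    obtain ⟨e, he⟩ := Finset.card_eq_one.mp h0
    have heb : e ∈ bad M L p q := by rw [he]; simp
    unfold bad at heb
    rw [Finset.mem_filter] at heb
    have hep : e ≠ p := fun h => hpE.2 (h ▸ heb.1)
    have heq : e ≠ q := fun h => hqE.2 (h ▸ heb.1)
    have h3 : ({e, p, q} : Finset ι).card = 3 := Finset.card_eq_three.mpr ⟨e, p, q, hep, heq, hpq, rfl⟩
    have hmem : ({e, p, q} : Finset ι) ∈ fib M E L {p, q} := by
      unfold fib
      rw [Finset.mem_filter]
      constructor
      · apply circ3 M hs _ h3 heb.2
        intro x hx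
        simp only [Finset.mem_insert, Finset.mem_singleton] at hx
        rcases hx with rfl | rfl | rfl
        · exact hLE heb.1
        · exact hpE.1
        · exact hqE.1
      · ext x
        simp only [Finset.mem_sdiff, Finset.mem_insert, Finset.mem_singleton]
        constructor
        · rintro ⟨rfl | h, h'⟩
          · exact absurd heb.1 h'
          · exact h
        · rintro (rfl | rfl)
          · exact ⟨by simp, hpE.2⟩
          · exact ⟨by simp, hqE.2⟩
    have hnot : ({e, p, q} : Finset ι) ∉ (G.powersetCard 2).image (fun S => S ∪ {p, q}) := by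
      intro h
      rw [Finset.mem_image] at h
      obtain ⟨S, hS, h⟩ := h
      rw [Finset.mem_powersetCard] at hS
      have : (S ∪ {p, q}).card = 4 := by
        rw [Finset.card_union_of_disjoint, hS.2, Finset.card_pair hpq]
        rw [Finset.disjoint_left]
        intro x hx hx'
        have := (Finset.mem_sdiff.mp (hS.1 hx)).1
        simp only [Finset.mem_insert, Finset.mem_singleton] at hx'
        rcases hx' with rfl | rfl
        · exact hpE.2 this
        · exact hqE.2 this
      rw [h] at this
      omega
    have h4 : insert ({e, p, q} : Finset ι) ((G.powersetCard 2).image (fun S => S ∪ {p, q}))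
        ⊆ fib M E L {p, q} := by
      intro C hC
      rw [Finset.mem_insert] at hC
      rcases hC with rfl | hC
      · exact hmem
      · exact himg hC
    have h5 := Finset.card_le_card h4
    rw [Finset.card_insert_of_notMem hnot, hcard, hGc, h0] at h5
    exact h5

include hs hLE hL2 hcl hE hL4 in
theorem fib_triple {P : Finset ι} (hP : P ⊆ E \ L) (hP3 : P.card = 3) :
    1 ≤ (fib M E L P).card := by
  rw [Nat.one_le_iff_ne_zero, Finset.card_ne_zero]
  have hPE : P ⊆ E := hP.trans Finset.sdiff_subset
  have hdisj : ∀ x ∈ P, x ∉ L := fun x hx => (Finset.mem_sdiff.mp (hP hx)).2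
  by_cases h2 : M.r P = 2
  · refine ⟨P, ?_⟩
    unfold fib
    rw [Finset.mem_filter]
    refine ⟨circ3 M hs hPE hP3 h2, ?_⟩
    rw [Finset.sdiff_eq_self_iff_disjoint, Finset.disjoint_left]
    exact hdisj
  · obtain ⟨p, q, s, hpq, hps, hqs, rfl⟩ := Finset.card_eq_three.mp hP3
    have hp : p ∈ E \ L := hP (by simp)
    have hq : q ∈ E \ L := hP (by simp)
    have hs' : s ∈ E \ L := hP (by simp)
    have b1 := bad_le M E L hs hLE hL2 hcl hp hq hpq
    have b2 := bad_le M E L hs hLE hL2 hcl hp hs' hps
    have b3 := bad_le M E L hs hLE hL2 hcl hq hs' hqs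
    have hb : (bad M L p q ∪ bad M L p s ∪ bad M L q s).card ≤ 3 := by
      have h1 := Finset.card_union_le (bad M L p q ∪ bad M L p s) (bad M L q s)
      have h2 := Finset.card_union_le (bad M L p q) (bad M L p s)
      omega
    obtain ⟨a, haL, hab⟩ : ∃ a ∈ L, a ∉ bad M L p q ∪ bad M L p s ∪ bad M L q s := by
      by_contra hcon
      push Not at hcon
      have := Finset.card_le_card (fun x hx => hcon x hx : L ⊆ _)
      omega
    simp only [Finset.mem_union, not_or] at hab
    unfold bad at hab
    simp only [Finset.mem_filter, not_and] at hab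
    have hap : a ≠ p := fun h => hdisj p (by simp) (h ▸ haL)
    have haq : a ≠ q := fun h => hdisj q (by simp) (h ▸ haL)
    have has : a ≠ s := fun h => hdisj s (by simp) (h ▸ haL)
    refine ⟨insert a {p, q, s}, ?_⟩
    unfold fib
    rw [Finset.mem_filter]
    have haP : a ∉ ({p, q, s} : Finset ι) := fun h => hdisj a h haL
    constructor
    · apply circ4 M hs hE
      · intro x hx
        rw [Finset.mem_insert] at hx
        rcases hx with rfl | hx
        · exact hLE haL
        · exact hPE hx
      · rw [Finset.card_insert_of_notMem haP, hP3]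
      · intro e he
        rw [Finset.mem_insert] at he
        rcases he with rfl | he
        · rw [Finset.erase_insert haP]
          exact h2
        · simp only [Finset.mem_insert, Finset.mem_singleton] at he
          rcases he with rfl | rfl | rfl
          · have : (insert a {e, q, s} : Finset ι).erase e = {a, q, s} := by
              ext x
              simp only [Finset.mem_erase, Finset.mem_insert, Finset.mem_singleton]
              constructor
              · rintro ⟨h1, rfl | rfl | h | h⟩ <;> tauto
              · rintro (rfl | rfl | rfl)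
                · exact ⟨hap, by simp⟩
                · exact ⟨hpq.symm, by simp⟩
                · exact ⟨hps.symm, by simp⟩
            rw [this]
            exact hab.2 haL
          · have : (insert a {p, e, s} : Finset ι).erase e = {a, p, s} := by
              ext x
              simp only [Finset.mem_erase, Finset.mem_insert, Finset.mem_singleton]
              constructor
              · rintro ⟨h1, rfl | rfl | h | h⟩ <;> tauto
              · rintro (rfl | rfl | rfl)
                · exact ⟨haq, by simp⟩
                · exact ⟨hpq, by simp⟩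
                · exact ⟨hqs.symm, by simp⟩
            rw [this]
            exact hab.1.2 haL
          · have : (insert a {p, q, e} : Finset ι).erase e = {a, p, q} := by
              ext x
              simp only [Finset.mem_erase, Finset.mem_insert, Finset.mem_singleton]
              constructor
              · rintro ⟨h1, rfl | rfl | h | h⟩ <;> tauto
              · rintro (rfl | rfl | rfl)
                · exact ⟨has, by simp⟩
                · exact ⟨hps, by simp⟩
                · exact ⟨hqs, by simp⟩
            rw [this]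
            exact hab.1.1 haL
    · ext x
      rw [Finset.mem_sdiff, Finset.mem_insert]
      constructor
      · rintro ⟨rfl | h, h'⟩
        · exact absurd haL h'
        · exact h
      · exact fun h => ⟨Or.inr h, hdisj x h⟩

include hs hLE hL2 hcl hE hL4 in
theorem circs_ge_big : L.card.choose 3
    + (E \ L).card.choose 2 * ((L.card - 1).choose 2 + 1) + (E \ L).card.choose 3
    ≤ (circs M E).card := by
  have hmap : ∀ C ∈ circs M E, C \ L ∈ (E \ L).powerset := by
    intro C hC
    rw [mem_circs] at hC
    rw [Finset.mem_powerset]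
    exact Finset.sdiff_subset_sdiff hC.1 (Finset.Subset.refl _)
  have h := Finset.card_eq_sum_card_fiberwise hmap
  rw [h]
  have h0 : ∑ P ∈ (E \ L).powersetCard 0, (fib M E L P).card
      + ∑ P ∈ (E \ L).powersetCard 2, (fib M E L P).card
      + ∑ P ∈ (E \ L).powersetCard 3, (fib M E L P).card
      ≤ ∑ P ∈ (E \ L).powerset, (fib M E L P).card := by
    rw [← Finset.sum_union, ← Finset.sum_union]
    · apply Finset.sum_le_sum_of_subset
      intro P hP
      simp only [Finset.mem_union, Finset.mem_powersetCard] at hP
      rw [Finset.mem_powerset]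
      tauto
    · rw [Finset.disjoint_left]
      intro P h1 h2
      simp only [Finset.mem_union, Finset.mem_powersetCard] at h1 h2
      omega
    · rw [Finset.disjoint_left]
      intro P h1 h2
      simp only [Finset.mem_powersetCard] at h1 h2
      omega
  refine le_trans ?_ h0
  have s0 : L.card.choose 3 ≤ ∑ P ∈ (E \ L).powersetCard 0, (fib M E L P).card := by
    rw [Finset.powersetCard_zero, Finset.sum_singleton]
    exact fib_empty M E L hs hLE hL2
  have s2 : (E \ L).card.choose 2 * ((L.card - 1).choose 2 + 1)
      ≤ ∑ P ∈ (E \ L).powersetCard 2, (fib M E L P).card := by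
    rw [← Finset.card_powersetCard, ← smul_eq_mul]
    apply Finset.card_nsmul_le_sum
    intro P hP
    rw [Finset.mem_powersetCard] at hP
    exact fib_pair M E L hs hE hLE hL2 hL4 hcl hP.1 hP.2
  have s3 : (E \ L).card.choose 3
      ≤ ∑ P ∈ (E \ L).powersetCard 3, (fib M E L P).card := by
    rw [← Finset.card_powersetCard, ← mul_one (Finset.card _), ← smul_eq_mul]
    apply Finset.card_nsmul_le_sum
    intro P hP
    rw [Finset.mem_powersetCard] at hP
    exact fib_triple M E L hs hE hLE hL2 hL4 hcl hP.1 hP.2
  omega

theorem arith (v m : ℕ) :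
    (v + 4 + (m + 2) - 1).choose 3 ≤
      (v + 4).choose 3 + (m + 2).choose 2 * ((v + 4 - 1).choose 2 + 1) + (m + 2).choose 3
        + (v + 4 + (m + 2) - 4) := by
  have e1 : v + 4 + (m + 2) - 1 = (v + m + 2) + 3 := by omega
  have e2 : v + 4 - 1 = (v + 1) + 2 := by omega
  have e3 : v + 4 + (m + 2) - 4 = v + m + 2 := by omega
  have e4 : v + 4 = (v + 1) + 3 := by omega
  rw [e1, e2, e3, e4]
  have c1 := choose3 (v + m + 2)
  have c2 := choose2 (v + 1)
  have c3 := choose3 (v + 1)
  have c4 := choose2 m
  have c5 : (m + 2).choose 3 * 6 = (m + 2) * (m + 1) * m := by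
    rcases m with _ | m
    · simp
    · have := choose3 m
      have e : m + 1 + 2 = m + 3 := by omega
      rw [e, this]
  have key : 4 * ((m + 2).choose 2 * ((v + 1 + 2).choose 2 + 1))
      = (m + 2) * (m + 1) * ((v + 1 + 2) * (v + 1 + 1) + 2) := by
    rw [← c2, ← c4]; ring
  have : (v + m + 2 + 3).choose 3 * 12 ≤ 12 * ((v + 1 + 3).choose 3
      + (m + 2).choose 2 * ((v + 1 + 2).choose 2 + 1) + (m + 2).choose 3 + (v + m + 2)) := by
    have l1 : (v + m + 2 + 3).choose 3 * 12
        = 2 * ((v + m + 2 + 3) * (v + m + 2 + 2) * (v + m + 2 + 1)) := by rw [← c1]; ring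
    have l2 : 12 * ((v + 1 + 3).choose 3
      + (m + 2).choose 2 * ((v + 1 + 2).choose 2 + 1) + (m + 2).choose 3 + (v + m + 2))
      = 2 * ((v + 1 + 3) * (v + 1 + 2) * (v + 1 + 1))
        + 3 * ((m + 2) * (m + 1) * ((v + 1 + 2) * (v + 1 + 1) + 2))
        + 2 * ((m + 2) * (m + 1) * m) + 12 * (v + m + 2) := by
      rw [← c3, ← key, ← c5]; ring
    rw [l1, l2]
    rcases m with _ | m
    · ring_nf
      nlinarith
    · nlinarith [Nat.zero_le (v * m), Nat.zero_le (v^2 * m), Nat.zero_le (v * m^2),
        Nat.zero_le (v^2 * m^2), Nat.zero_le (m^2), Nat.zero_le (v^2), Nat.zero_le (m^3),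
        Nat.zero_le (v^3)]
  omega

end bigLine

end R3

/-- TARGET: a simple rank 3 matroid on `n ≥ 6` elements other than the Fano plane has at least
`C(n-1,3) - δ(n-1)` circuits, `δ(i) = i - 3` for `i ≠ 5`, `δ(5) = 3`. -/
theorem rank3_bound (M : RankFn ι) (E : Finset ι) (hs : Simple M E) (h3 : M.r E = 3)
    (h6 : 6 ≤ E.card)
    (hF : E.card = 7 → (∀ T ⊆ E, T.card = 4 → M.r T = 3) →
      ((E.powersetCard 3).filter (fun T => M.r T = 2)).card ≤ 6) :
    (E.card - 1).choose 3 ≤ (circs M E).card + (E.card - 4) + (if E.card = 6 then 1 else 0) := by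
  by_cases hno : ∀ F ⊆ E, F.card = 4 → M.r F = 3
  · exact R3.small_case M E hs h3 hno h6 (fun h => hF h hno)
  · push Not at hno
    obtain ⟨F, hFE, hF4, hFr⟩ := hno
    have hFr2 : M.r F = 2 := by
      have h1 := M.mono _ _ hFE
      have h2 := R3.two_le M hs hFE (by omega)
      omega
    obtain ⟨L, hLmem, hLmax⟩ := Finset.exists_max_image
      (E.powerset.filter (fun S => M.r S = 2)) Finset.card
      ⟨F, Finset.mem_filter.mpr ⟨Finset.mem_powerset.mpr hFE, hFr2⟩⟩
    rw [Finset.mem_filter, Finset.mem_powerset] at hLmem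
    obtain ⟨hLE, hL2⟩ := hLmem
    have hL4 : 4 ≤ L.card := by
      rw [← hF4]
      exact hLmax F (Finset.mem_filter.mpr ⟨Finset.mem_powerset.mpr hFE, hFr2⟩)
    have hcl : ∀ x ∈ E \ L, M.r (insert x L) = 3 := by
      intro x hx
      rw [Finset.mem_sdiff] at hx
      have h1 := M.mono _ _ (Finset.insert_subset hx.1 hLE)
      have h2 := M.mono _ _ (Finset.subset_insert x L)
      by_contra hne
      have h4 : M.r (insert x L) = 2 := by omega
      have h5 := hLmax (insert x L) (Finset.mem_filter.mpr
        ⟨Finset.mem_powerset.mpr (Finset.insert_subset hx.1 hLE), h4⟩)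
      rw [Finset.card_insert_of_notMem hx.2] at h5
      omega
    have hbig := R3.circs_ge_big M E L hs h3 hLE hL2 hL4 hcl
    have hcard : (E \ L).card + L.card = E.card := Finset.card_sdiff_add_card_eq_card hLE
    have hk : 1 ≤ (E \ L).card := by
      by_contra hcon
      have : (E \ L).card = 0 := by omega
      rw [Finset.card_eq_zero, Finset.sdiff_eq_empty_iff_subset] at this
      have := M.mono _ _ this
      omega
    set k := (E \ L).card
    set l := L.card
    rw [← hcard]
    have hgoal : (k + l - 1).choose 3 ≤ (circs M E).card + (k + l - 4) := by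
      rcases Nat.lt_or_ge k 2 with hk1 | hk2
      · have hk' : k = 1 := by omega
        rw [hk'] at hbig ⊢
        have : 1 + l - 1 = l := by omega
        rw [this]
        simp at hbig
        omega
      · obtain ⟨m, hm⟩ : ∃ m, k = m + 2 := ⟨k - 2, by omega⟩
        obtain ⟨v, hv⟩ : ∃ v, l = v + 4 := ⟨l - 4, by omega⟩
        rw [hm, hv] at hbig ⊢
        have := R3.arith v m
        rw [Nat.add_comm (m + 2) (v + 4)]
        omega
    omega

end Pool.Agent.Helper766.Rad.Plane
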