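import Mathlib
import Pool.Agent.Helper766.Rad.LemmaA2
import Pool.Agent.Helper766.Rad.Plane

set_option autoImplicit false

namespace Pool.Agent.Helper766.Rad

variable {ι : Type} [DecidableEq ι]

theorem arith_even_red (q n r : ℤ) (hq : 0 ≤ q) (h : 2 * n ≤ (q + 1) * r) :
    (q + 1) * (q + 1 - 1) * (3 * n - (q + 1 + 1) * r) ≤ q * (q - 1) * (3 * n - (q + 1) * r) := by
  have e : (q + 1) * (q + 1 - 1) * (3 * n - (q + 1 + 1) * r) =
      q * (q - 1) * (3 * n - (q + 1) * r) - 3 * (q * ((q + 1) * r - 2 * n)) := by ring
  rw [e]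
  have : 0 ≤ q * ((q + 1) * r - 2 * n) := mul_nonneg hq (by linarith)
  linarith

/-- choice of `j` in Lemma A. -/
theorem arith_choose (Q r n : ℕ) (hr : 2 ≤ r) (h : Q * r + 1 ≤ 2 * n)
    (hex : ¬ (r = 3 ∧ Q % 2 = 1 ∧ 2 * n = Q * 3 + 1)) :
    ∃ j : ℕ, (Q : ℤ) * (Q - 1) ≤ (j : ℤ) * (2 * ((n : ℤ) - 1) - (j + 1) * ((r : ℤ) - 1)) := by
  rcases Nat.lt_or_ge r 3 with h3 | h3
  · -- r = 2
    have hr2 : r = 2 := by omega
    subst hr2
    rcases Nat.eq_zero_or_pos Q with h0 | h0
    · exact ⟨0, by subst h0; simp⟩
    · refine ⟨Q - 1, ?_⟩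
      have h1 : ((Q - 1 : ℕ) : ℤ) = Q - 1 := by push_cast [Nat.cast_sub h0]; ring
      rw [h1]
      push_cast
      have h2 : (Q : ℤ) + 1 ≤ n := by
        have : Q + 1 ≤ n := by omega
        exact_mod_cast this
      have h3 : (0 : ℤ) ≤ ((Q : ℤ) - 1) * ((n : ℤ) - 1 - Q) :=
        mul_nonneg (by have : (1 : ℤ) ≤ Q := by exact_mod_cast h0
                       linarith) (by linarith)
      nlinarith
  · obtain ⟨s, hs | hs⟩ : ∃ s, Q = 2 * s ∨ Q = 2 * s + 1 := ⟨Q / 2, by omega⟩
    · refine ⟨s, ?_⟩
      subst hs
      have h1 : s * r + 1 ≤ n := by nlinarith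
      have h2 : (s : ℤ) * r + 1 ≤ n := by exact_mod_cast h1
      have h4 : (3 : ℤ) ≤ r := by exact_mod_cast h3
      push_cast
      rcases Nat.eq_zero_or_pos s with h0 | h0
      · subst h0; simp
      · have h5 : (1 : ℤ) ≤ s := by exact_mod_cast h0
        have h6 : 0 ≤ (s : ℤ) * (((s : ℤ) - 1) * ((r : ℤ) - 3)) :=
          mul_nonneg (by linarith) (mul_nonneg (by linarith) (by linarith))
        have h7 : 0 ≤ (s : ℤ) * ((n : ℤ) - 1 - s * r) := mul_nonneg (by linarith) (by linarith)
        nlinarith
    · subst hs
      rcases Nat.eq_zero_or_pos s with h0 | h0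
      · exact ⟨0, by subst h0; simp⟩
      have h5 : (1 : ℤ) ≤ s := by exact_mod_cast h0
      refine ⟨s, ?_⟩
      rcases Nat.lt_or_ge r 5 with h6 | h6
      · obtain rfl | rfl : r = 3 ∨ r = 4 := by omega
        · have h7 : 3 * s + 3 ≤ n := by
            by_contra hlt
            exact hex ⟨rfl, by omega, by omega⟩
          have h8 : 3 * (s : ℤ) + 3 ≤ n := by exact_mod_cast h7
          push_cast
          have h9 : 0 ≤ (s : ℤ) * ((n : ℤ) - 3 - 3 * s) := mul_nonneg (by linarith) (by linarith)
          nlinarith
        · have h7 : 4 * s + 3 ≤ n := by omega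
          have h8 : 4 * (s : ℤ) + 3 ≤ n := by exact_mod_cast h7
          push_cast
          have h9 : 0 ≤ (s : ℤ) * ((n : ℤ) - 3 - 4 * s) := mul_nonneg (by linarith) (by linarith)
          nlinarith
      · have h7 : (2 * (s : ℤ) + 1) * r + 1 ≤ 2 * n := by exact_mod_cast h
        have h8 : (5 : ℤ) ≤ r := by exact_mod_cast h6
        push_cast
        have h9 : 0 ≤ (s : ℤ) * (2 * (n : ℤ) - 1 - (2 * s + 1) * r) :=
          mul_nonneg (by linarith) (by linarith)
        have h10 : 0 ≤ (s : ℤ) * ((s : ℤ) * ((r : ℤ) - 5)) :=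
          mul_nonneg (by linarith) (mul_nonneg (by linarith) (by linarith))
        have h11 : 0 ≤ (s : ℤ) * ((s : ℤ) - 1) := mul_nonneg (by linarith) (by linarith)
        nlinarith

theorem circs_split {M : RankFn ι} {E A : Finset ι} (hA : A ⊆ E) :
    (circs M A).card + (circs M (E \ A)).card ≤ (circs M E).card := by
  rw [← Finset.card_union_of_disjoint]
  · apply Finset.card_le_card
    intro C hC
    rw [Finset.mem_union, mem_circs, mem_circs] at hC
    rw [mem_circs]
    rcases hC with h | h
    · exact ⟨h.1.trans hA, h.2⟩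
    · exact ⟨h.1.trans Finset.sdiff_subset, h.2⟩
  · rw [Finset.disjoint_left]
    intro C h1 h2
    rw [mem_circs] at h1 h2
    obtain ⟨w, hw⟩ := h1.2.nonempty
    exact (Finset.mem_sdiff.mp (h2.1 hw)).2 (h1.1 hw)

/-- The linear bounds, for every simple matroid. -/
theorem main_even {M : RankFn ι} {E : Finset ι} (hs : Simple M E) (q : ℕ) :
    (q : ℤ) * (q - 1) * (3 * E.card - (q + 1) * M.r E) ≤ 6 * ((circs M E).card : ℤ) := by
  generalize hn : E.card = n
  induction n using Nat.strong_induction_on generalizing E q with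
  | _ n ih =>
  subst hn
  have hnn : (0 : ℤ) ≤ 6 * ((circs M E).card : ℤ) := by positivity
  rcases Nat.lt_or_ge E.card 2 with hlt | h2
  · rcases Nat.eq_zero_or_pos E.card with h0 | h0
    · rw [Finset.card_eq_zero] at h0
      subst h0
      rw [M.empty]
      simp
    · obtain ⟨a, rfl⟩ := Finset.card_eq_one.mp (show E.card = 1 by omega)
      rw [hs.1 a (by simp)]
      refine le_trans ?_ hnn
      simp only [Finset.card_singleton]
      push_cast
      rcases Nat.lt_or_ge q 2 with h | h
      · obtain rfl | rfl : q = 0 ∨ q = 1 := by omega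
        · simp
        · simp
      · have h3 : (2 : ℤ) ≤ q := by exact_mod_cast h
        have h4 : 0 ≤ ((q : ℤ) * (q - 1)) * (q - 2) :=
          mul_nonneg (mul_nonneg (by linarith) (by linarith)) (by linarith)
        nlinarith
  · by_cases hc : Conn M E
    · -- connected
      have hr2 : 2 ≤ M.r E := by
        obtain ⟨a, b, ha, hb, hab⟩ := Finset.one_lt_card_iff.mp (show 1 < E.card by omega)
        rw [← hs.2 a ha b hb hab]
        apply M.mono'
        intro w hw
        simp only [Finset.mem_insert, Finset.mem_singleton] at hw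
        rcases hw with rfl | rfl <;> assumption
      obtain ⟨x, hx⟩ : E.Nonempty := by rw [← Finset.card_pos]; omega
      have hce := Finset.card_erase_add_one hx
      have hcx := card_circs_del M E x
      have hrx := (hc.nl h2 hx).2
      have hcZ : ((E.erase x).card : ℤ) = E.card - 1 := by
        have : ((E.erase x).card : ℤ) + 1 = E.card := by exact_mod_cast hce
        linarith
      have hcxZ : ((circs M E).card : ℤ) = (circs M (E.erase x)).card + cx M E x := by
        exact_mod_cast hcx
      induction q with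
      | zero => simpa using hnn
      | succ q ihq =>
        rcases Nat.lt_or_ge (2 * E.card) ((q + 1) * M.r E + 1) with hsm | hbg
        · refine le_trans ?_ ihq
          push_cast
          apply arith_even_red q E.card (M.r E) (by positivity)
          have : 2 * E.card ≤ (q + 1) * M.r E := by omega
          exact_mod_cast this
        · clear ihq
          by_cases hex : M.r E = 3 ∧ (q + 1) % 2 = 1 ∧ 2 * E.card = (q + 1) * 3 + 1
          · obtain ⟨h3, hodd, hn⟩ := hex
            obtain ⟨s, hs'⟩ : ∃ s, q = 2 * s := ⟨q / 2, by omega⟩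
            subst hs'
            have i1 := ih _ (show (E.erase x).card < E.card by omega)
              (hs.subset (Finset.erase_subset x E)) (2 * s) rfl
            have i2 := lemmaA hs hc h2 hx s
            rw [hrx, h3, hcZ] at i1
            rw [h3] at i2
            have hn' : (E.card : ℤ) = 3 * s + 2 := by
              have : E.card = 3 * s + 2 := by omega
              exact_mod_cast this
            rw [h3, hcxZ]
            rw [hn'] at i1 i2 ⊢
            push_cast at i1 i2 ⊢
            nlinarith
          · obtain ⟨j, hj⟩ := arith_choose (q + 1) (M.r E) E.card hr2 (by omega) hex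
            have i1 := ih _ (show (E.erase x).card < E.card by omega)
              (hs.subset (Finset.erase_subset x E)) (q + 1) rfl
            have i2 := lemmaA hs hc h2 hx j
            have i3 := hj.trans i2
            rw [hrx, hcZ] at i1
            rw [hcxZ]
            push_cast at i1 i3 ⊢
            nlinarith
    · -- disconnected
      unfold Conn at hc
      push Not at hc
      obtain ⟨A, hA, hAn, hAne, hr⟩ := hc
      have hAc : A.card < E.card := Finset.card_lt_card
        (Finset.ssubset_iff_subset_ne.mpr ⟨hA, hAne⟩)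
      have hsd : (E \ A).card + A.card = E.card := Finset.card_sdiff_add_card_eq_card hA
      have hApos := Finset.card_pos.mpr hAn
      have i1 := ih _ hAc (hs.subset hA) q rfl
      have i2 := ih _ (show (E \ A).card < E.card by omega) (hs.subset Finset.sdiff_subset) q rfl
      have i3 := circs_split (M := M) hA
      have i3' : ((circs M A).card : ℤ) + (circs M (E \ A)).card ≤ (circs M E).card := by
        exact_mod_cast i3
      have hr' : (M.r A : ℤ) + M.r (E \ A) ≤ M.r E := by exact_mod_cast hr
      have hsd' : (E.card : ℤ) = (E \ A).card + A.card := by exact_mod_cast hsd.symm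
      rw [hsd']
      rcases Nat.eq_zero_or_pos q with h0 | h0
      · subst h0; simpa using hnn
      · have h3 : (1 : ℤ) ≤ q := by exact_mod_cast h0
        have h4 : 0 ≤ ((q : ℤ) * (q - 1) * (q + 1)) * ((M.r E : ℤ) - M.r A - M.r (E \ A)) :=
          mul_nonneg (mul_nonneg (mul_nonneg (by linarith) (by linarith)) (by linarith))
            (by linarith)
        nlinarith

end Pool.Agent.Helper766.Rad
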