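import Mathlib
import Pool.Agent.Helper766.Rad.Main

set_option autoImplicit false

namespace Pool.Agent.Helper766.Rad

variable {ι : Type} [DecidableEq ι]

/-- the discount of the rank 3 block -/
def delta (i : ℕ) : ℕ := (i - 3) + (if i = 5 then 1 else 0)

theorem delta_mono {i j : ℕ} (h : i ≤ j) : delta i ≤ delta j := by
  unfold delta
  split_ifs <;> omega

theorem arith_delta (i q : ℕ) (hi : 3 ≤ i) :
    (q : ℤ) * (q - 1) * (3 * i - 2 * (q + 1)) + 6 * delta i ≤
      (i : ℤ) * (i - 1) * (i - 2) + 6 * delta (q + 1) := by
  have e : (i : ℤ) * (i - 1) * (i - 2) - (q : ℤ) * (q - 1) * (3 * i - 2 * (q + 1)) =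
      ((i : ℤ) - q) * ((i : ℤ) - q - 1) * ((i : ℤ) + 2 * q - 2) := by ring
  have hiZ : (3 : ℤ) ≤ i := by exact_mod_cast hi
  rcases Nat.lt_or_ge (q + 1) i with h | h
  · -- i ≥ q + 2
    obtain ⟨u, hu⟩ : ∃ u, i = q + 1 + (u + 1) := ⟨i - q - 2, by omega⟩
    rcases Nat.lt_or_ge q 2 with hq | hq
    · -- q = 0, 1
      have h1 : delta i ≤ i - 2 := by unfold delta; split_ifs <;> omega
      have h2 : (delta i : ℤ) ≤ i - 2 := by
        have : delta i + 2 ≤ i := by omega
        have : (delta i : ℤ) + 2 ≤ i := by exact_mod_cast this
        linarith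
      have h3 : (0 : ℤ) ≤ 6 * delta (q + 1) := by positivity
      have h4 : (q : ℤ) * (q - 1) = 0 := by
        obtain rfl | rfl : q = 0 ∨ q = 1 := by omega
        · simp
        · simp
      rw [h4]
      have h5 : 0 ≤ ((i : ℤ) * (i - 1) - 6) * (i - 2) := by
        apply mul_nonneg _ (by linarith)
        nlinarith
      nlinarith
    · have h1 : delta i ≤ delta (q + 1) + (u + 2) := by
        unfold delta; split_ifs <;> omega
      have h2 : (delta i : ℤ) ≤ delta (q + 1) + (u + 2) := by exact_mod_cast h1
      have h3 : (i : ℤ) = q + 1 + (u + 1) := by exact_mod_cast hu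
      have h4 : (2 : ℤ) ≤ q := by exact_mod_cast hq
      have h5 : (0 : ℤ) ≤ u := by positivity
      have h6 : 6 * ((u : ℤ) + 2) ≤ ((u : ℤ) + 2) * ((u + 1) * (3 * q + u)) := by
        have : 6 ≤ ((u : ℤ) + 1) * (3 * q + u) := by nlinarith
        nlinarith
      have e2 : ((i : ℤ) - q) * ((i : ℤ) - q - 1) * ((i : ℤ) + 2 * q - 2) =
          ((u : ℤ) + 2) * ((u + 1) * (3 * q + u)) := by rw [h3]; ring
      rw [e2] at e
      linarith
  · have h1 : (delta i : ℤ) ≤ delta (q + 1) := by exact_mod_cast delta_mono h
    have h2 : 0 ≤ ((i : ℤ) - q) * ((i : ℤ) - q - 1) := by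
      rcases Nat.lt_or_ge q i with h | h'
      · have : i = q + 1 := by omega
        subst this
        push_cast
        ring_nf
        exact le_refl _
      · have : (i : ℤ) ≤ q := by exact_mod_cast h'
        exact mul_nonneg_of_nonpos_of_nonpos (by linarith) (by linarith)
    have h3 : (0 : ℤ) ≤ (i : ℤ) + 2 * q - 2 := by
      have : (0 : ℤ) ≤ q := by positivity
      linarith
    have h4 := mul_nonneg h2 h3
    linarith

theorem arith_odd_red (q N m : ℤ) (hq : 0 ≤ q) (h : N ≤ m * (q + 1)) :
    (q + 1) * (q + 1 - 1) * (3 * N - 2 * m * (q + 1 + 1)) ≤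
      q * (q - 1) * (3 * N - 2 * m * (q + 1)) := by
  have e : (q + 1) * (q + 1 - 1) * (3 * N - 2 * m * (q + 1 + 1)) =
      q * (q - 1) * (3 * N - 2 * m * (q + 1)) - 6 * (q * (m * (q + 1) - N)) := by ring
  rw [e]
  have : 0 ≤ q * (m * (q + 1) - N) := mul_nonneg hq (by linarith)
  linarith

theorem arith_choose_odd (Q m N : ℕ) (hm : 2 ≤ m) (h : m * Q + 1 ≤ N) :
    ∃ j : ℕ, (Q : ℤ) * (Q - 1) ≤ (j : ℤ) * (2 * (N : ℤ) - (j + 1) * (2 * m)) := by
  have h2 : (2 : ℤ) ≤ m := by exact_mod_cast hm
  have h1 : (m : ℤ) * Q + 1 ≤ N := by exact_mod_cast h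
  obtain ⟨s, hs | hs⟩ : ∃ s, Q = 2 * s ∨ Q = 2 * s + 1 := ⟨Q / 2, by omega⟩
  · refine ⟨s, ?_⟩
    subst hs
    push_cast at h1 ⊢
    rcases Nat.eq_zero_or_pos s with h0 | h0
    · subst h0; simp
    · have h5 : (1 : ℤ) ≤ s := by exact_mod_cast h0
      have h6 : 0 ≤ (s : ℤ) * (((s : ℤ) - 1) * ((m : ℤ) - 2)) :=
        mul_nonneg (by linarith) (mul_nonneg (by linarith) (by linarith))
      have h7 : 0 ≤ (s : ℤ) * ((N : ℤ) - 1 - m * (2 * s)) :=
        mul_nonneg (by linarith) (by linarith)
      nlinarith
  · refine ⟨s, ?_⟩
    subst hs
    push_cast at h1 ⊢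
    have h5 : (0 : ℤ) ≤ s := by positivity
    have h6 : 0 ≤ (s : ℤ) * ((s : ℤ) * ((m : ℤ) - 2)) :=
      mul_nonneg h5 (mul_nonneg h5 (by linarith))
    have h7 : 0 ≤ (s : ℤ) * ((N : ℤ) - 1 - m * (2 * s + 1)) := mul_nonneg h5 (by linarith)
    nlinarith

/-- The bounds for rank at most `2m+1`. -/
theorem main_odd {M : RankFn ι} {E : Finset ι} (hs : Simple M E)
    (hF : ∀ F ⊆ E, F.card = 7 → M.r F = 3 → (∀ T ⊆ F, T.card = 4 → M.r T = 3) →
      ((F.powersetCard 3).filter (fun T => M.r T = 2)).card ≤ 6)
    (hne : E.Nonempty) (m : ℕ) (hr : M.r E ≤ 2 * m + 1) (q : ℕ) :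
    (q : ℤ) * (q - 1) * (3 * ((E.card : ℤ) - 1) - 2 * m * (q + 1)) ≤
      6 * ((circs M E).card : ℤ) + 6 * delta (q + 1) := by
  generalize hn : E.card = n
  induction n using Nat.strong_induction_on generalizing E m q with
  | _ n ih =>
  subst hn
  have hnn : (0 : ℤ) ≤ 6 * ((circs M E).card : ℤ) + 6 * delta (q + 1) := by positivity
  rcases Nat.lt_or_ge E.card 2 with hlt | h2
  · have h1 : E.card = 1 := by
      have := Finset.card_pos.mpr hne
      omega
    rw [h1]
    refine le_trans ?_ hnn
    push_cast
    rcases Nat.eq_zero_or_pos q with h0 | h0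
    · subst h0; simp
    · have h3 : (1 : ℤ) ≤ q := by exact_mod_cast h0
      have h4 : 0 ≤ (q : ℤ) * (q - 1) * (2 * m * (q + 1)) :=
        mul_nonneg (mul_nonneg (by linarith) (by linarith)) (by positivity)
      nlinarith
  · by_cases hc : Conn M E
    · have hr2 : 2 ≤ M.r E := by
        obtain ⟨a, b, ha, hb, hab⟩ := Finset.one_lt_card_iff.mp (show 1 < E.card by omega)
        rw [← hs.2 a ha b hb hab]
        apply M.mono'
        intro w hw
        simp only [Finset.mem_insert, Finset.mem_singleton] at hw
        rcases hw with rfl | rfl <;> assumption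
      rcases Nat.lt_or_ge (M.r E) (2 * m + 1) with hlt | hge
      · -- rank at most 2m
        have i1 := main_even hs q
        have h3 : (M.r E : ℤ) ≤ 2 * m := by
          have : M.r E ≤ 2 * m := by omega
          exact_mod_cast this
        have h5 : (0 : ℤ) ≤ 6 * delta (q + 1) := by positivity
        rcases Nat.eq_zero_or_pos q with h0 | h0
        · subst h0; simpa using hnn
        · have h4 : (1 : ℤ) ≤ q := by exact_mod_cast h0
          have h6 : 0 ≤ ((q : ℤ) * (q - 1)) * ((q + 1) * (2 * m - M.r E)) :=
            mul_nonneg (mul_nonneg (by linarith) (by linarith))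
              (mul_nonneg (by linarith) (by linarith))
          have h7 : 0 ≤ (q : ℤ) * (q - 1) := mul_nonneg (by linarith) (by linarith)
          nlinarith
      · have hrE : M.r E = 2 * m + 1 := by omega
        rcases Nat.lt_or_ge m 2 with hm1 | hm2
        · -- rank 3
          have hm : m = 1 := by omega
          subst hm
          have hr3 : M.r E = 3 := by omega
          obtain ⟨x, hx⟩ := hne
          have hn4 : 4 ≤ E.card := by
            have h5 := r_le_card M (E.erase x)
            have h6 := Finset.card_erase_add_one hx
            rw [(hc.nl h2 hx).2] at h5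
            omega
          -- the rank 3 theorem
          have key : (E.card - 1).choose 3 ≤ (circs M E).card + delta (E.card - 1) := by
            rcases Nat.lt_or_ge E.card 6 with h6 | h6
            · rcases Nat.lt_or_ge E.card 5 with h5 | h5
              · have h4 : E.card = 4 := by omega
                have i1 := main_even hs 2
                rw [hr3, h4] at i1
                have : 1 ≤ (circs M E).card := by
                  have : (6 : ℤ) ≤ 6 * ((circs M E).card : ℤ) := by
                    refine le_trans (le_of_eq ?_) i1
                    norm_num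
                  have : (1 : ℤ) ≤ (circs M E).card := by linarith
                  exact_mod_cast this
                rw [h4]
                have e1 : Nat.choose 3 3 = 1 := rfl
                simp only [show 4 - 1 = 3 by rfl, e1]
                omega
              · have h4 : E.card = 5 := by omega
                have i1 := main_even hs 3
                rw [hr3, h4] at i1
                have : 3 ≤ (circs M E).card := by
                  have : (18 : ℤ) ≤ 6 * ((circs M E).card : ℤ) := by
                    refine le_trans (le_of_eq ?_) i1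
                    norm_num
                  have : (3 : ℤ) ≤ (circs M E).card := by linarith
                  exact_mod_cast this
                rw [h4]
                have e1 : Nat.choose 4 3 = 4 := rfl
                have e2 : delta 4 = 1 := rfl
                simp only [show 5 - 1 = 4 by rfl, e1, e2]
                omega
            · have i1 := Plane.rank3_bound M E hs hr3 h6 (fun h7 hT =>
                hF E (Finset.Subset.refl E) h7 hr3 hT)
              unfold delta
              have e1 : (E.card - 1 = 5) ↔ (E.card = 6) := by omega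
              simp only [e1]
              omega
          have e3 : ((E.card - 1).choose 3 : ℤ) * 6 =
              ((E.card - 1 : ℕ) : ℤ) * (((E.card - 1 : ℕ) : ℤ) - 1) *
                (((E.card - 1 : ℕ) : ℤ) - 2) := by
            obtain ⟨k, hk⟩ : ∃ k, E.card - 1 = k + 3 := ⟨E.card - 4, by omega⟩
            rw [hk]
            have := Plane.R3.choose3 k
            have h8 : (((k + 3).choose 3 : ℕ) : ℤ) * 6 = (k + 3) * (k + 2) * (k + 1) := by
              exact_mod_cast this
            rw [h8]
            push_cast
            ring
          have i2 := arith_delta (E.card - 1) q (by omega)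
          have i3 : ((E.card - 1).choose 3 : ℤ) ≤ (circs M E).card + delta (E.card - 1) := by
            exact_mod_cast key
          have e4 : ((E.card - 1 : ℕ) : ℤ) = (E.card : ℤ) - 1 := by
            push_cast [Nat.cast_sub (show 1 ≤ E.card by omega)]
            ring
          rw [e4] at i2 e3
          push_cast
          linarith
        · -- rank at least 5
          obtain ⟨x, hx⟩ := hne
          have hce := Finset.card_erase_add_one hx
          have hcx := card_circs_del M E x
          have hrx := (hc.nl h2 hx).2
          have hcZ : ((E.erase x).card : ℤ) = E.card - 1 := by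
            have : ((E.erase x).card : ℤ) + 1 = E.card := by exact_mod_cast hce
            linarith
          have hcxZ : ((circs M E).card : ℤ) = (circs M (E.erase x)).card + cx M E x := by
            exact_mod_cast hcx
          induction q with
          | zero => simpa using hnn
          | succ q ihq =>
            have hd1 : (delta (q + 1) : ℤ) ≤ delta (q + 1 + 1) := by
              exact_mod_cast delta_mono (Nat.le_succ (q + 1))
            rcases Nat.lt_or_ge (E.card - 1) (m * (q + 1) + 1) with hsm | hbg
            · have i0 := ihq (by positivity)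
              have i1 : ((q : ℤ) + 1) * ((q : ℤ) + 1 - 1) * (3 * ((E.card : ℤ) - 1) - 2 * m *
                  ((q : ℤ) + 1 + 1)) ≤
                  (q : ℤ) * (q - 1) * (3 * ((E.card : ℤ) - 1) - 2 * m * (q + 1)) := by
                apply arith_odd_red q _ m (by positivity)
                have h8 : E.card ≤ m * (q + 1) + 1 := by omega
                have : (E.card : ℤ) ≤ m * (q + 1) + 1 := by exact_mod_cast h8
                linarith
              push_cast
              linarith
            · clear ihq
              obtain ⟨j, hj⟩ := arith_choose_odd (q + 1) m (E.card - 1) hm2 hbg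
              have hne' : (E.erase x).Nonempty := by
                rw [← Finset.card_pos]; omega
              have i1 := ih _ (show (E.erase x).card < E.card by omega)
                (hs.subset (Finset.erase_subset x E))
                (fun F hFE => hF F (hFE.trans (Finset.erase_subset x E))) hne' m
                (by omega) (q + 1) rfl
              have i2 := lemmaA hs hc h2 hx j
              have e4 : ((E.card - 1 : ℕ) : ℤ) = (E.card : ℤ) - 1 := by
                push_cast [Nat.cast_sub (show 1 ≤ E.card by omega)]
                ring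
              have e5 : (M.r E : ℤ) - 1 = 2 * m := by
                rw [hrE]; push_cast; ring
              rw [e4] at hj
              rw [e5] at i2
              have i3 := hj.trans i2
              rw [hcZ] at i1
              rw [hcxZ]
              push_cast at i1 i3 ⊢
              nlinarith
    · -- disconnected
      unfold Conn at hc
      push Not at hc
      obtain ⟨A, hA, hAn, hAne, hrA⟩ := hc
      have hAc : A.card < E.card := Finset.card_lt_card
        (Finset.ssubset_iff_subset_ne.mpr ⟨hA, hAne⟩)
      have hsd : (E \ A).card + A.card = E.card := Finset.card_sdiff_add_card_eq_card hA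
      have hApos := Finset.card_pos.mpr hAn
      have hBn : (E \ A).Nonempty := by rw [← Finset.card_pos]; omega
      have i3 := circs_split (M := M) hA
      have i3' : ((circs M A).card : ℤ) + (circs M (E \ A)).card ≤ (circs M E).card := by
        exact_mod_cast i3
      have hsd' : (E.card : ℤ) = (E \ A).card + A.card := by exact_mod_cast hsd.symm
      -- general combination
      have key : ∀ P Q : Finset ι, P ⊆ E → Q ⊆ E → P.Nonempty → P.card < E.card →
          ∀ a : ℕ, a ≤ m → M.r P ≤ 2 * a + 1 → M.r Q ≤ 2 * (m - a) →
          (P.card : ℤ) + Q.card = E.card →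
          ((circs M P).card : ℤ) + (circs M Q).card ≤ (circs M E).card →
          (q : ℤ) * (q - 1) * (3 * ((E.card : ℤ) - 1) - 2 * m * (q + 1)) ≤
            6 * ((circs M E).card : ℤ) + 6 * delta (q + 1) := by
        intro P Q hP hQ hPn hPc a ham hrP hrQ hcard hcirc
        have i1 := ih _ hPc (hs.subset hP) (fun F hFE => hF F (hFE.trans hP)) hPn a hrP q rfl
        have i2 := main_even (hs.subset hQ) q
        have h5 : (M.r Q : ℤ) ≤ 2 * (m - a) := by
          have : ((2 * (m - a) : ℕ) : ℤ) = 2 * ((m : ℤ) - a) := by
            push_cast [Nat.cast_sub ham]; ring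
          rw [← this]
          exact_mod_cast hrQ
        rcases Nat.eq_zero_or_pos q with h0 | h0
        · subst h0; simpa using hnn
        · have h4 : (1 : ℤ) ≤ q := by exact_mod_cast h0
          have h6 : 0 ≤ ((q : ℤ) * (q - 1) * (q + 1)) * (2 * ((m : ℤ) - a) - M.r Q) :=
            mul_nonneg (mul_nonneg (mul_nonneg (by linarith) (by linarith)) (by linarith))
              (by linarith)
          rw [← hcard]
          nlinarith
      rcases Nat.even_or_odd' (M.r A) with ⟨b, hb | hb⟩
      · -- `A` has even rank
        have hbm : b ≤ m := by omega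
        apply key (E \ A) A Finset.sdiff_subset hA hBn (by omega) (m - b) (by omega)
          (by omega) (by omega) (by rw [hsd']) (by rw [add_comm]; exact i3')
      · apply key A (E \ A) hA Finset.sdiff_subset hAn hAc b (by omega) (by omega) (by omega)
          (by rw [hsd', add_comm]) i3'

end Pool.Agent.Helper766.Rad
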