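import Mathlib
import Pool.Agent.Helper766.Rad.Defs

set_option autoImplicit false

namespace Pool.Agent.Helper766.Rad.SG

open Pool.Agent.Helper766.Rad

section SG

variable {d : ℕ}

lemma sg_dot_nonneg (x : Fin d → ℝ) : 0 ≤ x ⬝ᵥ x :=
  Finset.sum_nonneg fun i _ => mul_self_nonneg (x i)

lemma sg_dot_pos {x : Fin d → ℝ} (hx : x ≠ 0) : 0 < x ⬝ᵥ x :=
  lt_of_le_of_ne (sg_dot_nonneg x) fun h => hx (dotProduct_self_eq_zero.mp h.symm)

/-- three points, the last two distinct, are collinear iff the first is an affine combination -/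
lemma sg_col_iff (p a b : Fin d → ℝ) (hab : a ≠ b) :
    Collinear ℝ {p, a, b} ↔ ∃ r : ℝ, p - a = r • (b - a) := by
  rw [collinear_iff_of_mem (p₀ := a) (by simp)]
  constructor
  · rintro ⟨v, hv⟩
    obtain ⟨r, hr⟩ := hv p (by simp)
    obtain ⟨s, hs⟩ := hv b (by simp)
    have hs0 : s ≠ 0 := by
      rintro rfl
      apply hab
      simpa using hs.symm
    refine ⟨r / s, ?_⟩
    rw [hr, hs]
    simp only [vadd_eq_add, add_sub_cancel_right, smul_smul]
    rw [div_mul_cancel₀ _ hs0]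
  · rintro ⟨r, hr⟩
    refine ⟨b - a, ?_⟩
    intro q hq
    simp only [Set.mem_insert_iff, Set.mem_singleton_iff] at hq
    rcases hq with rfl | rfl | rfl
    · exact ⟨r, by rw [← hr]; simp⟩
    · exact ⟨0, by simp⟩
    · exact ⟨1, by simp⟩

/-- coefficient of the projection -/
noncomputable def sgc (p a b : Fin d → ℝ) : ℝ := ((p - a) ⬝ᵥ (b - a)) / ((b - a) ⬝ᵥ (b - a))

/-- normal component -/
noncomputable def sgn (p a b : Fin d → ℝ) : Fin d → ℝ := (p - a) - sgc p a b • (b - a)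

lemma sgn_orth (p a b : Fin d → ℝ) (hab : a ≠ b) : sgn p a b ⬝ᵥ (b - a) = 0 := by
  have h : 0 < (b - a) ⬝ᵥ (b - a) := sg_dot_pos (sub_ne_zero.mpr hab.symm)
  rw [sgn, sub_dotProduct, smul_dotProduct, sgc, smul_eq_mul, div_mul_cancel₀ _ h.ne', sub_self]

lemma sg_norm (p a b : Fin d → ℝ) (hab : a ≠ b) (x y : ℝ) :
    (x • (b - a) + y • sgn p a b) ⬝ᵥ (x • (b - a) + y • sgn p a b) =
      x ^ 2 * ((b - a) ⬝ᵥ (b - a)) + y ^ 2 * (sgn p a b ⬝ᵥ sgn p a b) := by
  have h1 := sgn_orth p a b hab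
  have h2 : (b - a) ⬝ᵥ sgn p a b = 0 := by rw [dotProduct_comm]; exact h1
  simp only [add_dotProduct, dotProduct_add, smul_dotProduct, dotProduct_smul, smul_eq_mul, h1, h2]
  ring

/-- squared distance to the line -/
noncomputable def sgD (p a b : Fin d → ℝ) : ℝ := sgn p a b ⬝ᵥ sgn p a b

lemma sgD_le (p a b : Fin d → ℝ) (hab : a ≠ b) (τ : ℝ) :
    sgD p a b ≤ ((p - a) - τ • (b - a)) ⬝ᵥ ((p - a) - τ • (b - a)) := by
  have h1 : (p - a) - τ • (b - a) = (sgc p a b - τ) • (b - a) + (1 : ℝ) • sgn p a b := by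
    rw [sgn, one_smul, sub_smul]
    abel
  rw [h1, sg_norm p a b hab]
  have h2 := sg_dot_nonneg (b - a)
  unfold sgD
  nlinarith [mul_nonneg (sq_nonneg (sgc p a b - τ)) h2]

lemma sg_three (x y z φ : ℝ) (hxy : x ≠ y) (hyz : y ≠ z) (hxz : x ≠ z) :
    ∃ μ ν : ℝ, (μ = x ∨ μ = y ∨ μ = z) ∧ (ν = x ∨ ν = y ∨ ν = z) ∧ μ ≠ ν ∧
      (ν - μ) ^ 2 ≤ (ν - φ) ^ 2 := by
  have key : ∀ u v : ℝ, u ≠ v → ((φ ≤ u ∧ φ ≤ v) ∨ (u ≤ φ ∧ v ≤ φ)) →
      ((v - u) ^ 2 ≤ (v - φ) ^ 2 ∨ (u - v) ^ 2 ≤ (u - φ) ^ 2) := by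
    intro u v huv h
    rcases h with ⟨h1, h2⟩ | ⟨h1, h2⟩
    · rcases le_total u v with h3 | h3
      · left; nlinarith
      · right; nlinarith
    · rcases le_total u v with h3 | h3
      · right; nlinarith
      · left; nlinarith
  rcases le_total φ x with hx | hx <;> rcases le_total φ y with hy | hy <;>
    rcases le_total φ z with hz | hz
  · rcases key x y hxy (Or.inl ⟨hx, hy⟩) with h | h
    · exact ⟨x, y, by simp, by simp, hxy, h⟩
    · exact ⟨y, x, by simp, by simp, hxy.symm, h⟩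
  · rcases key x y hxy (Or.inl ⟨hx, hy⟩) with h | h
    · exact ⟨x, y, by simp, by simp, hxy, h⟩
    · exact ⟨y, x, by simp, by simp, hxy.symm, h⟩
  · rcases key x z hxz (Or.inl ⟨hx, hz⟩) with h | h
    · exact ⟨x, z, by simp, by simp, hxz, h⟩
    · exact ⟨z, x, by simp, by simp, hxz.symm, h⟩
  · rcases key y z hyz (Or.inr ⟨hy, hz⟩) with h | h
    · exact ⟨y, z, by simp, by simp, hyz, h⟩
    · exact ⟨z, y, by simp, by simp, hyz.symm, h⟩
  · rcases key y z hyz (Or.inl ⟨hy, hz⟩) with h | h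
    · exact ⟨y, z, by simp, by simp, hyz, h⟩
    · exact ⟨z, y, by simp, by simp, hyz.symm, h⟩
  · rcases key x z hxz (Or.inr ⟨hx, hz⟩) with h | h
    · exact ⟨x, z, by simp, by simp, hxz, h⟩
    · exact ⟨z, x, by simp, by simp, hxz.symm, h⟩
  · rcases key x y hxy (Or.inr ⟨hx, hy⟩) with h | h
    · exact ⟨x, y, by simp, by simp, hxy, h⟩
    · exact ⟨y, x, by simp, by simp, hxy.symm, h⟩
  · rcases key x y hxy (Or.inr ⟨hx, hy⟩) with h | h
    · exact ⟨x, y, by simp, by simp, hxy, h⟩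
    · exact ⟨y, x, by simp, by simp, hxy.symm, h⟩

/-- the descent step -/
lemma sg_step (p a b : Fin d → ℝ) (hab : a ≠ b) (hp : ¬ Collinear ℝ {p, a, b}) (μ ν : ℝ)
    (hμν : μ ≠ ν) (hsq : (ν - μ) ^ 2 ≤ (ν - sgc p a b) ^ 2) :
    p ≠ a + ν • (b - a) ∧ ¬ Collinear ℝ {a + μ • (b - a), p, a + ν • (b - a)} ∧
      sgD (a + μ • (b - a)) p (a + ν • (b - a)) < sgD p a b := by
  have hw : b - a ≠ 0 := sub_ne_zero.mpr hab.symm
  have hW := sg_dot_pos hw
  have hn : sgn p a b ≠ 0 := by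
    intro h
    apply hp
    rw [sg_col_iff p a b hab]
    exact ⟨sgc p a b, by rw [sgn] at h; exact sub_eq_zero.mp h⟩
  have hN := sg_dot_pos hn
  have hpne : ∀ r : ℝ, p ≠ a + r • (b - a) := by
    intro r h
    apply hp
    rw [sg_col_iff p a b hab]
    exact ⟨r, by rw [h]; simp⟩
  refine ⟨hpne ν, ?_, ?_⟩
  · rw [sg_col_iff _ _ _ (hpne ν)]
    rintro ⟨r, hr⟩
    -- a + μ w - p = r (a + ν w - p)
    by_cases h1 : r = 1
    · subst h1
      apply hμν
      have h2 : (μ - ν) • (b - a) = 0 := by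
        rw [one_smul] at hr
        have h3 : a + μ • (b - a) = a + ν • (b - a) := sub_left_injective hr
        rw [sub_smul, sub_eq_zero]
        exact add_left_cancel h3
      rcases smul_eq_zero.mp h2 with h3 | h3
      · exact sub_eq_zero.mp h3
      · exact absurd h3 hw
    · apply hpne ((μ - r * ν) / (1 - r))
      have h3 : (1 - r) ≠ 0 := sub_ne_zero.mpr (Ne.symm h1)
      have h4 : (1 - r) • p = (1 - r) • (a + ((μ - r * ν) / (1 - r)) • (b - a)) := by
        rw [smul_add, smul_smul, mul_div_cancel₀ _ h3]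
        have h5 : a + μ • (b - a) - p = r • (a + ν • (b - a)) - r • p := by
          rw [hr, smul_sub]
        have h6 : (1 - r) • p = a + μ • (b - a) - r • (a + ν • (b - a)) := by
          rw [sub_smul, one_smul]
          have := h5
          rw [sub_eq_iff_eq_add] at this
          rw [this]
          abel
        rw [h6, smul_add, smul_smul, sub_smul, sub_smul, one_smul]
        abel
      exact smul_right_injective _ h3 h4
  · set α := sgc p a b with hα
    set W := (b - a) ⬝ᵥ (b - a) with hWdef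
    set N := sgn p a b ⬝ᵥ sgn p a b with hNdef
    have hpe : p - a = α • (b - a) + sgn p a b := by
      rw [sgn]; abel
    set B := ν - α with hB
    set x := ν - μ with hx
    have hx0 : x ≠ 0 := sub_ne_zero.mpr hμν.symm
    set σ := B * x * W / (B ^ 2 * W + N) with hσ
    have hden : 0 < B ^ 2 * W + N := by positivity
    have h1 := sgD_le (a + μ • (b - a)) p (a + ν • (b - a)) (hpne ν) (1 - σ)
    have h2 : (a + μ • (b - a) - p) - (1 - σ) • (a + ν • (b - a) - p) =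
        (σ * B - x) • (b - a) + (-σ) • sgn p a b := by
      have h3 : ∀ r : ℝ, a + r • (b - a) - p = (r - α) • (b - a) - sgn p a b := by
        intro r
        have : a + r • (b - a) - p = r • (b - a) - (p - a) := by abel
        rw [this, hpe, sub_smul]
        abel
      rw [h3, h3, hB, hx]
      simp only [smul_sub, smul_smul, sub_smul, one_smul, neg_smul, mul_sub]
      module
    rw [h2, sg_norm p a b hab] at h1
    have h4 : sgD p a b = N := rfl
    rw [h4]
    refine lt_of_le_of_lt h1 ?_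
    have h5 : (σ * B - x) ^ 2 * W + (-σ) ^ 2 * N = x ^ 2 * W * N / (B ^ 2 * W + N) := by
      rw [hσ]
      field_simp
      ring
    rw [h5, div_lt_iff₀ hden]
    have h6 : x ^ 2 ≤ B ^ 2 := hsq
    have h7 : x ^ 2 * W * N ≤ B ^ 2 * W * N := by gcongr
    nlinarith

end SG

/-- TARGET: Sylvester-Gallai for finite sets in `ℝ^d` (Kelly's proof, or any other). -/
theorem sylvester_gallai {d : ℕ} (E : Finset (Fin d → ℝ))
    (hnc : ¬ Collinear ℝ (E : Set (Fin d → ℝ))) :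
    ∃ a ∈ E, ∃ b ∈ E, a ≠ b ∧ ∀ c ∈ E, Collinear ℝ {a, b, c} → c = a ∨ c = b := by
  classical
  by_contra hcon
  push Not at hcon
  -- a non-collinear triple
  have hne : ∃ p ∈ E, ∃ a ∈ E, ∃ b ∈ E, a ≠ b ∧ ¬ Collinear ℝ {p, a, b} := by
    have h1 : ¬ (E : Set (Fin d → ℝ)).Subsingleton := fun h => hnc (h.induction_on
      (by exact collinear_empty ℝ _) (fun x => collinear_singleton ℝ x))
    rw [Set.not_subsingleton_iff] at h1
    obtain ⟨a, ha, b, hb, hab⟩ := h1
    by_contra h2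
    push Not at h2
    apply hnc
    rw [collinear_iff_of_mem (p₀ := a) ha]
    refine ⟨b - a, ?_⟩
    intro p hp
    have h3 := h2 p hp a ha b hb hab
    rw [sg_col_iff p a b hab] at h3
    obtain ⟨r, hr⟩ := h3
    exact ⟨r, by rw [← hr]; simp⟩
  obtain ⟨p, hp, a, ha, b, hb, hab, hpab⟩ := hne
  let T := (E ×ˢ (E ×ˢ E)).filter fun t => t.2.1 ≠ t.2.2 ∧ ¬ Collinear ℝ {t.1, t.2.1, t.2.2}
  have hT : T.Nonempty := ⟨(p, a, b), by
    simp only [T, Finset.mem_filter, Finset.mem_product]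
    exact ⟨⟨hp, ha, hb⟩, hab, hpab⟩⟩
  obtain ⟨⟨p, a, b⟩, ht, hmin⟩ := Finset.exists_min_image T (fun t => sgD t.1 t.2.1 t.2.2) hT
  simp only [T, Finset.mem_filter, Finset.mem_product] at ht
  obtain ⟨⟨hp, ha, hb⟩, hab, hpab⟩ := ht
  obtain ⟨c, hc, hcol, hca, hcb⟩ := hcon a ha b hb hab
  have hcol' : Collinear ℝ {c, a, b} := by
    have : ({c, a, b} : Set (Fin d → ℝ)) = {a, b, c} := by
      ext y; simp only [Set.mem_insert_iff, Set.mem_singleton_iff]; tauto
    rw [this]; exact hcol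
  rw [sg_col_iff c a b hab] at hcol'
  obtain ⟨γ, hγ⟩ := hcol'
  have hγ0 : γ ≠ 0 := by
    rintro rfl
    rw [zero_smul, sub_eq_zero] at hγ
    exact hca hγ
  have hγ1 : γ ≠ 1 := by
    rintro rfl
    rw [one_smul] at hγ
    exact hcb (sub_left_injective hγ)
  obtain ⟨μ, ν, hμ, hν, hμν, hsq⟩ := sg_three 0 1 γ (sgc p a b) (by norm_num) hγ1.symm hγ0.symm
  have hmem : ∀ r : ℝ, (r = 0 ∨ r = 1 ∨ r = γ) → a + r • (b - a) ∈ E := by
    rintro r (rfl | rfl | rfl)
    · simpa using ha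
    · simpa using hb
    · rw [← hγ]; simpa using hc
  obtain ⟨h1, h2, h3⟩ := sg_step p a b hab hpab μ ν hμν hsq
  have h4 := hmin (a + μ • (b - a), p, a + ν • (b - a)) (by
    simp only [T, Finset.mem_filter, Finset.mem_product]
    exact ⟨⟨hmem μ hμ, hp, hmem ν hν⟩, h1, h2⟩)
  exact absurd h3 (not_lt.mpr h4)

end Pool.Agent.Helper766.Rad.SG
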