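import Mathlib
import Pool.Agent.Helper766.Rad.Odd
import Pool.Agent.Helper766.Rad.AffRank
import Pool.Agent.Helper766.Rad.SG

set_option autoImplicit false

namespace Pool.Agent.Helper766.Rad

/-- balanced sum of `m` binomials `C(n_i, 3)` with `n_1 + ... + n_m = n`. -/
def lines (m n : ℕ) : ℕ :=
  (m - n % m) * (n / m).choose 3 + (n % m) * (n / m + 1).choose 3

theorem choose3_six (q : ℕ) : 6 * ((q.choose 3 : ℕ) : ℤ) = (q : ℤ) * (q - 1) * (q - 2) := by
  rcases Nat.lt_or_ge q 3 with h | h
  · obtain rfl | rfl | rfl : q = 0 ∨ q = 1 ∨ q = 2 := by omega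
    · simp
    · simp [Nat.choose_eq_zero_of_lt]
    · simp [Nat.choose_eq_zero_of_lt]
  · obtain ⟨k, rfl⟩ : ∃ k, q = k + 3 := ⟨q - 3, by omega⟩
    have := Plane.R3.choose3 k
    have h8 : (((k + 3).choose 3 : ℕ) : ℤ) * 6 = (k + 3) * (k + 2) * (k + 1) := by
      exact_mod_cast this
    rw [mul_comm, h8]
    push_cast
    ring

theorem choose3_six' (q : ℕ) : 6 * (((q + 1).choose 3 : ℕ) : ℤ) = ((q : ℤ) + 1) * q * (q - 1) := by
  rw [choose3_six]
  push_cast
  ring

theorem lines_eq (m n q : ℕ) (hm : 0 < m) (h1 : m * q ≤ n) (h2 : n ≤ m * (q + 1)) :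
    6 * (lines m n : ℤ) = (q : ℤ) * (q - 1) * (3 * n - 2 * m * (q + 1)) := by
  rcases Nat.lt_or_ge n (m * (q + 1)) with h | h
  · obtain ⟨t, rfl⟩ : ∃ t, n = m * q + t := ⟨n - m * q, by omega⟩
    have ht : t < m := by
      have : m * (q + 1) = m * q + m := by ring
      omega
    have hd : (m * q + t) / m = q := by
      rw [Nat.mul_add_div hm, Nat.div_eq_of_lt ht, add_zero]
    have hmod : (m * q + t) % m = t := by
      rw [Nat.mul_add_mod, Nat.mod_eq_of_lt ht]
    unfold lines
    rw [hd, hmod]
    push_cast [Nat.cast_sub ht.le]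
    have e1 := choose3_six q
    have e2 := choose3_six' q
    have : 6 * (((m : ℤ) - t) * (q.choose 3 : ℤ) + t * ((q + 1).choose 3 : ℤ)) =
      ((m : ℤ) - t) * (6 * (q.choose 3 : ℤ)) + t * (6 * ((q + 1).choose 3 : ℤ)) := by ring
    rw [this, e1, e2]
    ring
  · have hn : n = m * (q + 1) := le_antisymm h2 h
    subst hn
    have hd : (m * (q + 1)) / m = q + 1 := Nat.mul_div_cancel_left _ hm
    have hmod : (m * (q + 1)) % m = 0 := Nat.mul_mod_right _ _
    unfold lines
    rw [hd, hmod, Nat.sub_zero, Nat.zero_mul, Nat.add_zero]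
    push_cast
    have e2 := choose3_six' q
    have : 6 * ((m : ℤ) * ((q + 1).choose 3 : ℤ)) =
      (m : ℤ) * (6 * ((q + 1).choose 3 : ℤ)) := by ring
    rw [this, e2]
    ring

/-- the answer -/
def minCount (d s : ℕ) : ℕ :=
  if d % 2 = 1 then lines ((d + 1) / 2) s
  else lines (d / 2) (s - 1) - delta ((s - 1 + (d / 2 - 1)) / (d / 2))

theorem lower_bound {d : ℕ} (hd : 1 ≤ d) (S : Finset (Fin d → ℝ)) (hS : d + 2 ≤ S.card) :
    minCount d S.card ≤ (affCircs S).card := by
  obtain ⟨M, hM1, hM2, hM3, hM4⟩ := AffRank.exists_affRank d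
  have hcirc : circs M S = affCircs S := by
    classical
    ext C
    rw [mem_circs]
    unfold affCircs
    rw [Finset.mem_filter, Finset.mem_powerset, hM1 C]
  have hsimple := hM2 S
  unfold minCount
  split_ifs with hodd
  · -- `d` odd
    set m := (d + 1) / 2 with hm
    have hmd : 2 * m = d + 1 := by omega
    have hm0 : 0 < m := by omega
    have h1 := main_even hsimple (S.card / m)
    have h2 := lines_eq m S.card (S.card / m) hm0 (Nat.mul_div_le _ _)
      (by have := Nat.lt_mul_div_succ S.card hm0; omega)
    have h3 : (M.r S : ℤ) ≤ 2 * m := by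
      have : M.r S ≤ 2 * m := by rw [hmd]; exact hM3 S
      exact_mod_cast this
    rw [hcirc] at h1
    have h4 : 6 * (lines m S.card : ℤ) ≤ 6 * (affCircs S).card := by
      rw [h2]
      refine le_trans ?_ h1
      set q := S.card / m
      rcases Nat.eq_zero_or_pos q with h0 | h0
      · rw [h0]; simp
      · have h5 : (1 : ℤ) ≤ q := by exact_mod_cast h0
        have h6 : 0 ≤ ((q : ℤ) * (q - 1) * (q + 1)) * (2 * (m : ℤ) - M.r S) :=
          mul_nonneg (mul_nonneg (mul_nonneg (by linarith) (by linarith)) (by linarith))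
            (by linarith)
        nlinarith
    have h5 : (lines m S.card : ℤ) ≤ (affCircs S).card := by linarith
    exact_mod_cast h5
  · -- `d` even
    set m := d / 2 with hm
    have hmd : d = 2 * m := by omega
    have hm0 : 0 < m := by omega
    set N := S.card - 1 with hN
    have hN1 : S.card = N + 1 := by omega
    set u := (N + (m - 1)) / m with hu
    have hu1 : m * u ≤ N + (m - 1) := Nat.mul_div_le _ _
    have hu2 : N + (m - 1) < m * (u + 1) := Nat.lt_mul_div_succ _ hm0
    have hu3 : 1 ≤ u := by
      rw [hu, Nat.one_le_div_iff hm0]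
      omega
    obtain ⟨q, hq⟩ : ∃ q, u = q + 1 := ⟨u - 1, by omega⟩
    rw [hq] at hu1 hu2
    have e1 : m * (q + 1) = m * q + m := by ring
    have e2 : m * (q + 1 + 1) = m * (q + 1) + m := by ring
    have h2 := lines_eq m N q hm0 (by omega) (by omega)
    -- no Fano plane
    have hF : ∀ F ⊆ S, F.card = 7 → M.r F = 3 → (∀ T ⊆ F, T.card = 4 → M.r T = 3) →
        ((F.powersetCard 3).filter (fun T => M.r T = 2)).card ≤ 6 := by
      intro F _ hF7 hF3 hF4
      have hnc : ¬ Collinear ℝ (F : Set (Fin d → ℝ)) := by
        rw [← hM4 F]; omega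
      obtain ⟨a, ha, b, hb, hab, hcol⟩ := SG.sylvester_gallai F hnc
      set 𝒯 := (F.powersetCard 3).filter (fun T => M.r T = 2) with h𝒯
      -- two triples sharing two points are equal
      have hinter : ∀ T ∈ 𝒯, ∀ T' ∈ 𝒯, ∀ P : Finset (Fin d → ℝ), P.card = 2 → P ⊆ T → P ⊆ T' →
          T = T' := by
        intro T hT T' hT' P hP hPT hPT'
        rw [h𝒯, Finset.mem_filter, Finset.mem_powersetCard] at hT hT'
        by_contra hne
        have hsub : M.r (T ∪ T') ≤ 2 := by
          have h7 := M.submod T T'
          have h8 : M.r P ≤ M.r (T ∩ T') := M.mono' (Finset.subset_inter hPT hPT')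
          obtain ⟨x, y, hxy, rfl⟩ := Finset.card_eq_two.mp hP
          have h9 := (hM2 F).2 x (hT.1.1 (hPT (by simp))) y (hT.1.1 (hPT (by simp))) hxy
          omega
        have hcard : 4 ≤ (T ∪ T').card := by
          by_contra hlt
          push Not at hlt
          have h10 : T = T ∪ T' := Finset.eq_of_subset_of_card_le Finset.subset_union_left
            (by rw [hT.1.2]; omega)
          have h11 : T' = T ∪ T' := Finset.eq_of_subset_of_card_le Finset.subset_union_right
            (by rw [hT'.1.2]; omega)
          exact hne (h10.trans h11.symm)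
        obtain ⟨R, hR, hR4⟩ := Finset.exists_subset_card_eq hcard
        have h12 := hF4 R (hR.trans (Finset.union_subset hT.1.1 hT'.1.1)) hR4
        have h13 := M.mono' hR
        omega
      -- count pairs
      have hsum : ∑ T ∈ 𝒯, (T.powersetCard 2).card = 𝒯.card * 3 := by
        rw [Finset.sum_const_nat]
        intro T hT
        rw [h𝒯, Finset.mem_filter, Finset.mem_powersetCard] at hT
        rw [Finset.card_powersetCard, hT.1.2]
        rfl
      have hdisj : ∀ T ∈ 𝒯, ∀ T' ∈ 𝒯, T ≠ T' →
          Disjoint (T.powersetCard 2) (T'.powersetCard 2) := by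
        intro T hT T' hT' hne
        rw [Finset.disjoint_left]
        intro P hP hP'
        rw [Finset.mem_powersetCard] at hP hP'
        exact hne (hinter T hT T' hT' P hP.2 hP.1 hP'.1)
      rw [← Finset.card_biUnion hdisj] at hsum
      have hab2 : ({a, b} : Finset (Fin d → ℝ)) ∈ F.powersetCard 2 := by
        rw [Finset.mem_powersetCard]
        refine ⟨?_, Finset.card_pair hab⟩
        intro w hw
        simp only [Finset.mem_insert, Finset.mem_singleton] at hw
        rcases hw with rfl | rfl <;> assumption
      have hsub : 𝒯.biUnion (fun T => T.powersetCard 2) ⊆ (F.powersetCard 2).erase {a, b} := by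
        intro P hP
        rw [Finset.mem_biUnion] at hP
        obtain ⟨T, hT, hPT⟩ := hP
        rw [Finset.mem_powersetCard] at hPT
        rw [h𝒯, Finset.mem_filter, Finset.mem_powersetCard] at hT
        rw [Finset.mem_erase, Finset.mem_powersetCard]
        refine ⟨?_, hPT.1.trans hT.1.1, hPT.2⟩
        rintro rfl
        -- third point of `T`
        obtain ⟨c, hc⟩ : (T \ {a, b}).Nonempty := by
          rw [← Finset.card_pos, Finset.card_sdiff_of_subset hPT.1, hT.1.2, hPT.2]
          norm_num
        rw [Finset.mem_sdiff] at hc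
        have hTeq : T = {a, b, c} := by
          symm
          apply Finset.eq_of_subset_of_card_le
          · intro w hw
            simp only [Finset.mem_insert, Finset.mem_singleton] at hw
            rcases hw with rfl | rfl | rfl
            · exact hPT.1 (by simp)
            · exact hPT.1 (by simp)
            · exact hc.1
          · rw [hT.1.2]
            have : ({a, b, c} : Finset (Fin d → ℝ)).card = 3 := by
              have h14 : ({a, b, c} : Finset (Fin d → ℝ)) = insert c {a, b} := by
                ext w; simp only [Finset.mem_insert, Finset.mem_singleton]; tauto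
              rw [h14, Finset.card_insert_of_notMem hc.2, hPT.2]
            omega
        have hcl : Collinear ℝ ({a, b, c} : Set (Fin d → ℝ)) := by
          have h15 := (hM4 T).mp (by rw [hT.2])
          rw [hTeq] at h15
          simpa using h15
        have := hcol c (hT.1.1 hc.1) hcl
        apply hc.2
        simp only [Finset.mem_insert, Finset.mem_singleton]
        exact this
      have hle := Finset.card_le_card hsub
      rw [hsum, Finset.card_erase_of_mem hab2, Finset.card_powersetCard, hF7] at hle
      have : Nat.choose 7 2 = 21 := rfl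
      omega
    have hne : S.Nonempty := by rw [← Finset.card_pos]; omega
    have h1 := main_odd hsimple hF hne m (by
      have := hM3 S
      omega) q
    rw [hcirc] at h1
    have e4 : (S.card : ℤ) - 1 = N := by rw [hN1]; push_cast; ring
    rw [e4, ← h2] at h1
    have h5 : (lines m N : ℤ) ≤ (affCircs S).card + delta (q + 1) := by linarith
    have h6 : lines m N ≤ (affCircs S).card + delta (q + 1) := by exact_mod_cast h5
    rw [hq]
    omega

end Pool.Agent.Helper766.Rad
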