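import Mathlib
import Pool.Agent.Helper766.Rad.Defs

set_option autoImplicit false

namespace Pool.Agent.Helper766.Rad.Realise

open Pool.Agent.Helper766.Rad


/-! helper lemmas -/

theorem j240_mem_linCircs {κ V : Type} [Fintype κ] [AddCommGroup V] [Module ℝ V] (v : κ → V)
    (C : Finset κ) : C ∈ linCircs v ↔ (¬ LinearIndepOn ℝ v (C : Set κ) ∧
    ∀ e ∈ C, LinearIndepOn ℝ v ((C : Set κ) \ {e})) := by
  simp only [linCircs, Finset.mem_filter, Finset.mem_univ, true_and]

theorem j240_aff_iff_lin {V : Type} [AddCommGroup V] [Module ℝ V] {ι : Type} (q : ι → V)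
    (f : V →ₗ[ℝ] ℝ) (hf : ∀ i, f (q i) = 1) :
    AffineIndependent ℝ q ↔ LinearIndependent ℝ q := by
  rw [affineIndependent_iff, linearIndependent_iff']
  constructor
  · intro h s w hw
    refine h s w ?_ hw
    have h1 := congrArg f hw
    rw [map_sum, map_zero] at h1
    simpa [hf] using h1
  · intro h s w _ hw
    exact h s w hw

theorem j240_transfer {V : Type} [AddCommGroup V] [Module ℝ V] {d n : ℕ} (v : Fin n → V)
    (f : V →ₗ[ℝ] ℝ) (hf : ∀ i, f (v i) = 1) (p : Fin n → (Fin d → ℝ))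
    (hp : Function.Injective p) (g : (Fin d → ℝ) →ᵃ[ℝ] V) (hg : Function.Injective g)
    (hgp : ∀ i, g (p i) = v i) (T : Set (Fin n)) (D : Finset (Fin d → ℝ))
    (hD : ∀ x, x ∈ D ↔ ∃ i ∈ T, p i = x) :
    AffineIndependent ℝ ((↑) : D → (Fin d → ℝ)) ↔ LinearIndepOn ℝ v T := by
  let e0 : T → D := fun i => ⟨p i.1, (hD _).2 ⟨i.1, i.2, rfl⟩⟩
  have he0 : Function.Bijective e0 := by
    constructor
    · intro a b hab
      exact Subtype.ext (hp (congrArg Subtype.val hab))
    · rintro ⟨x, hx⟩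
      obtain ⟨i, hi, rfl⟩ := (hD x).1 hx
      exact ⟨⟨i, hi⟩, rfl⟩
  let e : T ≃ D := Equiv.ofBijective e0 he0
  rw [← affineIndependent_equiv e, ← AffineMap.affineIndependent_iff g hg]
  have h1 : (⇑g ∘ ((↑) : D → (Fin d → ℝ)) ∘ ⇑e) = fun i : T => v i := by
    funext i
    exact hgp i.1
  rw [h1, j240_aff_iff_lin _ f (fun i => hf _)]
  rfl

/-- TARGET 1 (for `d ≥ 1` or `n ≥ 1`; the functional is nonzero since `n ≥ 1`). -/
theorem real'_points (d n c : ℕ) (hn : 1 ≤ n) (h : Real' (d + 1) n c) :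
    ∃ S : Finset (Fin d → ℝ), S.card = n ∧ (affCircs S).card ≤ c := by
  classical
  obtain ⟨V, _, _, hfin, v, f, hv, hf, hcard⟩ := h
  have : Module.Finite ℝ V := Module.finite_of_finrank_pos (by omega)
  let i0 : Fin n := ⟨0, by omega⟩
  let e0 : V := v i0
  have he0 : f e0 = 1 := hf i0
  have hker : Module.finrank ℝ (LinearMap.ker f) = d := by
    have h1 := LinearMap.finrank_range_add_finrank_ker f
    have h2 : LinearMap.range f = ⊤ := by
      rw [LinearMap.range_eq_top]
      intro c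
      exact ⟨c • e0, by rw [map_smul, he0, smul_eq_mul, mul_one]⟩
    rw [h2, finrank_top, Module.finrank_self, hfin] at h1
    omega
  let φ : LinearMap.ker f ≃ₗ[ℝ] (Fin d → ℝ) :=
    LinearEquiv.ofFinrankEq _ _ (by rw [hker]; simp)
  let p : Fin n → (Fin d → ℝ) := fun i => φ ⟨v i - e0, by
    rw [LinearMap.mem_ker, map_sub, hf, he0, sub_self]⟩
  have hp : Function.Injective p := by
    intro i j hij
    have h1 := congrArg Subtype.val (φ.injective hij)
    exact hv (sub_left_injective h1)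
  let g : (Fin d → ℝ) →ᵃ[ℝ] V :=
    ((LinearMap.ker f).subtype.comp φ.symm.toLinearMap).toAffineMap + AffineMap.const ℝ _ e0
  have hgx : ∀ x, g x = (φ.symm x : V) + e0 := fun x => rfl
  have hg : Function.Injective g := by
    intro x y hxy
    rw [hgx, hgx] at hxy
    exact φ.symm.injective (Subtype.ext (add_left_injective e0 hxy))
  have hgp : ∀ i, g (p i) = v i := by
    intro i
    rw [hgx]
    simp [p]
  refine ⟨Finset.univ.image p, ?_, ?_⟩
  · rw [Finset.card_image_of_injective _ hp, Finset.card_univ, Fintype.card_fin]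
  · refine le_trans ?_ hcard
    have hmem : ∀ C ∈ affCircs (Finset.univ.image p), ∀ x, x ∈ C ↔
        ∃ i ∈ Finset.univ.filter (fun i => p i ∈ C), p i = x := by
      intro C hC x
      unfold affCircs at hC
      rw [Finset.mem_filter, Finset.mem_powerset] at hC
      constructor
      · intro hx
        obtain ⟨i, _, rfl⟩ := Finset.mem_image.1 (hC.1 hx)
        exact ⟨i, Finset.mem_filter.2 ⟨Finset.mem_univ _, hx⟩, rfl⟩
      · rintro ⟨i, hi, rfl⟩
        exact (Finset.mem_filter.1 hi).2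
    refine Finset.card_le_card_of_injOn (fun C => Finset.univ.filter (fun i => p i ∈ C)) ?_ ?_
    · intro C hC
      have hC' := hC
      have hm := hmem C hC
      unfold affCircs at hC
      rw [Finset.mem_coe, Finset.mem_filter] at hC
      obtain ⟨_, hdep, hind⟩ := hC
      rw [Finset.mem_coe, j240_mem_linCircs]
      refine ⟨?_, ?_⟩
      · intro hT
        apply hdep
        rw [j240_transfer v f hf p hp g hg hgp
          ((Finset.univ.filter (fun i => p i ∈ C) : Finset (Fin n)) : Set (Fin n)) C hm]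
        exact hT
      · intro i hi
        have hi' : p i ∈ C := (Finset.mem_filter.1 hi).2
        have h1 := hind (p i) hi' (C.erase (p i)) (Finset.erase_subset _ _)
          (Finset.notMem_erase _ _)
        rw [j240_transfer v f hf p hp g hg hgp
          (((Finset.univ.filter (fun i => p i ∈ C) : Finset (Fin n)) : Set (Fin n)) \ {i})
          (C.erase (p i))] at h1
        · exact h1
        · intro x
          rw [Finset.mem_erase, hm x]
          constructor
          · rintro ⟨hne, j, hj, rfl⟩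
            exact ⟨j, ⟨hj, fun hji => hne (by rw [Set.mem_singleton_iff.1 hji])⟩, rfl⟩
          · rintro ⟨j, ⟨hj, hji⟩, rfl⟩
            refine ⟨fun h => hji (Set.mem_singleton_iff.2 (hp h)), j, hj, rfl⟩
    · intro C hC C' hC' hCC
      dsimp only at hCC
      ext x
      rw [hmem C hC x, hmem C' hC' x, hCC]



/-- circuits inside an independent-complement block -/
theorem j240_block {κ κ₁ V V₁ : Type} [Fintype κ] [Fintype κ₁] [AddCommGroup V] [Module ℝ V]
    [AddCommGroup V₁] [Module ℝ V₁] (v : κ → V) (v₁ : κ₁ → V₁) (ι₁ : κ₁ ↪ κ)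
    (hι : ∀ A : Set κ₁, LinearIndepOn ℝ v (ι₁ '' A) ↔ LinearIndepOn ℝ v₁ A)
    (C : Finset κ) (C₁ : Finset κ₁) (hC₁ : ∀ i, i ∈ C₁ ↔ ι₁ i ∈ C) (hC : C ∈ linCircs v)
    (hdep : ¬ LinearIndepOn ℝ v₁ (C₁ : Set κ₁)) : C₁ ∈ linCircs v₁ ∧ C₁.map ι₁ = C := by
  classical
  rw [j240_mem_linCircs] at hC ⊢
  have hsub : C₁.map ι₁ ⊆ C := by
    intro x hx
    obtain ⟨i, hi, rfl⟩ := Finset.mem_map.1 hx
    exact (hC₁ i).1 hi
  have heq : C₁.map ι₁ = C := by
    by_contra hne
    obtain ⟨e, he, he'⟩ := Finset.exists_of_ssubset (lt_of_le_of_ne hsub hne)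
    have h1 := hC.2 e he
    apply hdep
    rw [← hι]
    apply h1.mono
    rintro x ⟨i, hi, rfl⟩
    refine ⟨(hC₁ i).1 hi, ?_⟩
    intro h2
    apply he'
    rw [← Set.mem_singleton_iff.1 h2]
    exact Finset.mem_map_of_mem _ hi
  refine ⟨⟨hdep, ?_⟩, heq⟩
  intro i hi
  have h1 := hC.2 (ι₁ i) ((hC₁ i).1 hi)
  rw [← hι]
  apply h1.mono
  rintro x ⟨j, ⟨hj, hji⟩, rfl⟩
  exact ⟨(hC₁ j).1 hj, fun h2 => hji (Set.mem_singleton_iff.2 (ι₁.injective h2))⟩

theorem j240_image_iff {κ κ₁ V V₁ : Type} [AddCommGroup V] [Module ℝ V]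
    [AddCommGroup V₁] [Module ℝ V₁] (v : κ → V) (v₁ : κ₁ → V₁) (ι₁ : κ₁ ↪ κ)
    (l : V₁ →ₗ[ℝ] V) (hl : Function.Injective l) (hvl : ∀ i, v (ι₁ i) = l (v₁ i))
    (A : Set κ₁) : LinearIndepOn ℝ v (ι₁ '' A) ↔ LinearIndepOn ℝ v₁ A := by
  have h1 : v ∘ ι₁ = l ∘ v₁ := funext hvl
  have h2 : LinearIndepOn ℝ (l ∘ v₁) A ↔ LinearIndepOn ℝ v₁ A :=
    LinearMap.linearIndepOn_iff_of_injOn l hl.injOn
  rw [← h2, ← h1]
  constructor
  · intro h
    exact h.comp_of_image ι₁.injective.injOn
  · intro h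
    exact LinearIndepOn.image_of_comp _ _ h

theorem j240_append {V₁ V₂ : Type} [AddCommGroup V₁] [Module ℝ V₁] [AddCommGroup V₂]
    [Module ℝ V₂] {n₁ n₂ : ℕ} (v₁ : Fin n₁ → V₁) (v₂ : Fin n₂ → V₂)
    (v : Fin (n₁ + n₂) → V₁ × V₂) (hv1 : ∀ i, v (Fin.castAdd n₂ i) = (v₁ i, 0))
    (hv2 : ∀ i, v (Fin.natAdd n₁ i) = (0, v₂ i))
    (C : Finset (Fin (n₁ + n₂))) (C₁ : Finset (Fin n₁)) (C₂ : Finset (Fin n₂))
    (hC₁ : ∀ i, i ∈ C₁ ↔ Fin.castAdd n₂ i ∈ C) (hC₂ : ∀ i, i ∈ C₂ ↔ Fin.natAdd n₁ i ∈ C)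
    (h1 : LinearIndepOn ℝ v₁ (C₁ : Set (Fin n₁))) (h2 : LinearIndepOn ℝ v₂ (C₂ : Set (Fin n₂))) :
    LinearIndepOn ℝ v (C : Set (Fin (n₁ + n₂))) := by
  classical
  rw [linearIndepOn_finset_iff] at h1 h2 ⊢
  intro g hg
  have e1 : ∑ x, (if x ∈ C then g x else 0) • v x = 0 := by
    rw [← hg]
    simp [ite_smul, Finset.sum_ite_mem]
  rw [Fin.sum_univ_add] at e1
  simp only [hv1, hv2] at e1
  have e2 := congrArg Prod.fst e1
  have e3 := congrArg Prod.snd e1
  simp only [Prod.fst_add, Prod.fst_sum, Prod.smul_fst, smul_zero, Finset.sum_const_zero,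
    add_zero, Prod.fst_zero] at e2
  simp only [Prod.snd_add, Prod.snd_sum, Prod.smul_snd, smul_zero, Finset.sum_const_zero,
    zero_add, Prod.snd_zero] at e3
  have e2' : ∑ i ∈ C₁, g (Fin.castAdd n₂ i) • v₁ i = 0 := by
    rw [← e2]
    simp only [← hC₁]
    simp [ite_smul, Finset.sum_ite_mem]
  have e3' : ∑ i ∈ C₂, g (Fin.natAdd n₁ i) • v₂ i = 0 := by
    rw [← e3]
    simp only [← hC₂]
    simp [ite_smul, Finset.sum_ite_mem]
  have f1 := h1 _ e2'
  have f2 := h2 _ e3'
  intro x hx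
  refine Fin.addCases (motive := fun x => x ∈ C → g x = 0) ?_ ?_ x hx
  · intro i hi
    exact f1 i ((hC₁ i).2 hi)
  · intro i hi
    exact f2 i ((hC₂ i).2 hi)

/-- TARGET 2: direct sums. -/
theorem real'_add (D₁ n₁ c₁ D₂ n₂ c₂ : ℕ) (hD₁ : 0 < D₁) (hD₂ : 0 < D₂)
    (h₁ : Real' D₁ n₁ c₁) (h₂ : Real' D₂ n₂ c₂) :
    Real' (D₁ + D₂) (n₁ + n₂) (c₁ + c₂) := by
  classical
  obtain ⟨V₁, _, _, hfin₁, v₁, f₁, hv₁, hf₁, hcard₁⟩ := h₁
  obtain ⟨V₂, _, _, hfin₂, v₂, f₂, hv₂, hf₂, hcard₂⟩ := h₂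
  have : Module.Finite ℝ V₁ := Module.finite_of_finrank_pos (by omega)
  have : Module.Finite ℝ V₂ := Module.finite_of_finrank_pos (by omega)
  let v : Fin (n₁ + n₂) → V₁ × V₂ := Fin.append (fun i => (v₁ i, 0)) (fun i => (0, v₂ i))
  have hv1 : ∀ i, v (Fin.castAdd n₂ i) = (v₁ i, 0) := fun i => Fin.append_left _ _ _
  have hv2 : ∀ i, v (Fin.natAdd n₁ i) = (0, v₂ i) := fun i => Fin.append_right _ _ _
  have hne1 : ∀ i, v₁ i ≠ 0 := by
    intro i h
    have := hf₁ i
    rw [h, map_zero] at this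
    exact zero_ne_one this
  have hne2 : ∀ i, v₂ i ≠ 0 := by
    intro i h
    have := hf₂ i
    rw [h, map_zero] at this
    exact zero_ne_one this
  refine ⟨V₁ × V₂, inferInstance, inferInstance, ?_, v, LinearMap.coprod f₁ f₂, ?_, ?_, ?_⟩
  · rw [Module.finrank_prod, hfin₁, hfin₂]
  · intro x y
    refine Fin.addCases (fun i => ?_) (fun i => ?_) x <;>
      refine Fin.addCases (fun j => ?_) (fun j => ?_) y
    · rw [hv1, hv1]
      intro h
      rw [hv₁ (congrArg Prod.fst h)]
    · rw [hv1, hv2]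
      intro h
      exact absurd (congrArg Prod.fst h) (hne1 i)
    · rw [hv1, hv2]
      intro h
      exact absurd (congrArg Prod.snd h) (hne2 i)
    · rw [hv2, hv2]
      intro h
      rw [hv₂ (congrArg Prod.snd h)]
  · intro x
    refine Fin.addCases (fun i => ?_) (fun i => ?_) x
    · rw [hv1]
      simp [hf₁]
    · rw [hv2]
      simp [hf₂]
  · have hsub : linCircs v ⊆ (linCircs v₁).image (fun C => C.map (Fin.castAddEmb n₂)) ∪
        (linCircs v₂).image (fun C => C.map (Fin.natAddEmb n₁)) := by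
      intro C hC
      let C₁ : Finset (Fin n₁) := Finset.univ.filter (fun i => Fin.castAdd n₂ i ∈ C)
      let C₂ : Finset (Fin n₂) := Finset.univ.filter (fun i => Fin.natAdd n₁ i ∈ C)
      have hC₁ : ∀ i, i ∈ C₁ ↔ Fin.castAdd n₂ i ∈ C := fun i => by simp [C₁]
      have hC₂ : ∀ i, i ∈ C₂ ↔ Fin.natAdd n₁ i ∈ C := fun i => by simp [C₂]
      rw [Finset.mem_union]
      by_cases h1 : LinearIndepOn ℝ v₁ (C₁ : Set (Fin n₁))
      · by_cases h2 : LinearIndepOn ℝ v₂ (C₂ : Set (Fin n₂))
        · exfalso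
          have h3 := (j240_mem_linCircs v C).1 hC
          exact h3.1 (j240_append v₁ v₂ v hv1 hv2 C C₁ C₂ hC₁ hC₂ h1 h2)
        · right
          have h3 := j240_block v v₂ (Fin.natAddEmb n₁)
            (j240_image_iff v v₂ (Fin.natAddEmb n₁) (LinearMap.inr ℝ V₁ V₂)
              LinearMap.inr_injective (fun i => hv2 i)) C C₂ hC₂ hC h2
          exact Finset.mem_image.2 ⟨C₂, h3⟩
      · left
        have h3 := j240_block v v₁ (Fin.castAddEmb n₂)
          (j240_image_iff v v₁ (Fin.castAddEmb n₂) (LinearMap.inl ℝ V₁ V₂)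
            LinearMap.inl_injective (fun i => hv1 i)) C C₁ hC₁ hC h1
        exact Finset.mem_image.2 ⟨C₁, h3⟩
    refine (Finset.card_le_card hsub).trans ((Finset.card_union_le _ _).trans ?_)
    exact Nat.add_le_add (Finset.card_image_le.trans hcard₁) (Finset.card_image_le.trans hcard₂)

/-- TARGET 3: `n` points on a line: vectors `(1, t)`, `t = 0, ..., n-1`, in `ℝ × ℝ`. -/
theorem real'_line (n : ℕ) : Real' 2 n (n.choose 3) := by
  classical
  let v : Fin n → ℝ × ℝ := fun t => (1, ((t : ℕ) : ℝ))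
  refine ⟨ℝ × ℝ, inferInstance, inferInstance, by simp, v, LinearMap.fst ℝ ℝ ℝ, ?_, ?_, ?_⟩
  · intro i j hij
    have h1 : ((i : ℕ) : ℝ) = ((j : ℕ) : ℝ) := congrArg Prod.snd hij
    exact Fin.ext (by exact_mod_cast h1)
  · intro i
    rfl
  · have hsub : linCircs v ⊆ Finset.powersetCard 3 Finset.univ := by
      intro C hC
      rw [j240_mem_linCircs] at hC
      obtain ⟨hdep, hind⟩ := hC
      rw [Finset.mem_powersetCard]
      refine ⟨Finset.subset_univ _, ?_⟩
      rcases lt_trichotomy C.card 3 with h | h | h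
      · exfalso
        apply hdep
        rw [linearIndepOn_finset_iff]
        intro g hg
        have h0 : C.card = 0 ∨ C.card = 1 ∨ C.card = 2 := by omega
        rcases h0 with h0 | h0 | h0
        · rw [Finset.card_eq_zero] at h0
          subst h0
          intro i hi
          exact absurd hi (Finset.notMem_empty _)
        · rw [Finset.card_eq_one] at h0
          obtain ⟨a, rfl⟩ := h0
          rw [Finset.sum_singleton] at hg
          intro i hi
          rw [Finset.mem_singleton.1 hi]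
          have := congrArg Prod.fst hg
          simpa [v] using this
        · rw [Finset.card_eq_two] at h0
          obtain ⟨a, b, hab, rfl⟩ := h0
          rw [Finset.sum_pair hab] at hg
          have e1 := congrArg Prod.fst hg
          have e2 := congrArg Prod.snd hg
          simp only [v, Prod.fst_add, Prod.smul_fst, smul_eq_mul, mul_one, Prod.fst_zero,
            Prod.snd_add, Prod.smul_snd, Prod.snd_zero] at e1 e2
          have hab' : ((a : ℕ) : ℝ) - ((b : ℕ) : ℝ) ≠ 0 := by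
            intro h1
            apply hab
            apply Fin.ext
            have : ((a : ℕ) : ℝ) = ((b : ℕ) : ℝ) := by linarith
            exact_mod_cast this
          have ha : g a = 0 := by
            have h1 : g a * (((a : ℕ) : ℝ) - ((b : ℕ) : ℝ)) = 0 := by
              have h2 : g b = - g a := by linarith
              rw [h2] at e2
              linarith
            exact (mul_eq_zero.1 h1).resolve_right hab'
          intro i hi
          rw [Finset.mem_insert, Finset.mem_singleton] at hi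
          rcases hi with rfl | rfl
          · exact ha
          · linarith
      · exact h
      · exfalso
        obtain ⟨e, he⟩ := Finset.card_pos.1 (by omega : 0 < C.card)
        have h1 := hind e he
        have h2 : ((C : Set (Fin n)) \ {e}) = ((C.erase e : Finset (Fin n)) : Set (Fin n)) := by
          rw [Finset.coe_erase]
        rw [h2] at h1
        have h3 : LinearIndependent ℝ (fun i : (C.erase e : Finset (Fin n)) => v i) := h1
        have h4 := h3.fintype_card_le_finrank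
        rw [Fintype.card_coe, Finset.card_erase_of_mem he] at h4
        have h5 : Module.finrank ℝ (ℝ × ℝ) = 2 := by simp
        omega
    refine (Finset.card_le_card hsub).trans ?_
    rw [Finset.card_powersetCard, Finset.card_univ, Fintype.card_fin]

end Pool.Agent.Helper766.Rad.Realise
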