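import Mathlib
import Pool.Agent.Helper766.Rad.Lower
import Pool.Agent.Helper766.Rad.Dict
import Pool.Agent.Helper766.Rad.Realise
import Pool.Agent.Helper766.Rad.Config

set_option autoImplicit false

namespace Pool.Agent.Helper766.Rad

/-- `a` lines with `q` points and `b` lines with `q+1` points. -/
theorem real_parts (q : ℕ) : ∀ k a b : ℕ, a + b = k + 1 →
    Real' (2 * (a + b)) (a * q + b * (q + 1)) (a * q.choose 3 + b * (q + 1).choose 3) := by
  intro k
  induction k with
  | zero =>
    intro a b hab
    obtain ⟨rfl, rfl⟩ | ⟨rfl, rfl⟩ : (a = 1 ∧ b = 0) ∨ (a = 0 ∧ b = 1) := by omega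
    · have := Realise.real'_line q
      simpa using this
    · have := Realise.real'_line (q + 1)
      simpa using this
  | succ k ih =>
    intro a b hab
    rcases Nat.eq_zero_or_pos a with h | h
    · subst h
      obtain ⟨b', rfl⟩ : ∃ b', b = b' + 1 := ⟨b - 1, by omega⟩
      have h1 := ih 0 b' (by omega)
      have h2 := Realise.real'_line (q + 1)
      have h3 := Realise.real'_add _ _ _ _ _ _ (by omega) (by norm_num) h1 h2
      convert h3 using 1 <;> ring
    · obtain ⟨a', rfl⟩ : ∃ a', a = a' + 1 := ⟨a - 1, by omega⟩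
      have h1 := ih a' b (by omega)
      have h2 := Realise.real'_line q
      have h3 := Realise.real'_add _ _ _ _ _ _ (by omega) (by norm_num) h1 h2
      convert h3 using 1 <;> ring

/-- the rank 3 block with `u + 1` points -/
theorem real_block (u : ℕ) (hu : 3 ≤ u) : Real' 3 (u + 1) (u.choose 3 - delta u) := by
  by_cases h5 : u = 5
  · subst h5
    have h1 : Nat.choose 5 3 - delta 5 = 7 := rfl
    rw [h1]
    exact Config.real'_K4
  · obtain ⟨l, rfl⟩ : ∃ l, u = l + 1 := ⟨u - 1, by omega⟩
    have h1 := Config.real'_plane l (by omega)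
    have h2 : (l + 1).choose 3 - delta (l + 1) = l.choose 3 + 1 + (l - 1).choose 2 := by
      obtain ⟨k, rfl⟩ : ∃ k, l = k + 1 := ⟨l - 1, by omega⟩
      have e1 : (k + 1 + 1).choose 3 = (k + 1).choose 2 + (k + 1).choose 3 := rfl
      have e2 : (k + 1).choose 2 = k.choose 1 + k.choose 2 := rfl
      have e3 : delta (k + 1 + 1) = k - 1 := by
        unfold delta
        rw [if_neg h5]
        omega
      rw [e1, e2, e3, Nat.choose_one_right]
      have : k + 1 - 1 = k := by omega
      rw [this]
      omega
    rw [h2]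
    exact h1

theorem upper_bound {d s : ℕ} (hd : 1 ≤ d) (hs : d + 2 ≤ s) :
    ∃ S : Finset (Fin d → ℝ), S.card = s ∧ (affCircs S).card ≤ minCount d s := by
  unfold minCount
  split_ifs with hodd
  · set m := (d + 1) / 2 with hm
    have hmd : d + 1 = 2 * m := by omega
    have hm0 : 0 < m := by omega
    have ht := Nat.mod_lt s hm0
    have hq := Nat.div_add_mod s m
    have h1 := real_parts (s / m) (m - 1) (m - s % m) (s % m) (by omega)
    have e1 : m - s % m + s % m = m := by omega
    have e2 : (m - s % m) * (s / m) + (s % m) * (s / m + 1) = s := by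
      have : (m - s % m) * (s / m) + (s % m) * (s / m + 1) =
        (m - s % m + s % m) * (s / m) + s % m := by ring
      rw [this, e1]
      exact hq
    rw [e1, e2, ← hmd] at h1
    exact Realise.real'_points d s _ (by omega) h1
  · set m := d / 2 with hm
    have hmd : d = 2 * m := by omega
    have hm0 : 0 < m := by omega
    set N := s - 1 with hN
    have hN1 : s = N + 1 := by omega
    set u := (N + (m - 1)) / m with hu
    have hu1 : m * u ≤ N + (m - 1) := Nat.mul_div_le _ _
    have hu2 : N + (m - 1) < m * (u + 1) := Nat.lt_mul_div_succ _ hm0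
    have hu3 : 3 ≤ u := by
      rw [hu, Nat.le_div_iff_mul_le hm0]
      omega
    obtain ⟨q, hq⟩ : ∃ q, u = q + 1 := ⟨u - 1, by omega⟩
    rw [hq] at hu1 hu2 hu3 ⊢
    have e1 : m * (q + 1) = m * q + m := by ring
    have e2 : m * (q + 1 + 1) = m * (q + 1) + m := by ring
    -- N = m q + t with 1 ≤ t ≤ m
    obtain ⟨t, ht⟩ : ∃ t, N = m * q + t := ⟨N - m * q, by omega⟩
    have ht1 : 1 ≤ t := by omega
    have ht2 : t ≤ m := by omega
    have hb := real_block (q + 1) hu3
    have hle : delta (q + 1) ≤ (q + 1).choose 3 := by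
      have h1 : (3 : ℤ) ≤ ((q + 1 : ℕ) : ℤ) := by exact_mod_cast hu3
      have h2 := arith_delta (q + 1) 0 hu3
      have h3 := choose3_six (q + 1)
      have h4 : delta (0 + 1) = 0 := rfl
      rw [h4] at h2
      simp only [Nat.cast_zero, zero_mul, zero_add, mul_zero, add_zero] at h2
      rw [← h3] at h2
      have : (delta (q + 1) : ℤ) ≤ ((q + 1).choose 3 : ℕ) := by linarith
      exact_mod_cast this
    have hlines : lines m N = (m - t) * q.choose 3 + t * (q + 1).choose 3 := by
      have h2 := lines_eq m N q hm0 (by omega) (by omega)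
      have h3 := choose3_six q
      have h4 := choose3_six' q
      have h5 : 6 * (((m - t) * q.choose 3 + t * (q + 1).choose 3 : ℕ) : ℤ) =
          6 * (lines m N : ℤ) := by
        rw [h2, ht]
        push_cast [Nat.cast_sub ht2]
        have : 6 * (((m : ℤ) - t) * (q.choose 3 : ℤ) + t * ((q + 1).choose 3 : ℤ)) =
          ((m : ℤ) - t) * (6 * (q.choose 3 : ℤ)) + t * (6 * ((q + 1).choose 3 : ℤ)) := by ring
        rw [this, h3, h4]
        ring
      have h6 : (lines m N : ℤ) = (((m - t) * q.choose 3 + t * (q + 1).choose 3 : ℕ) : ℤ) := by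
        linarith
      exact_mod_cast h6
    -- `N + 1` points in dimension `d`
    suffices hR : Real' (d + 1) s (lines m N - delta (q + 1)) from
      Realise.real'_points d s _ (by omega) hR
    rcases Nat.lt_or_ge m 2 with hm2 | hm2
    · -- m = 1
      have hm1 : m = 1 := by omega
      have ht' : t = 1 := by omega
      rw [hm1, ht'] at hlines
      rw [hm1] at ht
      rw [hm1, hlines]
      have e3 : d + 1 = 3 := by omega
      have e4 : s = q + 1 + 1 := by omega
      rw [e3, e4]
      simpa using hb
    · have h1 := real_parts q (m - 2) (m - t) (t - 1) (by omega)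
      have h2 := Realise.real'_add _ _ _ _ _ _ (by omega) (by norm_num) h1 hb
      obtain ⟨t', rfl⟩ : ∃ t', t = t' + 1 := ⟨t - 1, by omega⟩
      obtain ⟨a, ha⟩ : ∃ a, m = t' + 1 + a := ⟨m - (t' + 1), by omega⟩
      have e5 : m - (t' + 1) = a := by omega
      have e6 : t' + 1 - 1 = t' := by omega
      rw [e5] at hlines
      rw [e5, e6] at h2
      have e7 : 2 * (a + t') + 3 = d + 1 := by omega
      have e8 : a * q + t' * (q + 1) + (q + 1 + 1) = s := by
        rw [hN1, ht, ha]; ring
      have e9 : a * q.choose 3 + t' * (q + 1).choose 3 + ((q + 1).choose 3 - delta (q + 1)) =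
          lines m N - delta (q + 1) := by
        rw [hlines]
        have : (t' + 1) * (q + 1).choose 3 = t' * (q + 1).choose 3 + (q + 1).choose 3 := by ring
        omega
      rw [e7, e8, e9] at h2
      exact h2

/-- The minimum number of primitive Radon partitions. -/
theorem main {d s : ℕ} (hd : 1 ≤ d) (hs : d + 2 ≤ s) :
    IsLeast {k | ∃ S : Finset (Fin d → ℝ), S.card = s ∧ numPrimitive S = k} (minCount d s) := by
  constructor
  · obtain ⟨S, hS, hle⟩ := upper_bound hd hs
    refine ⟨S, hS, ?_⟩
    rw [Dict.numPrimitive_eq]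
    have := lower_bound hd S (by rw [hS]; exact hs)
    rw [hS] at this
    omega
  · rintro k ⟨S, hS, rfl⟩
    rw [Dict.numPrimitive_eq]
    have := lower_bound hd S (by rw [hS]; exact hs)
    rw [hS] at this
    exact this

end Pool.Agent.Helper766.Rad
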